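import Pool.Agent.W2helper83.UC.Main

/-!
# Families without exceptional primes
-/

set_option autoImplicit false

namespace Pool.Agent.W2helper83.UC

open Finset Pool.Agent.T6.H62.UB

theorem Red.val {d : ℕ} {a c : ℚ} {OQ : Finset ℚ} {l : ℚ} {A B : ℤ} {V : ℕ} {O : Finset ℤ}
    {φ : ℤ → ℤ} (R : Red d a c OQ l A B V O φ) (ha : a ≠ 0) {p : ℕ} (hp : p.Prime) (hpV : p ∣ V) :
    padicValRat p a + (d - 1 : ℕ) * padicValRat p l + padicValNat p V = 0 := by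
  have := Fact.mk hp
  have hVQ : (V : ℚ) ≠ 0 := by exact_mod_cast R.V0.ne'
  have h1 := congrArg (padicValRat p) R.ha
  rw [padicValRat.mul (mul_ne_zero ha (pow_ne_zero _ R.l0)) hVQ,
    padicValRat.mul ha (pow_ne_zero _ R.l0), padicValRat.pow, padicValRat.of_int,
    padicValRat.of_nat, padicValInt.eq_zero_of_not_dvd (R.sys.not_dvd_A hp hpV)] at h1
  exact h1

theorem val_two_zpow {p : ℕ} (hp : p.Prime) (hp2 : p ≠ 2) (i : ℤ) {r : ℚ} (hr : r ≠ 0) :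
    padicValRat p ((2 : ℚ) ^ i * r ^ 3) = 3 * padicValRat p r := by
  have := Fact.mk hp
  have h2 : padicValRat p (2 : ℚ) = 0 := by
    have : (2 : ℚ) = ((2 : ℕ) : ℚ) := by norm_num
    rw [this, padicValRat.of_nat, padicValNat.eq_zero_of_not_dvd, Nat.cast_zero]
    intro h
    exact hp2 ((Nat.prime_dvd_prime_iff_eq hp Nat.prime_two).1 h)
  rw [padicValRat.mul (zpow_ne_zero _ (by norm_num)) (pow_ne_zero _ hr), padicValRat.zpow, h2,
    padicValRat.pow]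
  push_cast
  ring

/-- For `a = 2 ^ i r ^ 3` and `3 ∣ d - 1` the valuations of `V` are divisible by three. -/
theorem three_dvd_val {d : ℕ} (h3 : 3 ∣ d - 1) (i : ℤ) {r : ℚ} (hr : r ≠ 0) {c : ℚ}
    {OQ : Finset ℚ} {l : ℚ} {A B : ℤ} {V : ℕ} {O : Finset ℤ} {φ : ℤ → ℤ}
    (R : Red d (2 ^ i * r ^ 3) c OQ l A B V O φ) {p : ℕ} (hp : p.Prime) (hp2 : p ≠ 2)
    (hpV : p ∣ V) : 3 ∣ padicValNat p V := by
  have ha : (2 : ℚ) ^ i * r ^ 3 ≠ 0 := mul_ne_zero (zpow_ne_zero _ (by norm_num)) (pow_ne_zero _ hr)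
  have h1 := R.val ha hp hpV
  rw [val_two_zpow hp hp2 i hr] at h1
  obtain ⟨k, hk⟩ := h3
  have h5 : (3 : ℤ) ∣ (padicValNat p V : ℤ) := by
    refine ⟨-(padicValRat p r + k * padicValRat p l), ?_⟩
    rw [hk, Nat.cast_mul, Nat.cast_ofNat] at h1
    linarith
  exact_mod_cast h5

theorem val_lt {p d : ℕ} (hp : p.Prime) (hd : 4 ≤ d) : padicValNat p d < d - 1 := by
  have h1 : p ^ padicValNat p d ≤ d := Nat.le_of_dvd (by omega) pow_padicValNat_dvd
  have h2 : 2 ^ padicValNat p d ≤ d := (Nat.pow_le_pow_left hp.two_le _).trans h1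
  by_contra hcon
  rw [not_lt] at hcon
  have h3 : 2 ^ (d - 1) ≤ d := (Nat.pow_le_pow_right (by norm_num) hcon).trans h2
  obtain ⟨e, rfl⟩ : ∃ e, d = e + 4 := ⟨d - 4, by omega⟩
  have h4 : e + 4 - 1 = e + 3 := by omega
  rw [h4, pow_add] at h3
  have h5 : e < 2 ^ e := Nat.lt_two_pow_self
  omega

/-- the exceptional primes of `2 ^ i x ^ d + c`, `d ≡ 1 mod 3` -/
def excd (d m : ℕ) : Finset ℕ :=
  d.primeFactors.filter fun p => p ≠ 2 ∧ 2 ^ (padicValNat 2 m + 1) ∣ p - 1 ∧ ¬ 3 ∣ padicValNat p d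

/-- For `2 ^ i x ^ d + c` and `3 ∣ d - 1` there are no exceptional primes of the first kind. -/
theorem hypS_mono {d : ℕ} (hd : 4 ≤ d) (h3 : 3 ∣ d - 1) {m : ℕ} (i : ℤ) (c : ℚ) {p1 p2 : ℕ}
    (hE : excd d m ⊆ {p1, p2}) : HypS d m (2 ^ i) c p1 p2 := by
  intro OQ l A B V O φ R
  have ha : (2 : ℚ) ^ i ≠ 0 := zpow_ne_zero _ (by norm_num)
  have key : ∀ p : ℕ, p.Prime → p ≠ 2 → p ∣ V → (d - 1) ∣ padicValNat p V := by
    intro p hp hp2 hpV
    have h1 := R.val ha hp hpV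
    have h2 := val_two_zpow hp hp2 i (one_ne_zero (α := ℚ))
    rw [one_pow, mul_one, padicValRat.one, mul_zero] at h2
    rw [h2, zero_add] at h1
    have h5 : ((d - 1 : ℕ) : ℤ) ∣ (padicValNat p V : ℤ) := ⟨-padicValRat p l, by linarith⟩
    exact_mod_cast h5
  refine ⟨fun p hp hp2 hpV _ => ?_, fun p hp hp2 hpV hrel h3' => ?_⟩
  · refine ⟨h3.trans (key p hp hp2 hpV), ?_⟩
    have := Fact.mk hp
    have h6 : 1 ≤ padicValNat p V := one_le_padicValNat_of_dvd R.V0.ne' hpV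
    exact (val_lt hp hd).trans_le (Nat.le_of_dvd h6 (key p hp hp2 hpV))
  · have hpd : p ∣ d := by
      by_contra hpd
      apply h3'
      rw [padicValNat.eq_zero_of_not_dvd hpd]
      exact dvd_zero _
    have hm : p ∈ excd d m := mem_filter.2
      ⟨Nat.mem_primeFactors.2 ⟨hp, hpd, by omega⟩, hp2, hrel, h3'⟩
    simpa using hE hm

/-! ### no exceptional primes -/

theorem exc1_subset (d m : ℕ) (t : ℚ) : exc1 d m t ⊆ exc d m t := by
  intro p hp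
  unfold exc1 at hp
  unfold exc
  rw [mem_filter] at hp ⊢
  exact ⟨hp.1, hp.2.1, hp.2.2.1, fun h => hp.2.2.2 ⟨h.1, h.2.2⟩⟩

theorem rel_of_odd {m p : ℕ} (hm : ¬ 2 ∣ m) (hp : p.Prime) (hp2 : p ≠ 2) : Rel m p := by
  unfold Rel
  rw [padicValNat.eq_zero_of_not_dvd hm, zero_add, pow_one]
  obtain ⟨k, hk⟩ := hp.odd_of_ne_two hp2
  exact ⟨k, by omega⟩

theorem allC_of_odd {d m : ℕ} (hd0 : d ≠ 0) (hm : ¬ 2 ∣ m) {a c : ℚ}
    (h : exc d m (a * c ^ (d - 1)) = ∅) : AllC d a c := by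
  intro OQ l A B V O φ R p hp hp2 hpV
  by_contra hC
  have h1 := big_exc hd0 m a c OQ l A B V O φ R p hp hp2 hpV (rel_of_odd hm hp hp2) hC
  rw [h] at h1
  exact absurd h1 (by simp)

theorem hypS_of_empty {d m : ℕ} (hd0 : d ≠ 0) {a c : ℚ} (h : exc d m (a * c ^ (d - 1)) = ∅) :
    HypS d m a c 0 0 := by
  apply hypS_exc hd0
  · rw [← subset_empty, ← h]; exact exc1_subset _ _ _
  · rw [h]; exact empty_subset _

/-- the two conditions for `4 ∣ d` and `6 ∣ d` -/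
def NoExc (d : ℕ) (t : ℚ) : Prop :=
  (4 ∣ d ∧ exc d (d / 4) t = ∅) ∨ (6 ∣ d ∧ exc d (d / 2) t = ∅)

theorem str_of_eight {d : ℕ} (hd0 : d ≠ 0) (h : 8 ∣ d) : Str d (d / 4) := by
  obtain ⟨e, rfl⟩ := h
  exact Or.inl ⟨e, by omega, by ring, by omega⟩

theorem str_of_twelve {d : ℕ} (hd0 : d ≠ 0) (h : 12 ∣ d) : Str d (d / 2) := by
  obtain ⟨e, rfl⟩ := h
  exact Or.inr ⟨e, by omega, by ring, by omega⟩

theorem NoExc.cases {d : ℕ} (hd0 : d ≠ 0) {a c : ℚ} (h : NoExc d (a * c ^ (d - 1))) :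
    AllC d a c ∨ ∃ m : ℕ, Str d m ∧ HypS d m a c 0 0 := by
  rcases h with ⟨⟨e, rfl⟩, h⟩ | ⟨⟨e, rfl⟩, h⟩
  · by_cases he : 2 ∣ e
    · obtain ⟨e', rfl⟩ := he
      right
      exact ⟨4 * (2 * e') / 4, str_of_eight hd0 ⟨e', by ring⟩, hypS_of_empty hd0 h⟩
    · left
      apply allC_of_odd hd0 (m := 4 * e / 4) _ h
      rwa [Nat.mul_div_cancel_left _ (by norm_num)]
  · by_cases he : 2 ∣ e
    · obtain ⟨e', rfl⟩ := he
      right
      exact ⟨6 * (2 * e') / 2, str_of_twelve hd0 ⟨e', by ring⟩, hypS_of_empty hd0 h⟩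
    · left
      apply allC_of_odd hd0 (m := 6 * e / 2) _ h
      omega

theorem NoExc.dvd {d : ℕ} {t : ℚ} (h : NoExc d t) : 4 ∣ d ∨ 6 ∣ d :=
  h.imp And.left And.left

theorem no_per {d : ℕ} (hd0 : d ≠ 0) {a c : ℚ} (ha : a ≠ 0) (h : NoExc d (a * c ^ (d - 1)))
    (T : Finset ℚ) (hT : ∀ x ∈ T, x ∈ periodicPts (cen d a c)) : T.card ≤ 2 := by
  rcases h.cases hd0 with h1 | -
  · exact per_two h.dvd hd0 ha h1 T hT
  · rcases h with ⟨h4, h⟩ | ⟨h6, h⟩
    · by_cases h8 : 8 ∣ d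
      · have hb := big_exc hd0 (d / 4) a c
        rw [h] at hb
        have := per_A8 h8 hd0 ha hb T hT
        rwa [prod_empty, max_eq_left (by norm_num)] at this
      · exact per_two (Or.inl h4) hd0 ha (allC_of_odd hd0 (m := d / 4) (by omega) h) T hT
    · by_cases h12 : 12 ∣ d
      · have hb := big_exc hd0 (d / 2) a c
        rw [h] at hb
        have := per_B12 h12 hd0 ha hb T hT
        rwa [card_empty, pow_zero, max_eq_left (by norm_num)] at this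
      · exact per_two (Or.inr h6) hd0 ha (allC_of_odd hd0 (m := d / 2) (by omega) h) T hT

theorem no_pre {d : ℕ} (hd0 : d ≠ 0) {a c : ℚ} (ha : a ≠ 0) (h : NoExc d (a * c ^ (d - 1)))
    (T : Finset ℚ) (hT : ∀ x ∈ T, x ∈ preperiodicPts (cen d a c)) : T.card ≤ 4 := by
  rcases h.cases hd0 with h1 | ⟨m, hs, hH⟩
  · exact pre_four h.dvd hd0 ha h1 T hT
  · exact (s_three hs ha hH T hT).trans (by norm_num)

theorem no_shape {d : ℕ} (hd0 : d ≠ 0) {a c : ℚ} (ha : a ≠ 0) (h : NoExc d (a * c ^ (d - 1))) :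
    Shape d a c := by
  rcases h.cases hd0 with h1 | ⟨m, hs, hH⟩
  · exact pre_shape h.dvd hd0 ha h1
  · exact s_shape hs ha hH

/-- the exceptional primes of `(A x ^ d + B) / V` -/
theorem exc_normal {d : ℕ} (m : ℕ) (hd0 : d ≠ 0) {A B : ℤ} {V : ℕ} (hV0 : 0 < V)
    (hcop : IsCoprime (A * B) (V : ℤ)) :
    exc d m ((A : ℚ) / (V : ℚ) * ((B : ℚ) / (V : ℚ)) ^ (d - 1)) =
      V.primeFactors.filter fun p => p ≠ 2 ∧ 2 ^ (padicValNat 2 m + 1) ∣ p - 1 ∧
        ¬ (3 ∣ padicValNat p V ∧ 3 ∣ padicValNat p d ∧ padicValNat p d < padicValNat p V) := by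
  have hVQ : (V : ℚ) ≠ 0 := by exact_mod_cast hV0.ne'
  have hd1 : 0 < d := Nat.pos_of_ne_zero hd0
  have ht : (A : ℚ) / (V : ℚ) * ((B : ℚ) / (V : ℚ)) ^ (d - 1) =
      ((A * B ^ (d - 1) : ℤ) : ℚ) / ((V ^ d : ℕ) : ℤ) := by
    obtain ⟨e, rfl⟩ : ∃ e, d = e + 1 := ⟨d - 1, by omega⟩
    rw [Nat.add_sub_cancel, div_pow]
    push_cast
    field_simp
    ring
  have hden : ((A : ℚ) / (V : ℚ) * ((B : ℚ) / (V : ℚ)) ^ (d - 1)).den = V ^ d := by
    rw [ht]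
    have h1 : IsCoprime (A * B ^ (d - 1)) ((V ^ d : ℕ) : ℤ) := by
      push_cast
      exact (hcop.of_mul_left_left.mul_left hcop.of_mul_left_right.pow_left).pow_right
    have h2 := Rat.den_div_eq_of_coprime (a := A * B ^ (d - 1)) (b := ((V ^ d : ℕ) : ℤ))
      (by positivity) (Int.isCoprime_iff_gcd_eq_one.1 h1)
    exact_mod_cast h2
  ext p
  unfold exc
  rw [mem_filter, mem_filter, hden, Nat.primeFactors_pow _ hd0]
  have hval : p.Prime → padicValNat p (V ^ d) = d * padicValNat p V := by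
    intro hp
    have := Fact.mk hp
    rw [padicValNat.pow]
  constructor
  · rintro ⟨hp, hp2, hr, hC⟩
    refine ⟨hp, hp2, hr, fun hC' => hC ?_⟩
    rw [hval (Nat.prime_of_mem_primeFactors hp)]
    exact ⟨by rw [mul_comm 3 d]; exact Nat.mul_dvd_mul_left d hC'.1, hC'.2.1,
      Nat.mul_lt_mul_of_pos_left hC'.2.2 hd1⟩
  · rintro ⟨hp, hp2, hr, hC⟩
    refine ⟨hp, hp2, hr, fun hC' => hC ?_⟩
    rw [hval (Nat.prime_of_mem_primeFactors hp)] at hC'
    have h1 := hC'.1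
    rw [mul_comm 3 d] at h1
    exact ⟨Nat.dvd_of_mul_dvd_mul_left hd1 h1, hC'.2.1, Nat.lt_of_mul_lt_mul_left hC'.2.2⟩

/-! ### few exceptional primes for `2 ^ i x ^ d + c` -/

theorem three_primes {d p q r : ℕ} (h16 : d % 24 = 16) (hd : d < 19240) (hp : p.Prime)
    (hq : q.Prime) (hr : r.Prime) (hpd : p ∣ d) (hqd : q ∣ d) (hrd : r ∣ d) (p4 : p % 4 = 1)
    (q4 : q % 4 = 1) (r4 : r % 4 = 1) (p8 : 16 ∣ d → p % 8 = 1) (hpq : p < q) (hqr : q < r) :
    False := by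
  have n9 : ¬ Nat.Prime 9 := by norm_num
  have n21 : ¬ Nat.Prime 21 := by norm_num
  have n25 : ¬ Nat.Prime 25 := by norm_num
  have n33 : ¬ Nat.Prime 33 := by norm_num
  have c1 : Nat.Coprime 8 p := by
    have : Nat.Coprime (2 ^ 3) p := by
      apply Nat.Coprime.pow_left
      rw [Nat.coprime_primes Nat.prime_two hp]
      omega
    exact this
  have c2 : Nat.Coprime 8 q := by
    have : Nat.Coprime (2 ^ 3) q := by
      apply Nat.Coprime.pow_left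
      rw [Nat.coprime_primes Nat.prime_two hq]
      omega
    exact this
  have c3 : Nat.Coprime 8 r := by
    have : Nat.Coprime (2 ^ 3) r := by
      apply Nat.Coprime.pow_left
      rw [Nat.coprime_primes Nat.prime_two hr]
      omega
    exact this
  have cpq : Nat.Coprime p q := (Nat.coprime_primes hp hq).2 hpq.ne
  have cpr : Nat.Coprime p r := (Nat.coprime_primes hp hr).2 (hpq.trans hqr).ne
  have cqr : Nat.Coprime q r := (Nat.coprime_primes hq hr).2 hqr.ne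
  have h8 : 8 ∣ d := ⟨d / 8, by omega⟩
  have hdvd : 8 * p * q * r ∣ d :=
    ((c3.mul_left cpr).mul_left cqr).mul_dvd_of_dvd_of_dvd
      ((c2.mul_left cpq).mul_dvd_of_dvd_of_dvd (c1.mul_dvd_of_dvd_of_dvd h8 hpd) hqd) hrd
  obtain ⟨k, hk⟩ := hdvd
  have hd0 : 0 < d := by omega
  have hk0 : 0 < k := by
    rcases Nat.eq_zero_or_pos k with h | h
    · rw [h, mul_zero] at hk; omega
    · exact h
  have p5 : 5 ≤ p := by have := hp.two_le; omega
  have q13 : 13 ≤ q := by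
    by_contra hcon
    have : q = 9 := by omega
    exact n9 (this ▸ hq)
  have r17 : 17 ≤ r := by omega
  have hmul : 8 * p * q * r ≤ d := by rw [hk]; exact Nat.le_mul_of_pos_right _ hk0
  have hpe : p = 5 := by
    by_contra hcon
    have h13 : 13 ≤ p := by
      by_contra hcon'
      have : p = 9 := by omega
      exact n9 (this ▸ hp)
    have h17 : 17 ≤ q := by omega
    have h21 : 21 ≤ r := by omega
    have : 8 * 13 * 17 * 21 ≤ 8 * p * q * r := by gcongr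
    omega
  subst hpe
  have hqe : q = 13 := by
    by_contra hcon
    have h17 : 17 ≤ q := by omega
    have h29 : 29 ≤ r := by
      by_contra hcon'
      have : r = 21 ∨ r = 25 := by omega
      rcases this with h | h
      · exact n21 (h ▸ hr)
      · exact n25 (h ▸ hr)
    have : 8 * 5 * 17 * 29 ≤ 8 * 5 * q * r := by gcongr
    omega
  subst hqe
  have hre : r = 17 ∨ r = 29 := by
    have h37 : r < 37 := by omega
    have : r = 17 ∨ r = 21 ∨ r = 25 ∨ r = 29 ∨ r = 33 := by omega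
    rcases this with h | h | h | h | h
    · exact Or.inl h
    · exact absurd (h ▸ hr) n21
    · exact absurd (h ▸ hr) n25
    · exact Or.inr h
    · exact absurd (h ▸ hr) n33
  rcases hre with rfl | rfl
  · have hk3 : k < 3 := by omega
    have : k = 1 ∨ k = 2 := by omega
    rcases this with rfl | rfl
    · omega
    · have := p8 (by rw [hk]; norm_num)
      omega
  · have : k = 1 := by omega
    subst this
    omega

theorem excd_le_two {d : ℕ} (h16 : d % 24 = 16) (hd : d < 19240) : (excd d (d / 4)).card ≤ 2 := by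
  by_contra hcon
  obtain ⟨p, q, r, hp, hq, hr, hpq, hpr, hqr⟩ := two_lt_card_iff.1 (not_le.1 hcon)
  have key : ∀ p ∈ excd d (d / 4), p.Prime ∧ p ∣ d ∧ p % 4 = 1 ∧ (16 ∣ d → p % 8 = 1) := by
    intro p hp
    unfold excd at hp
    rw [mem_filter, Nat.mem_primeFactors] at hp
    obtain ⟨⟨h1, h2, h3⟩, h4, h5, -⟩ := hp
    refine ⟨h1, h2, ?_, fun h => ?_⟩
    · have h6 : 1 ≤ padicValNat 2 (d / 4) := one_le_padicValNat_of_dvd (by omega) (by omega)
      have h7 : 2 ^ 2 ∣ p - 1 := (Nat.pow_dvd_pow 2 (by omega)).trans h5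
      have := h1.two_le
      omega
    · have h6 : 2 ≤ padicValNat 2 (d / 4) :=
        (padicValNat_dvd_iff_le (by omega)).1 (by norm_num; omega)
      have h7 : 2 ^ 3 ∣ p - 1 := (Nat.pow_dvd_pow 2 (by omega)).trans h5
      have := h1.two_le
      omega
  obtain ⟨p1, p2, p3, p4⟩ := key p hp
  obtain ⟨q1, q2, q3, q4⟩ := key q hq
  obtain ⟨r1, r2, r3, r4⟩ := key r hr
  rcases lt_or_gt_of_ne hpq with h1 | h1 <;> rcases lt_or_gt_of_ne hpr with h2 | h2 <;>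
    rcases lt_or_gt_of_ne hqr with h3 | h3
  · exact three_primes h16 hd p1 q1 r1 p2 q2 r2 p3 q3 r3 p4 h1 h3
  · exact three_primes h16 hd p1 r1 q1 p2 r2 q2 p3 r3 q3 p4 h2 h3
  · omega
  · exact three_primes h16 hd r1 p1 q1 r2 p2 q2 r3 p3 q3 r4 h2 h1
  · exact three_primes h16 hd q1 p1 r1 q2 p2 r2 q3 p3 r3 q4 h1 h2
  · omega
  · exact three_primes h16 hd q1 r1 p1 q2 r2 p2 q3 r3 p3 q4 h3 h2
  · exact three_primes h16 hd r1 q1 p1 r2 q2 p2 r3 q3 p3 r4 h3 h1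

/-! ### the cube family -/

/-- the relevant odd primes dividing `d` -/
def relp (d m : ℕ) : Finset ℕ :=
  d.primeFactors.filter fun p => p ≠ 2 ∧ 2 ^ (padicValNat 2 m + 1) ∣ p - 1

/-- the cube family -/
def CubeF (d m : ℕ) (a c : ℚ) : Prop :=
  (3 ∣ d - 1 ∧ ∃ (i : ℤ) (r : ℚ), a = 2 ^ i * r ^ 3) ∨
    ∀ p : ℕ, p.Prime → p ≠ 2 → 2 ^ (padicValNat 2 m + 1) ∣ p - 1 →
      3 * d ∣ padicValNat p (a * c ^ (d - 1)).den

theorem CubeF.val {d m : ℕ} {a c : ℚ} (h : CubeF d m a c) (hd0 : d ≠ 0) (ha : a ≠ 0)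
    {OQ : Finset ℚ} {l : ℚ} {A B : ℤ} {V : ℕ} {O : Finset ℤ} {φ : ℤ → ℤ}
    (R : Red d a c OQ l A B V O φ) {p : ℕ} (hp : p.Prime) (hp2 : p ≠ 2) (hpV : p ∣ V)
    (hrel : Rel m p) : 3 ∣ padicValNat p V := by
  rcases h with ⟨h3, i, r, rfl⟩ | h
  · have hr : r ≠ 0 := by
      rintro rfl
      apply ha
      ring
    exact three_dvd_val h3 i hr R hp hp2 hpV
  · have h1 := h p hp hp2 hrel
    rw [R.val_t hd0 hp, mul_comm 3 d] at h1
    exact Nat.dvd_of_mul_dvd_mul_left (Nat.pos_of_ne_zero hd0) h1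

theorem CubeF.big {d m : ℕ} {a c : ℚ} (h : CubeF d m a c) (hd0 : d ≠ 0) (ha : a ≠ 0) :
    Big d m a c (relp d m) := by
  intro OQ l A B V O φ R p hp hp2 hpV hrel hC
  have hpd : p ∣ d := by
    by_contra hpd
    exact hC ⟨h.val hd0 ha R hp hp2 hpV hrel, fun h => absurd h hpd⟩
  exact mem_filter.2 ⟨Nat.mem_primeFactors.2 ⟨hp, hpd, hd0⟩, hp2, hrel⟩

theorem CubeF.hypS {d m : ℕ} {a c : ℚ} (h : CubeF d m a c) (hd0 : d ≠ 0) (ha : a ≠ 0)
    (hv : ∀ p ∈ relp d m, padicValNat p d ≤ 2) {p1 p2 : ℕ} (h2 : relp d m ⊆ {p1, p2}) :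
    HypS d m a c p1 p2 := by
  intro OQ l A B V O φ R
  have hmem : ∀ p : ℕ, p.Prime → p ≠ 2 → p ∣ d → Rel m p → p ∈ relp d m :=
    fun p hp hp2 hpd hrel => mem_filter.2 ⟨Nat.mem_primeFactors.2 ⟨hp, hpd, hd0⟩, hp2, hrel⟩
  refine ⟨fun p hp hp2 hpV hrel => ?_, fun p hp hp2 hpV hrel h3' => ?_⟩
  · have h3 := h.val hd0 ha R hp hp2 hpV hrel
    refine ⟨h3, ?_⟩
    have := Fact.mk hp
    have h6 : 1 ≤ padicValNat p V := one_le_padicValNat_of_dvd R.V0.ne' hpV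
    have h7 : padicValNat p d ≤ 2 := by
      by_cases hpd : p ∣ d
      · exact hv p (hmem p hp hp2 hpd hrel)
      · rw [padicValNat.eq_zero_of_not_dvd hpd]; norm_num
    have h8 := Nat.le_of_dvd h6 h3
    omega
  · have hpd : p ∣ d := by
      by_contra hpd
      apply h3'
      rw [padicValNat.eq_zero_of_not_dvd hpd]
      exact dvd_zero _
    simpa using h2 (hmem p hp hp2 hpd hrel)

/-- no relevant primes dividing `d` -/
theorem CubeF.cases {d m : ℕ} (hm : (4 ∣ d ∧ m = d / 4) ∨ (6 ∣ d ∧ m = d / 2)) {a c : ℚ}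
    (h : CubeF d m a c) (hd0 : d ≠ 0) (ha : a ≠ 0) (hE : relp d m = ∅) :
    AllC d a c ∨ (Str d m ∧ HypS d m a c 0 0) := by
  by_cases h2 : 2 ∣ m
  · right
    refine ⟨?_, h.hypS hd0 ha (by rw [hE]; simp) (by rw [hE]; exact empty_subset _)⟩
    rcases hm with ⟨⟨e, rfl⟩, rfl⟩ | ⟨⟨e, rfl⟩, rfl⟩
    · exact str_of_eight hd0 (by omega)
    · exact str_of_twelve hd0 (by omega)
  · left
    intro OQ l A B V O φ R p hp hp2 hpV
    have hrel := rel_of_odd h2 hp hp2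
    refine ⟨h.val hd0 ha R hp hp2 hpV hrel, fun hpd => ?_⟩
    have hmem : p ∈ relp d m := mem_filter.2
      ⟨Nat.mem_primeFactors.2 ⟨hp, hpd, hd0⟩, hp2, hrel⟩
    rw [hE] at hmem
    exact absurd hmem (by simp)

theorem cube_per {d m : ℕ} (hm : (4 ∣ d ∧ m = d / 4) ∨ (6 ∣ d ∧ m = d / 2)) {a c : ℚ}
    (h : CubeF d m a c) (hd0 : d ≠ 0) (ha : a ≠ 0) (hE : relp d m = ∅)
    (T : Finset ℚ) (hT : ∀ x ∈ T, x ∈ periodicPts (cen d a c)) : T.card ≤ 2 := by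
  have hb := h.big hd0 ha
  rw [hE] at hb
  rcases h.cases hm hd0 ha hE with h1 | ⟨hs, hH⟩
  · exact per_two (hm.imp And.left And.left) hd0 ha h1 T hT
  · rcases hs with ⟨e, he, h1, h2⟩ | ⟨e, he, h1, h2⟩
    · have h3 : m = d / 4 := by omega
      rw [h3] at hb
      have := per_A8 ⟨e, by rw [h1]; ring⟩ hd0 ha hb T hT
      rwa [prod_empty, max_eq_left (by norm_num)] at this
    · have h3 : m = d / 2 := by omega
      rw [h3] at hb
      have := per_B12 ⟨e, by rw [h1]; ring⟩ hd0 ha hb T hT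
      rwa [card_empty, pow_zero, max_eq_left (by norm_num)] at this

theorem cube_pre {d m : ℕ} (hm : (4 ∣ d ∧ m = d / 4) ∨ (6 ∣ d ∧ m = d / 2)) {a c : ℚ}
    (h : CubeF d m a c) (hd0 : d ≠ 0) (ha : a ≠ 0) (hE : relp d m = ∅)
    (T : Finset ℚ) (hT : ∀ x ∈ T, x ∈ preperiodicPts (cen d a c)) : T.card ≤ 4 := by
  rcases h.cases hm hd0 ha hE with h1 | ⟨hs, hH⟩
  · exact pre_four (hm.imp And.left And.left) hd0 ha h1 T hT
  · exact (s_three hs ha hH T hT).trans (by norm_num)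

theorem cube_shape {d m : ℕ} (hm : (4 ∣ d ∧ m = d / 4) ∨ (6 ∣ d ∧ m = d / 2)) {a c : ℚ}
    (h : CubeF d m a c) (hd0 : d ≠ 0) (ha : a ≠ 0) (hE : relp d m = ∅) : Shape d a c := by
  rcases h.cases hm hd0 ha hE with h1 | ⟨hs, hH⟩
  · exact pre_shape (hm.imp And.left And.left) hd0 ha h1
  · exact s_shape hs ha hH

theorem relp_pow_four (k m : ℕ) : relp (4 ^ k) m = ∅ := by
  rw [eq_empty_iff_forall_notMem]
  intro p hp
  unfold relp at hp
  rw [mem_filter, Nat.mem_primeFactors] at hp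
  obtain ⟨⟨h2, h3, -⟩, h1, -⟩ := hp
  have h4 : p ∣ 4 := h2.dvd_of_dvd_pow h3
  have h5 : p ∣ 2 ^ 2 := by norm_num; exact h4
  exact h1 ((Nat.prime_dvd_prime_iff_eq h2 Nat.prime_two).1 (h2.dvd_of_dvd_pow h5))

theorem three_dvd_pow_four (k : ℕ) : 3 ∣ 4 ^ k - 1 := by
  have := Nat.sub_one_dvd_pow_sub_one 4 k
  simpa using this

theorem card_le_one_pair {S : Finset ℕ} (h : S.card ≤ 1) : ∃ p : ℕ, S ⊆ {p, p} := by
  rcases Nat.le_one_iff_eq_zero_or_eq_one.1 h with h1 | h1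
  · rw [card_eq_zero] at h1
    exact ⟨0, by rw [h1]; exact empty_subset _⟩
  · obtain ⟨p, rfl⟩ := card_eq_one.1 h1
    exact ⟨p, by simp⟩

theorem wk_of {d m : ℕ} (hd0 : d ≠ 0) (hm : (4 ∣ d ∧ m = d / 4) ∨ (6 ∣ d ∧ m = d / 2)) :
    Wk d m := by
  rcases hm with ⟨⟨e, rfl⟩, rfl⟩ | ⟨⟨e, rfl⟩, rfl⟩
  · exact Or.inl ⟨e, by omega, rfl, by omega⟩
  · exact Or.inr ⟨e, by omega, rfl, by omega⟩

theorem str_of {d m : ℕ} (hd0 : d ≠ 0) (hm : (8 ∣ d ∧ m = d / 4) ∨ (12 ∣ d ∧ m = d / 2)) :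
    Str d m := by
  rcases hm with ⟨h, rfl⟩ | ⟨h, rfl⟩
  · exact str_of_eight hd0 h
  · exact str_of_twelve hd0 h

/-! ### the example -/

theorem ex_per : ∀ x : ℚ, x = -13 / 10 ∨ x = 9 / 10 →
    x ∈ periodicPts (cen 4 1 (-19561 / 10000)) := by
  intro x hx
  refine ⟨2, by norm_num, ?_⟩
  rw [Function.iterate_succ_apply', Function.iterate_one]
  unfold cen
  rcases hx with rfl | rfl <;> norm_num

theorem ex_pre : ∀ x : ℚ, x = -13 / 10 ∨ x = 9 / 10 ∨ x = 13 / 10 ∨ x = -9 / 10 →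
    x ∈ preperiodicPts (cen 4 1 (-19561 / 10000)) := by
  intro x hx
  refine ⟨1, 3, by norm_num, ?_⟩
  have h3 : (cen 4 1 (-19561 / 10000))^[3] x = cen 4 1 (-19561 / 10000)
    (cen 4 1 (-19561 / 10000) (cen 4 1 (-19561 / 10000) x)) := rfl
  rw [Function.iterate_one, h3]
  unfold cen
  rcases hx with rfl | rfl | rfl | rfl <;> norm_num

end Pool.Agent.W2helper83.UC
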