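import Pool.Agent.W2helper83.UC.Pairs

/-!
# The number of periodic points
-/

set_option autoImplicit false

namespace Pool.Agent.W2helper83.UC

open Finset Pool.Agent.T6.H62.UB

section

variable {d : ℕ} {A B : ℤ} {V : ℕ} {O : Finset ℤ} {φ : ℤ → ℤ}

/-- the primes which matter for the factor `u ^ m + w ^ m` -/
def Rel (m p : ℕ) : Prop := 2 ^ (padicValNat 2 m + 1) ∣ p - 1

/-- `S` contains the exceptional primes and consists of primes dividing `V` -/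
structure Exc (d m V : ℕ) (S : Finset ℕ) : Prop where
  prime : ∀ p ∈ S, p.Prime
  dvd : ∀ p ∈ S, p ∣ V
  cond : ∀ p : ℕ, p.Prime → p ≠ 2 → p ∣ V → Rel m p → ¬ Cond d V p → p ∈ S

theorem Exc.eq_empty {m : ℕ} {S : Finset ℕ} (hS : Exc d m 1 S) : S = ∅ := by
  rw [eq_empty_iff_forall_notMem]
  intro p hp
  exact (hS.prime p hp).one_lt.ne' (Nat.dvd_one.1 (hS.dvd p hp))

theorem V_one (h : Sys d A B V O φ) (hd0 : d ≠ 0) (hV : 0 < V) (h0 : (0 : ℤ) ∈ O) : V = 1 := by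
  have h1 := cop_V h hd0 hV h0
  rw [isCoprime_zero_left, Int.isUnit_iff] at h1
  omega

/-- four divides `x ^ (2 m) - y ^ (2 m)` for odd `x`, `y` -/
theorem four_dvd_of_odd {x y : ℤ} (hx : ¬ (2 : ℤ) ∣ x) (hy : ¬ (2 : ℤ) ∣ y) (m : ℕ) :
    (4 : ℤ) ∣ x ^ (2 * m) - y ^ (2 * m) := by
  have h1 : (4 : ℤ) ∣ x ^ 2 - y ^ 2 := by
    obtain ⟨i, hi⟩ : ∃ i, x = 2 * i + 1 := ⟨x / 2, by omega⟩
    obtain ⟨j, hj⟩ : ∃ j, y = 2 * j + 1 := ⟨y / 2, by omega⟩
    exact ⟨i ^ 2 + i - j ^ 2 - j, by rw [hi, hj]; ring⟩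
  rw [pow_mul, pow_mul]
  exact h1.trans (sub_dvd_pow_sub_pow _ _ m)

theorem four_dvd_of_mod {x y : ℤ} (h : x % 4 = y % 4) (m : ℕ) : (4 : ℤ) ∣ x ^ m - y ^ m :=
  (show (4 : ℤ) ∣ x - y by omega).trans (sub_dvd_pow_sub_pow _ _ m)

/-- the hypothesis of the lemmas on pairs -/
theorem hS_of {a m : ℕ} (h : Sys d A B V O φ) (hA : A ≠ 0) (hV : 0 < V) (hm : m ≠ 0)
    (hd : d = 2 ^ a * m) {S : Finset ℕ} (hE : Exc d m V S) {u w : ℤ} (hu : u ∈ O) (hw : w ∈ O)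
    (pu : Per φ u) (pw : Per φ w) (hne : u ≠ w) (hS : ∀ p ∈ S, (p : ℤ) ∣ u ^ m - w ^ m) :
    ∀ p : ℕ, p.Prime → p ≠ 2 → p ∣ V →
      3 ∣ padicValInt p (u ^ d - w ^ d) ∨ (p : ℤ) ∣ u ^ m - w ^ m := by
  intro p hp hp2 hpV
  have hd0 : d ≠ 0 := by rw [hd]; exact mul_ne_zero (by positivity) hm
  by_cases hr : Rel m p
  · by_cases hC : Cond d V p
    · exact Or.inl (val_pow_sub_dvd h hA hd0 hV hp hp2 hpV hC hu hw (per_NM pu pw hne))
    · exact Or.inr (hS p (hE.cond p hp hp2 hpV hr hC))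
  · have h1 := dvd_pow_sub h hp hpV hu hw
    rw [hd] at h1
    exact Or.inr (irrelevant hp hm h1 (h.not_dvd hd0 hp hpV hw) hr)

/-- the strong counting argument -/
theorem strong_count (h : Sys d A B V O φ) (hd0 : d ≠ 0) (hV : 0 < V) {S : Finset ℕ} {k m : ℕ}
    (hS : Exc d m V S) (hk : 0 < k) (hd : d = k * m) (P : Finset ℤ) (hP : P ⊆ O)
    (hpair : ∀ x ∈ P, ∀ y ∈ P, x ≠ y → (∀ p ∈ S, (p : ℤ) ∣ x ^ m - y ^ m) → x = 0 ∨ y = 0) :
    P.card ≤ max 2 (∏ p ∈ S, Nat.gcd k (p - 1)) := by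
  by_cases h0 : (0 : ℤ) ∈ P
  · have hV1 := V_one h hd0 hV (hP h0)
    subst hV1
    have hSe := hS.eq_empty
    subst hSe
    have h1 : (P.erase 0).card ≤ 1 := by
      rw [card_le_one]
      intro x hx y hy
      rw [mem_erase] at hx hy
      by_contra hne
      rcases hpair x hx.2 y hy.2 hne (by simp) with h2 | h2
      · exact hx.1 h2
      · exact hy.1 h2
    have h2 := card_erase_add_one h0
    have h3 : P.card ≤ 2 := by omega
    exact h3.trans (le_max_left _ _)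
  · have h1 := pigeon P S (fun _ => 0) (fun p u => ((u ^ m : ℤ) : ZMod p).val) 1
      (fun p => Nat.gcd k (p - 1)) (by
        apply (card_le_card (t := {0}) _).trans (by simp)
        intro z hz
        rw [mem_image] at hz
        obtain ⟨u, -, rfl⟩ := hz
        simp) (fun p hp => image_classes h hk hd (hS.prime p hp) (hS.dvd p hp) P hP) (by
        intro x hx y hy _ hxy
        by_contra hne
        rcases hpair x hx y hy hne (fun p hp => dvd_of_val (hS.prime p hp) (hxy p hp)) with h2 | h2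
        · exact h0 (h2 ▸ hx)
        · exact h0 (h2 ▸ hy))
    rw [one_mul] at h1
    exact h1.trans (le_max_right _ _)

theorem card_A {e : ℕ} (h : Sys (4 * e) A B V O φ) (he : 0 < e) (hA : A ≠ 0) (hV : 0 < V)
    {S : Finset ℕ} (hS : Exc (4 * e) e V S) (P : Finset ℤ) (hP : P ⊆ O) (hPp : ∀ x ∈ P, Per φ x) :
    P.card ≤ 2 * ∏ p ∈ S, Nat.gcd 4 (p - 1) := by
  by_cases hV2 : 2 ∣ V
  · apply pigeon P S (fun u => u % 4) (fun p u => ((u ^ e : ℤ) : ZMod p).val) 2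
      (fun p => Nat.gcd 4 (p - 1))
      (image_mod4 P fun u hu => odd_of_even_V h (by omega) hV2 (hP hu))
      (fun p hp => image_classes h (by norm_num) rfl (hS.prime p hp) (hS.dvd p hp) P hP)
    intro x hx y hy hκ hxy
    by_contra hne
    apply A_even h he hA hV hV2 (hP hx) (hP hy) (hPp x hx) (hPp y hy) hne
    · exact hS_of (a := 2) h hA hV he.ne' rfl hS (hP hx) (hP hy) (hPp x hx) (hPp y hy) hne
        (fun p hp => dvd_of_val (hS.prime p hp) (hxy p hp))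
    · exact four_dvd_of_mod hκ e
  · apply pigeon P S (fun u => u % 2) (fun p u => ((u ^ e : ℤ) : ZMod p).val) 2
      (fun p => Nat.gcd 4 (p - 1)) (image_parity P)
      (fun p hp => image_classes h (by norm_num) rfl (hS.prime p hp) (hS.dvd p hp) P hP)
    intro x hx y hy hκ _
    by_contra hne
    apply odd_sum h ⟨2 * e, by ring⟩ hA hV hV2 (hP hx) (hP hy) (hPp x hx) (hPp y hy) hne
    have hκ' : x % 2 = y % 2 := hκ
    omega

/-- pairs for exponents divisible by eight -/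
theorem pair8 {e : ℕ} (h : Sys (4 * (2 * e)) A B V O φ) (he : 0 < e) (hA : A ≠ 0) (hV : 0 < V)
    {u w : ℤ} (hu : u ∈ O) (hw : w ∈ O) (pu : Per φ u) (pw : Per φ w) (hne : u ≠ w)
    (hS : ∀ p : ℕ, p.Prime → p ≠ 2 → p ∣ V →
      3 ∣ padicValInt p (u ^ (4 * (2 * e)) - w ^ (4 * (2 * e))) ∨
        (p : ℤ) ∣ u ^ (2 * e) - w ^ (2 * e)) : u = 0 ∨ w = 0 := by
  by_cases hV2 : 2 ∣ V
  · exfalso
    exact A_even h (by omega) hA hV hV2 hu hw pu pw hne hS (four_dvd_of_odd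
      (odd_of_even_V h (by omega) hV2 hu) (odd_of_even_V h (by omega) hV2 hw) e)
  · exact A_odd8 h he hA hV hV2 hu hw pu pw hne hS

/-- pairs for exponents divisible by twelve -/
theorem pair12 {e : ℕ} (h : Sys (6 * (2 * e)) A B V O φ) (he : 0 < e) (hA : A ≠ 0) (hV : 0 < V)
    {u w : ℤ} (hu : u ∈ O) (hw : w ∈ O) (pu : Per φ u) (pw : Per φ w) (hne : u ≠ w)
    (hS : ∀ p : ℕ, p.Prime → p ≠ 2 → p ∣ V →
      3 ∣ padicValInt p (u ^ (6 * (2 * e)) - w ^ (6 * (2 * e))) ∨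
        (p : ℤ) ∣ u ^ (3 * (2 * e)) - w ^ (3 * (2 * e))) : u = 0 ∨ w = 0 := by
  by_cases hV2 : 2 ∣ V
  · exfalso
    refine B_even h (by omega) hA hV hV2 hu hw pu pw hne hS ?_
    have := four_dvd_of_odd
      (odd_of_even_V h (by omega) hV2 hu) (odd_of_even_V h (by omega) hV2 hw) (3 * e)
    rw [show 2 * (3 * e) = 3 * (2 * e) by ring] at this
    exact this
  · exact B_odd h (by omega) hA hV hV2 hu hw pu pw hne hS

/-- the strong exponents: `8 ∣ d`, `m = d / 4`, or `12 ∣ d`, `m = d / 2` -/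
def Str (d m : ℕ) : Prop :=
  (∃ e : ℕ, 0 < e ∧ d = 4 * (2 * e) ∧ m = 2 * e) ∨
    (∃ e : ℕ, 0 < e ∧ d = 6 * (2 * e) ∧ m = 3 * (2 * e))

theorem Str.m0 {m : ℕ} (hs : Str d m) : m ≠ 0 := by
  rcases hs with ⟨e, he, -, rfl⟩ | ⟨e, he, -, rfl⟩ <;> omega

theorem Str.pow {m : ℕ} (hs : Str d m) : ∃ a : ℕ, d = 2 ^ a * m := by
  rcases hs with ⟨e, he, rfl, rfl⟩ | ⟨e, he, rfl, rfl⟩
  · exact ⟨2, rfl⟩
  · exact ⟨1, by ring⟩

theorem Str.d0 {m : ℕ} (hs : Str d m) : d ≠ 0 := by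
  rcases hs with ⟨e, he, rfl, -⟩ | ⟨e, he, rfl, -⟩ <;> omega

theorem Str.four {m : ℕ} (hs : Str d m) : 4 ∣ d := by
  rcases hs with ⟨e, he, rfl, -⟩ | ⟨e, he, rfl, -⟩
  · exact ⟨2 * e, rfl⟩
  · exact ⟨3 * e, by ring⟩

theorem strong_pair {m : ℕ} (hs : Str d m) (h : Sys d A B V O φ) (hA : A ≠ 0) (hV : 0 < V)
    {u w : ℤ} (hu : u ∈ O) (hw : w ∈ O) (pu : Per φ u) (pw : Per φ w) (hne : u ≠ w)
    (hS : ∀ p : ℕ, p.Prime → p ≠ 2 → p ∣ V →
      3 ∣ padicValInt p (u ^ d - w ^ d) ∨ (p : ℤ) ∣ u ^ m - w ^ m) : u = 0 ∨ w = 0 := by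
  rcases hs with ⟨e, he, rfl, rfl⟩ | ⟨e, he, rfl, rfl⟩
  · exact pair8 h he hA hV hu hw pu pw hne hS
  · exact pair12 h he hA hV hu hw pu pw hne hS

theorem card_A8 {e : ℕ} (h : Sys (4 * (2 * e)) A B V O φ) (he : 0 < e) (hA : A ≠ 0) (hV : 0 < V)
    {S : Finset ℕ} (hS : Exc (4 * (2 * e)) (2 * e) V S) (P : Finset ℤ) (hP : P ⊆ O)
    (hPp : ∀ x ∈ P, Per φ x) :
    P.card ≤ max 2 (∏ p ∈ S, Nat.gcd 4 (p - 1)) := by
  apply strong_count h (by omega) hV hS (by norm_num) rfl P hP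
  intro x hx y hy hne hxy
  exact pair8 h he hA hV (hP hx) (hP hy) (hPp x hx) (hPp y hy) hne
    (hS_of (a := 2) h hA hV (by omega) rfl hS (hP hx) (hP hy) (hPp x hx) (hPp y hy) hne hxy)

theorem prod_le_two (S : Finset ℕ) : ∏ p ∈ S, Nat.gcd 2 (p - 1) ≤ 2 ^ S.card := by
  rw [← prod_const]
  exact prod_le_prod' fun p _ => Nat.gcd_le_left _ (by norm_num)

theorem card_B {e : ℕ} (h : Sys (6 * e) A B V O φ) (he : 0 < e) (hA : A ≠ 0) (hV : 0 < V)
    {S : Finset ℕ} (hS : Exc (6 * e) (3 * e) V S) (P : Finset ℤ) (hP : P ⊆ O)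
    (hPp : ∀ x ∈ P, Per φ x) :
    P.card ≤ 2 * 2 ^ S.card := by
  have hd : 6 * e = 2 * (3 * e) := by ring
  have hd' : 6 * e = 2 ^ 1 * (3 * e) := by ring
  by_cases hV2 : 2 ∣ V
  · refine le_trans ?_ (Nat.mul_le_mul_left 2 (prod_le_two S))
    apply pigeon P S (fun u => u % 4) (fun p u => ((u ^ (3 * e) : ℤ) : ZMod p).val) 2
      (fun p => Nat.gcd 2 (p - 1))
      (image_mod4 P fun u hu => odd_of_even_V h (by omega) hV2 (hP hu))
      (fun p hp => image_classes h (by norm_num) hd (hS.prime p hp) (hS.dvd p hp) P hP)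
    intro x hx y hy hκ hxy
    by_contra hne
    apply B_even h he hA hV hV2 (hP hx) (hP hy) (hPp x hx) (hPp y hy) hne
    · exact hS_of (a := 1) h hA hV (by omega) hd' hS (hP hx) (hP hy) (hPp x hx) (hPp y hy) hne
        (fun p hp => dvd_of_val (hS.prime p hp) (hxy p hp))
    · exact four_dvd_of_mod hκ (3 * e)
  · have h1 := strong_count h (by omega) hV hS (by norm_num) hd P hP (by
      intro x hx y hy hne hxy
      exact B_odd h he hA hV hV2 (hP hx) (hP hy) (hPp x hx) (hPp y hy) hne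
        (hS_of (a := 1) h hA hV (by omega) hd' hS (hP hx) (hP hy) (hPp x hx) (hPp y hy) hne hxy))
    refine h1.trans (max_le ?_ ?_)
    · have : 1 ≤ 2 ^ S.card := Nat.one_le_two_pow
      omega
    · have := prod_le_two S
      omega

theorem card_B12 {e : ℕ} (h : Sys (6 * (2 * e)) A B V O φ) (he : 0 < e) (hA : A ≠ 0) (hV : 0 < V)
    {S : Finset ℕ} (hS : Exc (6 * (2 * e)) (3 * (2 * e)) V S) (P : Finset ℤ) (hP : P ⊆ O)
    (hPp : ∀ x ∈ P, Per φ x) :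
    P.card ≤ max 2 (2 ^ S.card) := by
  refine (strong_count h (by omega) hV hS (k := 2) (by norm_num) (by ring) P hP
    ?_).trans (max_le_max le_rfl (prod_le_two S))
  intro x hx y hy hne hxy
  exact pair12 h he hA hV (hP hx) (hP hy) (hPp x hx) (hPp y hy) hne
    (hS_of (a := 1) h hA hV (by omega) (by ring) hS (hP hx) (hP hy) (hPp x hx) (hPp y hy) hne hxy)

/-- pairs without exceptional primes -/
theorem strong_pair_cond (hd : 8 ∣ d ∨ 12 ∣ d) (hd0 : d ≠ 0) (h : Sys d A B V O φ) (hA : A ≠ 0)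
    (hV : 0 < V) (hC : ∀ p : ℕ, p.Prime → p ≠ 2 → p ∣ V → Cond d V p)
    {u w : ℤ} (hu : u ∈ O) (hw : w ∈ O) (pu : Per φ u) (pw : Per φ w) (hne : u ≠ w) :
    u = 0 ∨ w = 0 := by
  have hS : ∀ p : ℕ, p.Prime → p ≠ 2 → p ∣ V → 3 ∣ padicValInt p (u ^ d - w ^ d) :=
    fun p hp hp2 hpV => val_pow_sub_dvd h hA hd0 hV hp hp2 hpV (hC p hp hp2 hpV) hu hw
      (per_NM pu pw hne)
  rcases hd with ⟨e, rfl⟩ | ⟨e, rfl⟩
  · exact strong_pair (m := 2 * e) (Or.inl ⟨e, by omega, by ring, rfl⟩) h hA hV hu hw pu pw hne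
      (fun p hp hp2 hpV => Or.inl (hS p hp hp2 hpV))
  · exact strong_pair (m := 3 * (2 * e)) (Or.inr ⟨e, by omega, by ring, rfl⟩) h hA hV hu hw pu pw
      hne (fun p hp hp2 hpV => Or.inl (hS p hp hp2 hpV))

/-- without exceptional primes there are at most two periodic points -/
theorem card_two (hd : 4 ∣ d ∨ 6 ∣ d) (hd0 : d ≠ 0) (h : Sys d A B V O φ) (hA : A ≠ 0)
    (hV : 0 < V) (hC : ∀ p : ℕ, p.Prime → p ≠ 2 → p ∣ V → Cond d V p)
    (P : Finset ℤ) (hP : P ⊆ O) (hPp : ∀ x ∈ P, Per φ x) : P.card ≤ 2 := by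
  have hS : ∀ m, Exc d m V ∅ := fun m =>
    ⟨by simp, by simp, fun p hp hp2 hpV _ hn => absurd (hC p hp hp2 hpV) hn⟩
  rcases hd with ⟨e, rfl⟩ | ⟨e, rfl⟩
  · simpa using card_A h (by omega) hA hV (hS _) P hP hPp
  · simpa using card_B h (by omega) hA hV (hS _) P hP hPp

end

end Pool.Agent.W2helper83.UC
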