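import Pool.Agent.W2helper83.UC.Cubic

/-!
# `σ⁴ - θ⁴` with all odd valuations divisible by three
-/

set_option autoImplicit false

namespace Pool.Agent.W2helper83.UC

theorem nat_cube {m : ℕ} (hm : m ≠ 0) (h : ∀ p : ℕ, 3 ∣ m.factorization p) :
    ∃ t : ℕ, m = t ^ 3 := by
  refine ⟨m.factorization.prod fun p k => p ^ (k / 3), ?_⟩
  rw [Finsupp.prod, ← Finset.prod_pow]
  conv_lhs => rw [← Nat.prod_factorization_pow_eq_self hm]
  rw [Finsupp.prod]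
  apply Finset.prod_congr rfl
  intro p _
  rw [← pow_mul, Nat.div_mul_cancel (h p)]

theorem cube_of_val {n : ℤ} (hn : n ≠ 0) (h : ∀ p : ℕ, p.Prime → 3 ∣ padicValInt p n) :
    ∃ t : ℤ, n = t ^ 3 := by
  obtain ⟨t, ht⟩ := nat_cube (m := n.natAbs) (by omega) (by
    intro p
    by_cases hp : p.Prime
    · rw [Nat.factorization_def _ hp]
      exact h p hp
    · rw [Nat.factorization_eq_zero_of_not_prime _ hp]
      exact dvd_zero _)
  rcases Int.natAbs_eq n with h1 | h1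
  · exact ⟨t, by rw [h1, ht]; push_cast; rfl⟩
  · exact ⟨-t, by rw [h1, ht]; push_cast; ring⟩

theorem val_two_mul {p : ℕ} (hp : p.Prime) (h2 : p ≠ 2) {s : ℤ} (hs : s ≠ 0) :
    padicValInt p (2 * s) = padicValInt p s := by
  have := Fact.mk hp
  rw [padicValInt.mul (by norm_num) hs, padicValInt.eq_zero_of_not_dvd, zero_add]
  intro h
  have h1 : p ∣ 2 := by exact_mod_cast h
  exact h2 ((Nat.prime_dvd_prime_iff_eq hp Nat.prime_two).1 h1)

theorem cube_of_val_odd {s : ℤ} (hs : ¬ (2 : ℤ) ∣ s)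
    (h : ∀ p : ℕ, p.Prime → p ≠ 2 → 3 ∣ padicValInt p s) : ∃ t : ℤ, s = t ^ 3 := by
  have hs0 : s ≠ 0 := by rintro rfl; exact hs (dvd_zero _)
  apply cube_of_val hs0
  intro p hp
  by_cases h2 : p = 2
  · subst h2
    rw [padicValInt.eq_zero_of_not_dvd (by exact_mod_cast hs)]
    exact dvd_zero _
  · exact h p hp h2

theorem assoc_two {z : ℤ} (hz : Prime z) (h : z ∣ 2) : (2 : ℤ) ∣ z :=
  (hz.associated_of_dvd Int.prime_two h).symm.dvd

theorem pairE {σ θ : ℤ} (hc : IsCoprime σ θ) (h4 : (4 : ℤ) ∣ σ - θ) (hodd : ¬ (2 : ℤ) ∣ σ)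
    (h1 : ∀ p : ℕ, p.Prime → p ≠ 2 → 3 ∣ padicValInt p (σ + θ))
    (h2 : ∀ p : ℕ, p.Prime → p ≠ 2 → 3 ∣ padicValInt p (σ ^ 2 + θ ^ 2)) : σ = θ := by
  obtain ⟨k, hk⟩ := h4
  obtain ⟨i, hi⟩ : ∃ i, σ = 2 * i + 1 := ⟨σ / 2, by omega⟩
  have hθ : θ = 2 * i + 1 - 4 * k := by rw [← hi]; linarith
  obtain ⟨s, hs, hs2⟩ : ∃ s, σ + θ = 2 * s ∧ ¬ (2 : ℤ) ∣ s :=
    ⟨2 * i + 1 - 2 * k, by rw [hθ, hi]; ring, by omega⟩
  obtain ⟨r, hr, hr2⟩ : ∃ r, σ ^ 2 + θ ^ 2 = 2 * r ∧ ¬ (2 : ℤ) ∣ r :=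
    ⟨2 * (2 * i ^ 2 + 2 * i - 4 * i * k - 2 * k + 4 * k ^ 2) + 1, by rw [hθ, hi]; ring, by omega⟩
  have hs0 : s ≠ 0 := by rintro rfl; exact hs2 (dvd_zero _)
  have hr0 : r ≠ 0 := by rintro rfl; exact hr2 (dvd_zero _)
  obtain ⟨A, hA⟩ := cube_of_val_odd hs2 (fun p hp hp2 => by
    rw [← val_two_mul hp hp2 hs0, ← hs]; exact h1 p hp hp2)
  obtain ⟨B, hB⟩ := cube_of_val_odd hr2 (fun p hp hp2 => by
    rw [← val_two_mul hp hp2 hr0, ← hr]; exact h2 p hp hp2)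
  have hA0 : A ≠ 0 := by rintro rfl; apply hs0; rw [hA]; norm_num
  have hB0 : B ≠ 0 := by rintro rfl; apply hr0; rw [hB]; norm_num
  have hcAB : IsCoprime A B := by
    apply cop_of _ hB0
    intro z hz hzA hzB
    have e1 : z ∣ s := by rw [hA]; exact dvd_pow hzA (by norm_num)
    have e2 : z ∣ σ + θ := by rw [hs]; exact Dvd.dvd.mul_left e1 2
    have e3 : z ∣ σ ^ 2 + θ ^ 2 := by
      rw [hr, hB]; exact Dvd.dvd.mul_left (dvd_pow hzB (by norm_num)) 2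
    have e4 : z ∣ 2 * (σ * θ) := by
      have : 2 * (σ * θ) = (σ + θ) * (σ + θ) - (σ ^ 2 + θ ^ 2) := by ring
      rw [this]
      exact dvd_sub (Dvd.dvd.mul_right e2 _) e3
    have e5 : ¬ z ∣ 2 := fun h => hs2 ((assoc_two hz h).trans e1)
    rcases hz.dvd_or_dvd e4 with h | h
    · exact e5 h
    · rcases hz.dvd_or_dvd h with h | h
      · exact hz.not_isUnit (hc.isUnit_of_dvd' h ((dvd_add_right h).1 e2))
      · exact hz.not_isUnit (hc.isUnit_of_dvd' ((dvd_add_left h).1 e2) h)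
  have hE := sq_eq_cube_sub (y := 2 * k) hcAB hA0 (by
    have e1 : (2 * k) ^ 2 = r - s ^ 2 := by
      have : 2 * (2 * r) - (2 * s) ^ 2 = (4 * k) ^ 2 := by
        rw [← hr, ← hs, ← hk]; ring
      linarith
    rw [e1, hA, hB]; ring)
  have hk0 : k = 0 := by omega
  rw [hk0] at hk
  linarith

/-- **The main arithmetic lemma.** -/
theorem quart {σ θ : ℤ} (hc : IsCoprime σ θ)
    (h : ∀ p : ℕ, p.Prime → p ≠ 2 → 3 ∣ padicValInt p (σ ^ 4 - θ ^ 4)) :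
    σ ^ 4 = θ ^ 4 ∨ σ = 0 ∨ θ = 0 := by
  by_contra hcon
  push Not at hcon
  obtain ⟨hne, hσ, hθ⟩ := hcon
  have hfac : σ ^ 4 - θ ^ 4 = (σ - θ) * (σ + θ) * (σ ^ 2 + θ ^ 2) := by ring
  have h1 : σ - θ ≠ 0 := by
    intro h0; apply hne; rw [sub_eq_zero.1 h0]
  have h2 : σ + θ ≠ 0 := by
    intro h0; apply hne; rw [eq_neg_of_add_eq_zero_left h0]; ring
  have h3 : σ ^ 2 + θ ^ 2 ≠ 0 := by positivity
  have hnc : ∀ p : ℕ, p.Prime → (p : ℤ) ∣ σ → ¬ (p : ℤ) ∣ θ := fun p hp e1 e2 =>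
    (Nat.prime_iff_prime_int.1 hp).not_isUnit (hc.isUnit_of_dvd' e1 e2)
  have hn2 : ∀ p : ℕ, p.Prime → p ≠ 2 → ¬ (p : ℤ) ∣ 2 := by
    intro p hp hp2 hd
    exact hp2 ((Nat.prime_dvd_prime_iff_eq hp Nat.prime_two).1 (by exact_mod_cast hd))
  -- pairwise coprime at odd primes
  have n12 : ∀ p : ℕ, p.Prime → p ≠ 2 → (p : ℤ) ∣ σ - θ → ¬ (p : ℤ) ∣ σ + θ := by
    intro p hp hp2 e1 e2
    have hpi := Nat.prime_iff_prime_int.1 hp
    have e3 : (p : ℤ) ∣ 2 * σ := by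
      have := dvd_add e1 e2
      ring_nf at this ⊢
      exact this
    have e4 : (p : ℤ) ∣ 2 * θ := by
      have := dvd_sub e2 e1
      ring_nf at this ⊢
      exact this
    exact hnc p hp ((hpi.dvd_or_dvd e3).resolve_left (hn2 p hp hp2))
      ((hpi.dvd_or_dvd e4).resolve_left (hn2 p hp hp2))
  have n3 : ∀ p : ℕ, p.Prime → p ≠ 2 → (p : ℤ) ∣ σ ^ 2 + θ ^ 2 →
      ¬ (p : ℤ) ∣ (σ - θ) * (σ + θ) := by
    intro p hp hp2 e1 e2
    have hpi := Nat.prime_iff_prime_int.1 hp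
    have e3 : (p : ℤ) ∣ 2 * σ ^ 2 := by
      have := dvd_add e1 e2
      ring_nf at this ⊢
      exact this
    have e4 : (p : ℤ) ∣ 2 * θ ^ 2 := by
      have := dvd_sub e1 e2
      ring_nf at this ⊢
      exact this
    exact hnc p hp (hpi.dvd_of_dvd_pow ((hpi.dvd_or_dvd e3).resolve_left (hn2 p hp hp2)))
      (hpi.dvd_of_dvd_pow ((hpi.dvd_or_dvd e4).resolve_left (hn2 p hp hp2)))
  have hv : ∀ p : ℕ, p.Prime → p ≠ 2 → 3 ∣ padicValInt p (σ - θ) ∧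
      3 ∣ padicValInt p (σ + θ) ∧ 3 ∣ padicValInt p (σ ^ 2 + θ ^ 2) := by
    intro p hp hp2
    have := Fact.mk hp
    have e1 := h p hp hp2
    rw [hfac, padicValInt.mul (mul_ne_zero h1 h2) h3, padicValInt.mul h1 h2] at e1
    by_cases d3 : (p : ℤ) ∣ σ ^ 2 + θ ^ 2
    · have d12 := n3 p hp hp2 d3
      have d1 : ¬ (p : ℤ) ∣ σ - θ := fun hh => d12 (Dvd.dvd.mul_right hh _)
      have d2 : ¬ (p : ℤ) ∣ σ + θ := fun hh => d12 (Dvd.dvd.mul_left hh _)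
      rw [padicValInt.eq_zero_of_not_dvd d1, padicValInt.eq_zero_of_not_dvd d2] at e1
      rw [padicValInt.eq_zero_of_not_dvd d1, padicValInt.eq_zero_of_not_dvd d2]
      exact ⟨dvd_zero _, dvd_zero _, by simpa using e1⟩
    · rw [padicValInt.eq_zero_of_not_dvd d3] at e1
      rw [padicValInt.eq_zero_of_not_dvd d3]
      by_cases d1 : (p : ℤ) ∣ σ - θ
      · have d2 := n12 p hp hp2 d1
        rw [padicValInt.eq_zero_of_not_dvd d2] at e1
        rw [padicValInt.eq_zero_of_not_dvd d2]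
        exact ⟨by simpa using e1, dvd_zero _, dvd_zero _⟩
      · rw [padicValInt.eq_zero_of_not_dvd d1] at e1
        rw [padicValInt.eq_zero_of_not_dvd d1]
        exact ⟨dvd_zero _, by simpa using e1, dvd_zero _⟩
  by_cases oσ : (2 : ℤ) ∣ σ
  all_goals by_cases oθ : (2 : ℤ) ∣ θ
  · exact Int.prime_two.not_isUnit (hc.isUnit_of_dvd' oσ oθ)
  rotate_left 2
  · -- both odd
    have h4 : (4 : ℤ) ∣ σ - θ ∨ (4 : ℤ) ∣ σ + θ := by omega
    rcases h4 with h4 | h4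
    · exact h1 (sub_eq_zero.2 (pairE hc h4 oσ (fun p hp hp2 => (hv p hp hp2).2.1)
        (fun p hp hp2 => (hv p hp hp2).2.2)))
    · have e := pairE (σ := σ) (θ := -θ) hc.neg_right (by rwa [sub_neg_eq_add]) oσ
        (fun p hp hp2 => by rw [← sub_eq_add_neg]; exact (hv p hp hp2).1)
        (fun p hp hp2 => by rw [neg_sq]; exact (hv p hp hp2).2.2)
      exact h2 (by rw [e]; ring)
  all_goals
    have o1 : ¬ (2 : ℤ) ∣ σ - θ := by omega
    have o2 : ¬ (2 : ℤ) ∣ σ + θ := by omega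
    have o3 : ¬ (2 : ℤ) ∣ σ ^ 2 + θ ^ 2 := by
      intro h5
      have h6 : (2 : ℤ) ∣ (σ + θ) ^ 2 := by
        have : (σ + θ) ^ 2 = (σ ^ 2 + θ ^ 2) + 2 * (σ * θ) := by ring
        rw [this]
        exact dvd_add h5 (dvd_mul_right 2 _)
      exact o2 (Int.prime_two.dvd_of_dvd_pow h6)
    obtain ⟨a, ha⟩ := cube_of_val_odd o1 (fun p hp hp2 => (hv p hp hp2).1)
    obtain ⟨b, hb⟩ := cube_of_val_odd o2 (fun p hp hp2 => (hv p hp hp2).2.1)
    obtain ⟨c, hcc⟩ := cube_of_val_odd o3 (fun p hp hp2 => (hv p hp hp2).2.2)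
    have hab : IsCoprime (a ^ 2) (b ^ 2) := by
      apply IsCoprime.pow
      have hb0 : b ≠ 0 := by rintro rfl; apply h2; rw [hb]; norm_num
      apply cop_of _ hb0
      intro z hz e1 e2
      have e3 : z ∣ σ - θ := by rw [ha]; exact dvd_pow e1 (by norm_num)
      have e4 : z ∣ σ + θ := by rw [hb]; exact dvd_pow e2 (by norm_num)
      have e5 : ¬ z ∣ 2 := fun h => o1 ((assoc_two hz h).trans e3)
      have e6 : z ∣ 2 * σ := by
        have := dvd_add e3 e4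
        ring_nf at this ⊢
        exact this
      have e7 : z ∣ 2 * θ := by
        have := dvd_sub e4 e3
        ring_nf at this ⊢
        exact this
      exact hz.not_isUnit (hc.isUnit_of_dvd' ((hz.dvd_or_dvd e6).resolve_left e5)
        ((hz.dvd_or_dvd e7).resolve_left e5))
    have hk := cube_add_cube (Z := c) hab (by
      have e1 : (a ^ 2) ^ 3 = (σ - θ) ^ 2 := by rw [ha]; ring
      have e2 : (b ^ 2) ^ 3 = (σ + θ) ^ 2 := by rw [hb]; ring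
      rw [e1, e2, ← hcc]; ring)
    have hk2 : (σ - θ) ^ 2 = (σ + θ) ^ 2 ∨ (σ - θ) ^ 2 = -(σ + θ) ^ 2 := by
      rcases hk with hk | hk
      · left
        rw [ha, hb]
        calc (a ^ 3) ^ 2 = (a ^ 2) ^ 3 := by ring
          _ = (b ^ 2) ^ 3 := by rw [hk]
          _ = _ := by ring
      · right
        rw [ha, hb]
        calc (a ^ 3) ^ 2 = (a ^ 2) ^ 3 := by ring
          _ = (-b ^ 2) ^ 3 := by rw [hk]
          _ = _ := by ring
    rcases hk2 with hk2 | hk2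
    · have : σ * θ = 0 := by linarith
      rcases mul_eq_zero.1 this with e | e
      · exact hσ e
      · exact hθ e
    · have e1 : 0 < (σ - θ) ^ 2 := by positivity
      have e2 : 0 ≤ (σ + θ) ^ 2 := sq_nonneg _
      linarith

end Pool.Agent.W2helper83.UC
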