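import Pool.Agent.W2helper83.UC.Quart

/-!
# `y² = B³ - A⁶` and `X³ + Y³ = 2 Z³`
-/

set_option autoImplicit false

namespace Pool.Agent.W2helper83.UC

/-- coprime positive factors of a square are squares -/
theorem sq_split {a b c : ℤ} (hab : IsCoprime a b) (ha : 0 ≤ a) (hb : 0 ≤ b)
    (h : a * b = c ^ 2) : ∃ r s : ℤ, a = r ^ 2 ∧ b = s ^ 2 := by
  obtain ⟨r, -, hr⟩ := pow_of_coprime hab ha h
  obtain ⟨s, -, hs⟩ := pow_of_coprime hab.symm hb (by rw [mul_comm]; exact h)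
  exact ⟨r, s, hr, hs⟩

/-- coprime factors of a cube are cubes -/
theorem cube_split {a b c : ℤ} (hab : IsCoprime a b) (h : a * b = c ^ 3) :
    ∃ r s : ℤ, a = r ^ 3 ∧ b = s ^ 3 := by
  have key : ∀ {a b : ℤ}, IsCoprime a b → a * b = c ^ 3 → ∃ r : ℤ, a = r ^ 3 := by
    intro a b hab h
    obtain ⟨d, hd⟩ := exists_associated_pow_of_mul_eq_pow' hab h
    rcases Int.associated_iff.1 hd with h1 | h1
    · exact ⟨d, h1.symm⟩
    · exact ⟨-d, by rw [Odd.neg_pow (by decide), h1, neg_neg]⟩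
  obtain ⟨r, hr⟩ := key hab h
  obtain ⟨s, hs⟩ := key hab.symm (by rw [mul_comm]; exact h)
  exact ⟨r, s, hr, hs⟩

theorem cop_of {a b : ℤ} (h : ∀ z : ℤ, Prime z → z ∣ a → ¬ z ∣ b) (hb : b ≠ 0) :
    IsCoprime a b :=
  isCoprime_of_prime_dvd (fun h0 => hb h0.2) h

/-- **`y² = B³ - A⁶`** -/
theorem sq_eq_cube_sub {y A B : ℤ} (hc : IsCoprime A B) (hA : A ≠ 0)
    (h : y ^ 2 = B ^ 3 - A ^ 6) : y = 0 := by
  by_contra hy
  have hy2 : 0 < y ^ 2 := by positivity
  have hA2 : 0 < A ^ 2 := by positivity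
  set U := B - A ^ 2 with hU
  have hfac : U * (U ^ 2 + 3 * U * A ^ 2 + 3 * A ^ 4) = y ^ 2 := by
    rw [h, hU]; ring
  have hVpos : 0 < U ^ 2 + 3 * U * A ^ 2 + 3 * A ^ 4 := by
    have h1 : 0 ≤ (2 * U + 3 * A ^ 2) ^ 2 := sq_nonneg _
    have h2 : 0 < A ^ 4 := by positivity
    nlinarith
  have hUpos : 0 < U := by
    by_contra h4
    have := mul_nonpos_of_nonpos_of_nonneg (not_lt.1 h4) hVpos.le
    linarith
  have hcUA : ∀ z : ℤ, Prime z → z ∣ U → ¬ z ∣ A := by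
    intro z hz h1 h2
    apply hz.not_isUnit
    apply hc.isUnit_of_dvd' h2
    have h3 : z ∣ U + A ^ 2 := dvd_add h1 (dvd_pow h2 (by norm_num))
    rwa [hU, sub_add_cancel] at h3
  by_cases h3 : (3 : ℤ) ∣ U
  · obtain ⟨U1, hU1⟩ := h3
    have hU1pos : 0 < U1 := by omega
    obtain ⟨y1, hy1⟩ : (3 : ℤ) ∣ y := by
      apply three_prime.dvd_of_dvd_pow (n := 2)
      refine ⟨U1 * (U ^ 2 + 3 * U * A ^ 2 + 3 * A ^ 4), ?_⟩
      rw [← hfac, hU1]; ring
    have hfac1 : U1 * (3 * U1 ^ 2 + 3 * U1 * A ^ 2 + A ^ 4) = y1 ^ 2 := by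
      rw [hU1, hy1] at hfac
      linarith
    have hcop : IsCoprime U1 (3 * U1 ^ 2 + 3 * U1 * A ^ 2 + A ^ 4) := by
      apply IsCoprime.symm
      apply cop_of _ hU1pos.ne'
      intro z hz h1 h2
      have h4 : z ∣ A ^ 4 := by
        have h5 : z ∣ 3 * U1 ^ 2 + 3 * U1 * A ^ 2 := by
          have : 3 * U1 ^ 2 + 3 * U1 * A ^ 2 = U1 * (3 * U1 + 3 * A ^ 2) := by ring
          rw [this]
          exact Dvd.dvd.mul_right h2 _
        exact (dvd_add_right h5).1 h1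
      exact hcUA z hz (by rw [hU1]; exact Dvd.dvd.mul_left h2 3) (hz.dvd_of_dvd_pow h4)
    have hpos2 : 0 ≤ 3 * U1 ^ 2 + 3 * U1 * A ^ 2 + A ^ 4 := by positivity
    obtain ⟨u, k, hu, hk⟩ := sq_split hcop hU1pos.le hpos2 hfac1
    have hAu : IsCoprime A u := by
      apply cop_of
      · intro z hz h1 h2
        exact hcUA z hz (by rw [hU1, hu]; exact Dvd.dvd.mul_left (dvd_pow h2 (by norm_num)) 3) h1
      · rintro rfl
        rw [hu] at hU1pos
        norm_num at hU1pos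
    have := quart_zero (Or.inl rfl) _ k A u rfl hAu (by
      rw [← hk, hu]; ring)
    rw [this] at hu
    rw [hu] at hU1pos
    norm_num at hU1pos
  · have hcop : IsCoprime U (U ^ 2 + 3 * U * A ^ 2 + 3 * A ^ 4) := by
      apply IsCoprime.symm
      apply cop_of _ hUpos.ne'
      intro z hz h1 h2
      have h4 : z ∣ 3 * A ^ 4 := by
        have h5 : z ∣ U ^ 2 + 3 * U * A ^ 2 := by
          have : U ^ 2 + 3 * U * A ^ 2 = U * (U + 3 * A ^ 2) := by ring
          rw [this]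
          exact Dvd.dvd.mul_right h2 _
        exact (dvd_add_right h5).1 h1
      rcases hz.dvd_or_dvd h4 with h5 | h5
      · exact h3 ((assoc_three hz h5).trans h2)
      · exact hcUA z hz h2 (hz.dvd_of_dvd_pow h5)
    obtain ⟨u, k, hu, hk⟩ := sq_split hcop hUpos.le hVpos.le hfac
    have huA : IsCoprime u A := by
      apply cop_of _ hA
      intro z hz h1 h2
      exact hcUA z hz (by rw [hu]; exact dvd_pow h1 (by norm_num)) h2
    have := quart_zero (Or.inl rfl) _ k u A rfl huA (by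
      rw [← hk, hu]; ring)
    exact hA this

/-- the case of a quadratic form: `U (U² + 9 U a² + 27 a⁴) = q²` with `3 ∤ U` -/
theorem aux27 {U a q : ℤ} (hU3 : ¬ (3 : ℤ) ∣ U) (hc : ∀ z : ℤ, Prime z → z ∣ U → ¬ z ∣ a)
    (hq : q ≠ 0) (h : U * (U ^ 2 + 9 * U * a ^ 2 + 27 * a ^ 4) = q ^ 2) : a = 0 := by
  by_contra ha
  have hq2 : 0 < q ^ 2 := by positivity
  have hVpos : 0 < U ^ 2 + 9 * U * a ^ 2 + 27 * a ^ 4 := by
    have h1 : 0 ≤ (2 * U + 9 * a ^ 2) ^ 2 := sq_nonneg _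
    have h2 : 0 < a ^ 4 := by positivity
    nlinarith
  have hUpos : 0 < U := by
    by_contra h4
    have := mul_nonpos_of_nonpos_of_nonneg (not_lt.1 h4) hVpos.le
    linarith
  have hcop : IsCoprime U (U ^ 2 + 9 * U * a ^ 2 + 27 * a ^ 4) := by
    apply IsCoprime.symm
    apply cop_of _ hUpos.ne'
    intro z hz h1 h2
    have h4 : z ∣ 27 * a ^ 4 := by
      have h5 : z ∣ U ^ 2 + 9 * U * a ^ 2 := by
        have : U ^ 2 + 9 * U * a ^ 2 = U * (U + 9 * a ^ 2) := by ring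
        rw [this]
        exact Dvd.dvd.mul_right h2 _
      exact (dvd_add_right h5).1 h1
    rcases hz.dvd_or_dvd h4 with h5 | h5
    · have h6 : z ∣ (3 : ℤ) ^ 3 := by norm_num; exact h5
      exact hU3 ((assoc_three hz (hz.dvd_of_dvd_pow h6)).trans h2)
    · exact hc z hz h2 (hz.dvd_of_dvd_pow h5)
  obtain ⟨m, k, hm, hk⟩ := sq_split hcop hUpos.le hVpos.le h
  have hma : IsCoprime m a := by
    apply cop_of _ ha
    intro z hz h1 h2
    exact hc z hz (by rw [hm]; exact dvd_pow h1 (by norm_num)) h2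
  exact ha (quart_zero (Or.inr rfl) _ k m a rfl hma (by rw [← hk, hm]; ring))

/-- **`p (p² + 3 q²) = z³`** -/
theorem pq_cube {p q z : ℤ} (hc : IsCoprime p q) (hp : p ≠ 0)
    (h : p * (p ^ 2 + 3 * q ^ 2) = z ^ 3) : q = 0 := by
  by_contra hq
  have hnc : ∀ w : ℤ, Prime w → w ∣ p → ¬ w ∣ q := fun w hw h1 h2 =>
    hw.not_isUnit (hc.isUnit_of_dvd' h1 h2)
  by_cases h3 : (3 : ℤ) ∣ p
  · have h3q : ¬ (3 : ℤ) ∣ q := hnc 3 three_prime h3
    obtain ⟨p1, rfl⟩ := h3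
    obtain ⟨z1, rfl⟩ : (3 : ℤ) ∣ z := by
      apply three_prime.dvd_of_dvd_pow (n := 3)
      exact ⟨p1 * ((3 * p1) ^ 2 + 3 * q ^ 2), by rw [← h]; ring⟩
    have h1 : p1 * (3 * p1 ^ 2 + q ^ 2) = 3 * z1 ^ 3 := by linarith
    obtain ⟨p2, rfl⟩ : (3 : ℤ) ∣ p1 := by
      rcases three_prime.dvd_or_dvd (show (3 : ℤ) ∣ p1 * (3 * p1 ^ 2 + q ^ 2) from ⟨_, h1⟩) with
        h2 | h2
      · exact h2
      · exfalso
        apply h3q
        apply three_prime.dvd_of_dvd_pow (n := 2)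
        exact (dvd_add_right (dvd_mul_right 3 (p1 ^ 2))).1 h2
    have hp2 : p2 ≠ 0 := by rintro rfl; simp at hp
    have h2 : p2 * (27 * p2 ^ 2 + q ^ 2) = z1 ^ 3 := by linarith
    have hcop : IsCoprime p2 (27 * p2 ^ 2 + q ^ 2) := by
      apply IsCoprime.symm
      apply cop_of _ hp2
      intro w hw h4 h5
      apply hnc w hw (Dvd.dvd.mul_left (Dvd.dvd.mul_left h5 3) 3)
      apply hw.dvd_of_dvd_pow (n := 2)
      exact (dvd_add_right (Dvd.dvd.mul_left (dvd_pow h5 (by norm_num)) 27)).1 h4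
    obtain ⟨a, b, ha, hb⟩ := cube_split hcop h2
    have ha0 : a = 0 := by
      apply aux27 (U := b - 3 * a ^ 2) (q := q)
      · intro h4
        apply h3q
        apply three_prime.dvd_of_dvd_pow (n := 2)
        have h5 : q ^ 2 = (b - 3 * a ^ 2) * (b ^ 2 + 3 * b * a ^ 2 + 9 * a ^ 4) := by
          rw [ha] at hb
          linear_combination hb
        rw [h5]
        exact Dvd.dvd.mul_right h4 _
      · intro w hw h4 h5
        apply hnc w hw
        · rw [ha]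
          exact Dvd.dvd.mul_left (Dvd.dvd.mul_left (dvd_pow h5 (by norm_num)) 3) 3
        · apply hw.dvd_of_dvd_pow (n := 2)
          have h6 : q ^ 2 = (b - 3 * a ^ 2) * (b ^ 2 + 3 * b * a ^ 2 + 9 * a ^ 4) := by
            rw [ha] at hb
            linear_combination hb
          rw [h6]
          exact Dvd.dvd.mul_right h4 _
      · exact hq
      · rw [ha] at hb
        linear_combination -hb
    rw [ha0] at ha
    apply hp2
    rw [ha]; norm_num
  · have hcop : IsCoprime p (p ^ 2 + 3 * q ^ 2) := by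
      apply IsCoprime.symm
      apply cop_of _ hp
      intro w hw h4 h5
      have h6 : w ∣ 3 * q ^ 2 := (dvd_add_right (dvd_pow h5 (by norm_num))).1 h4
      rcases hw.dvd_or_dvd h6 with h7 | h7
      · exact h3 ((assoc_three hw h7).trans h5)
      · exact hnc w hw h5 (hw.dvd_of_dvd_pow h7)
    obtain ⟨a, b, ha, hb⟩ := cube_split hcop h
    have ha3 : ¬ (3 : ℤ) ∣ a := fun h4 => h3 (by rw [ha]; exact dvd_pow h4 (by norm_num))
    set m := b - a ^ 2 with hm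
    have h1 : m * (m ^ 2 + 3 * m * a ^ 2 + 3 * a ^ 4) = 3 * q ^ 2 := by
      rw [ha] at hb
      rw [hm]
      linear_combination -hb
    obtain ⟨m1, hm1⟩ : (3 : ℤ) ∣ m := by
      apply three_prime.dvd_of_dvd_pow (n := 3)
      exact ⟨q ^ 2 - m ^ 2 * a ^ 2 - m * a ^ 4, by linear_combination h1⟩
    rw [hm1] at h1
    obtain ⟨q1, rfl⟩ : (3 : ℤ) ∣ q := by
      apply three_prime.dvd_of_dvd_pow (n := 2)
      refine ⟨m1 * (3 * m1 ^ 2 + 3 * m1 * a ^ 2 + a ^ 4), ?_⟩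
      linarith
    have hq1 : q1 ≠ 0 := by rintro rfl; simp at hq
    have h2 : m1 * (3 * m1 ^ 2 + 3 * m1 * a ^ 2 + a ^ 4) = 3 * q1 ^ 2 := by linarith
    obtain ⟨m2, rfl⟩ : (3 : ℤ) ∣ m1 := by
      rcases three_prime.dvd_or_dvd
        (show (3 : ℤ) ∣ m1 * (3 * m1 ^ 2 + 3 * m1 * a ^ 2 + a ^ 4) from ⟨_, h2⟩) with h4 | h4
      · exact h4
      · exfalso
        apply ha3
        apply three_prime.dvd_of_dvd_pow (n := 4)
        have h5 : (3 : ℤ) ∣ 3 * m1 ^ 2 + 3 * m1 * a ^ 2 := ⟨m1 ^ 2 + m1 * a ^ 2, by ring⟩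
        exact (dvd_add_right h5).1 h4
    have h4 : m2 * (27 * m2 ^ 2 + 9 * m2 * a ^ 2 + a ^ 4) = q1 ^ 2 := by linarith
    have ha0 : a ≠ 0 := by
      rintro rfl
      exact ha3 (dvd_zero _)
    have hVpos : 0 < 27 * m2 ^ 2 + 9 * m2 * a ^ 2 + a ^ 4 := by
      have h5 : 0 ≤ (9 * m2 + a ^ 2) ^ 2 := sq_nonneg _
      have h6 : 0 < a ^ 4 := by positivity
      nlinarith [sq_nonneg m2]
    have hq2 : 0 < q1 ^ 2 := by positivity
    have hm2pos : 0 < m2 := by
      by_contra h5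
      have := mul_nonpos_of_nonpos_of_nonneg (not_lt.1 h5) hVpos.le
      linarith
    have hzq : ∀ w : ℤ, Prime w → w ∣ m2 → ¬ w ∣ a := by
      intro w hw h5 h6
      apply hnc w hw (by rw [ha]; exact dvd_pow h6 (by norm_num))
      apply Dvd.dvd.mul_left
      apply hw.dvd_of_dvd_pow (n := 2)
      rw [← h4]
      exact Dvd.dvd.mul_right h5 _
    have hcop2 : IsCoprime m2 (27 * m2 ^ 2 + 9 * m2 * a ^ 2 + a ^ 4) := by
      apply IsCoprime.symm
      apply cop_of _ hm2pos.ne'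
      intro w hw h5 h6
      apply hzq w hw h6
      apply hw.dvd_of_dvd_pow (n := 4)
      have h7 : w ∣ 27 * m2 ^ 2 + 9 * m2 * a ^ 2 := by
        have : 27 * m2 ^ 2 + 9 * m2 * a ^ 2 = m2 * (27 * m2 + 9 * a ^ 2) := by ring
        rw [this]
        exact Dvd.dvd.mul_right h6 _
      exact (dvd_add_right h7).1 h5
    obtain ⟨n, k, hn, hk⟩ := sq_split hcop2 hm2pos.le hVpos.le h4
    have han : IsCoprime a n := by
      apply IsCoprime.symm
      apply cop_of _ ha0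
      intro w hw h5 h6
      exact hzq w hw (by rw [hn]; exact dvd_pow h5 (by norm_num)) h6
    have hn0 := quart_zero (Or.inr rfl) _ k a n rfl han (by rw [← hk, hn]; ring)
    rw [hn, hn0] at hm2pos
    norm_num at hm2pos

/-- **`X³ + Y³ = 2 Z³`** -/
theorem cube_add_cube {X Y Z : ℤ} (hc : IsCoprime X Y) (h : X ^ 3 + Y ^ 3 = 2 * Z ^ 3) :
    X = Y ∨ X = -Y := by
  have h2 : ∃ p q : ℤ, X = p + q ∧ Y = p - q := by
    have h1 : (2 : ℤ) ∣ X + Y := by
      have h3 : (2 : ℤ) ∣ X ^ 3 + Y ^ 3 := ⟨_, h⟩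
      have h4 : (X + Y) % 2 = (X ^ 3 + Y ^ 3) % 2 := by
        rcases Int.even_or_odd' X with ⟨x, hx | hx⟩ <;>
          rcases Int.even_or_odd' Y with ⟨y, hy | hy⟩ <;> rw [hx, hy] <;> ring_nf <;> omega
      omega
    obtain ⟨p, hp⟩ := h1
    exact ⟨p, X - p, by ring, by linarith⟩
  obtain ⟨p, q, rfl, rfl⟩ := h2
  by_cases hp : p = 0
  · right; rw [hp]; ring
  · left
    have hcpq : IsCoprime p q := by
      apply IsCoprime.symm
      apply cop_of _ hp
      intro w hw h1 h2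
      exact hw.not_isUnit (hc.isUnit_of_dvd' (dvd_add h2 h1) (dvd_sub h2 h1))
    have : q = 0 := pq_cube (z := Z) hcpq hp (by linarith)
    rw [this]; ring

end Pool.Agent.W2helper83.UC
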