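import Pool.Agent.W2helper83.UC.Sext
import Pool.Agent.T6.H62.UB.Red

/-!
# Dynamics of `(A x ^ d + B) / V` on a finite invariant set of integers
-/

set_option autoImplicit false

namespace Pool.Agent.W2helper83.UC

open Finset Pool.Agent.T6.H62.UB

/-- `(X ^ d - U ^ d) / (X - U)` -/
def Psi (d : ℕ) (X U : ℤ) : ℤ := ∑ i ∈ Finset.range d, X ^ i * U ^ (d - 1 - i)

theorem psi_mul (d : ℕ) (X U : ℤ) : (X - U) * Psi d X U = X ^ d - U ^ d := by
  unfold Psi
  rw [mul_comm]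
  exact (Commute.all X U).geom_sum₂_mul d

/-- being periodic -/
def Per (φ : ℤ → ℤ) (u : ℤ) : Prop := ∃ n : ℕ, 0 < n ∧ φ^[n] u = u

/-- never merging -/
def NM (φ : ℤ → ℤ) (u w : ℤ) : Prop := ∀ n : ℕ, φ^[n] u ≠ φ^[n] w

/-- the condition at a bad odd prime -/
def Cond (d V p : ℕ) : Prop :=
  3 ∣ padicValNat p V ∧ (p ∣ d → 3 ∣ padicValNat p d ∧ padicValNat p d < padicValNat p V)

theorem cop_of_nat {a b : ℤ} (h0 : ¬ (a = 0 ∧ b = 0))
    (h : ∀ p : ℕ, p.Prime → (p : ℤ) ∣ a → ¬ (p : ℤ) ∣ b) : IsCoprime a b := by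
  apply isCoprime_of_prime_dvd h0
  intro z hz h1 h2
  have hp : z.natAbs.Prime := Int.prime_iff_natAbs_prime.1 hz
  exact h _ hp (Int.natAbs_dvd.2 h1) (Int.natAbs_dvd.2 h2)

theorem cop_not {a b : ℤ} (h : IsCoprime a b) {p : ℕ} (hp : p.Prime) (h1 : (p : ℤ) ∣ a) :
    ¬ (p : ℤ) ∣ b := fun h2 =>
  (Nat.prime_iff_prime_int.1 hp).not_isUnit (h.isUnit_of_dvd' h1 h2)

theorem emul_eq {p : ℕ} (hp : p.Prime) {z : ℤ} (hz : z ≠ 0) :
    emultiplicity (p : ℤ) z = (padicValInt p z : ℕ∞) := by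
  have := Fact.mk hp
  rw [← Int.emultiplicity_natAbs, padicValInt,
    ← padicValNat_eq_emultiplicity (Int.natAbs_ne_zero.2 hz)]

/-- lifting the exponent -/
theorem lte_val {p : ℕ} (hp : p.Prime) (h2 : p ≠ 2) {d : ℕ} (hd0 : d ≠ 0) {u w : ℤ}
    (huw : (p : ℤ) ∣ u - w) (hu : ¬ (p : ℤ) ∣ u) (hne : u ^ d ≠ w ^ d) :
    padicValInt p (u ^ d - w ^ d) = padicValInt p (u - w) + padicValNat p d := by
  have := Fact.mk hp
  have hodd : Odd p := hp.odd_of_ne_two h2
  have h1 := Int.emultiplicity_pow_sub_pow hp hodd huw hu d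
  have hne' : u - w ≠ 0 := by
    intro h0
    apply hne
    rw [sub_eq_zero.1 h0]
  rw [emul_eq hp (sub_ne_zero.2 hne), emul_eq hp hne', ← padicValNat_eq_emultiplicity hd0] at h1
  exact_mod_cast h1

theorem NM.step {φ : ℤ → ℤ} {u w : ℤ} (h : NM φ u w) : NM φ (φ u) (φ w) := by
  intro n
  have := h (n + 1)
  rwa [Function.iterate_succ_apply, Function.iterate_succ_apply] at this

theorem NM.ne {φ : ℤ → ℤ} {u w : ℤ} (h : NM φ u w) : u ≠ w := h 0

section

variable {φ : ℤ → ℤ}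

theorem Per.iter {u : ℤ} (hu : Per φ u) (k : ℕ) : Per φ (φ^[k] u) := by
  obtain ⟨n, hn, h⟩ := hu
  refine ⟨n, hn, ?_⟩
  rw [← Function.iterate_add_apply, Nat.add_comm, Function.iterate_add_apply, h]

theorem iter_mul {u : ℤ} {n : ℕ} (h : φ^[n] u = u) (k : ℕ) : φ^[n * k] u = u := by
  induction k with
  | zero => rfl
  | succ k ih => rw [Nat.mul_succ, Function.iterate_add_apply, h, ih]

/-- a common period -/
theorem common_period {u w : ℤ} (hu : Per φ u) (hw : Per φ w) :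
    ∃ n : ℕ, 0 < n ∧ φ^[n] u = u ∧ φ^[n] w = w := by
  obtain ⟨m, hm, h1⟩ := hu
  obtain ⟨n, hn, h2⟩ := hw
  exact ⟨m * n, Nat.mul_pos hm hn, iter_mul h1 n, by rw [Nat.mul_comm]; exact iter_mul h2 m⟩

/-- iterates are injective on periodic points -/
theorem per_inj {u w : ℤ} (hu : Per φ u) (hw : Per φ w) {k : ℕ} (h : φ^[k] u = φ^[k] w) :
    u = w := by
  obtain ⟨n, hn, h1, h2⟩ := common_period hu hw
  have h3 : φ^[n * (k + 1) - k] (φ^[k] u) = φ^[n * (k + 1) - k] (φ^[k] w) := by rw [h]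
  have hle : k ≤ n * (k + 1) := by nlinarith
  rw [← Function.iterate_add_apply, ← Function.iterate_add_apply, Nat.sub_add_cancel hle,
    iter_mul h1, iter_mul h2] at h3
  exact h3

theorem per_NM {u w : ℤ} (hu : Per φ u) (hw : Per φ w) (hne : u ≠ w) : NM φ u w :=
  fun _ h => hne (per_inj hu hw h)

end

section

variable {d : ℕ} {A B : ℤ} {V : ℕ} {O : Finset ℤ} {φ : ℤ → ℤ}

theorem eqn_sub (h : Sys d A B V O φ) {u w : ℤ} (hu : u ∈ O) (hw : w ∈ O) :
    (V : ℤ) * (φ u - φ w) = A * (u ^ d - w ^ d) := by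
  linear_combination h.eqn u hu - h.eqn w hw

theorem cop_V (h : Sys d A B V O φ) (hd0 : d ≠ 0) (hV : 0 < V) {u : ℤ} (hu : u ∈ O) :
    IsCoprime u (V : ℤ) := by
  apply cop_of_nat
  · rintro ⟨-, h1⟩
    have : V = 0 := by exact_mod_cast h1
    omega
  · intro p hp h1 h2
    exact h.not_dvd hd0 hp (Int.natCast_dvd_natCast.1 h2) hu h1

theorem phi_eq (h : Sys d A B V O φ) (hV : 0 < V) {u w : ℤ} (hu : u ∈ O)
    (hw : w ∈ O) (huw : u ^ d = w ^ d) : φ u = φ w := by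
  have h1 := eqn_sub h hu hw
  rw [huw, sub_self, mul_zero] at h1
  have h2 : (V : ℤ) ≠ 0 := by exact_mod_cast hV.ne'
  rcases mul_eq_zero.1 h1 with h3 | h3
  · exact absurd h3 h2
  · omega

theorem NM.pow_ne (h : Sys d A B V O φ) (hV : 0 < V) {u w : ℤ} (hu : u ∈ O)
    (hw : w ∈ O) (hn : NM φ u w) : u ^ d ≠ w ^ d := fun h1 =>
  hn.step.ne (phi_eq h hV hu hw h1)

/-- one step of the valuations -/
theorem val_step (h : Sys d A B V O φ) (hA : A ≠ 0) (hV : 0 < V) {p : ℕ} (hp : p.Prime)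
    {u w : ℤ} (hu : u ∈ O) (hw : w ∈ O) (hne : φ u ≠ φ w) :
    padicValInt p A + padicValInt p (u ^ d - w ^ d) =
      padicValNat p V + padicValInt p (φ u - φ w) := by
  have := Fact.mk hp
  have hvz : (V : ℤ) ≠ 0 := by exact_mod_cast hV.ne'
  have hpow : u ^ d - w ^ d ≠ 0 := fun h0 => hne (phi_eq h hV hu hw (sub_eq_zero.1 h0))
  rw [← padicValInt.mul hA hpow, ← eqn_sub h hu hw, padicValInt.mul hvz (sub_ne_zero.2 hne),
    padicValInt.of_nat]

theorem val_mul {p : ℕ} (hp : p.Prime) {u w : ℤ} (h : u ^ d ≠ w ^ d) :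
    padicValInt p (u ^ d - w ^ d) = padicValInt p (u - w) + padicValInt p (Psi d u w) := by
  have := Fact.mk hp
  have hne : u ≠ w := by rintro rfl; exact h rfl
  have h1 : Psi d u w ≠ 0 := by
    intro h0
    apply h
    have := psi_mul d u w
    rw [h0, mul_zero] at this
    omega
  rw [← psi_mul, padicValInt.mul (sub_ne_zero.2 hne) h1]

theorem pos_val {p : ℕ} (hp : p.Prime) {z : ℤ} (hz : z ≠ 0) (h : (p : ℤ) ∣ z) :
    1 ≤ padicValInt p z := by
  have := Fact.mk hp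
  by_contra hcon
  have h3 : padicValInt p z = 0 := by omega
  rw [padicValInt.eq_zero_iff] at h3
  rcases h3 with h3 | h3 | h3
  · exact hp.one_lt.ne' h3
  · exact hz h3
  · exact h3 h

/-- **Dynamical units**: outside `V` neither `A` nor `Psi d u w` has prime divisors. -/
theorem good (h : Sys d A B V O φ) (hA : A ≠ 0) (hV : 0 < V)
    {u w : ℤ} (hu : u ∈ O) (hw : w ∈ O) (pu : Per φ u) (pw : Per φ w) (hne : u ≠ w)
    {q : ℕ} (hq : q.Prime) (hqv : ¬ q ∣ V) : ¬ (q : ℤ) ∣ A ∧ ¬ (q : ℤ) ∣ Psi d u w := by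
  have := Fact.mk hq
  have hn := per_NM pu pw hne
  have hstep : ∀ {u w : ℤ}, u ∈ O → w ∈ O → NM φ u w →
      padicValInt q (φ u - φ w) =
        padicValInt q A + (padicValInt q (u - w) + padicValInt q (Psi d u w)) := by
    intro u w hu hw hn
    have h1 := val_step h hA hV hq hu hw hn.step.ne
    rw [padicValNat.eq_zero_of_not_dvd hqv, Nat.zero_add,
      val_mul hq (NM.pow_ne h hV hu hw hn)] at h1
    exact h1.symm
  have hit : ∀ k : ℕ, φ^[k] u ∈ O ∧ φ^[k] w ∈ O ∧ NM φ (φ^[k] u) (φ^[k] w) ∧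
      padicValInt q (φ u - φ w) ≤ padicValInt q (φ^[k + 1] u - φ^[k + 1] w) := by
    intro k
    induction k with
    | zero => exact ⟨hu, hw, hn, le_rfl⟩
    | succ k ih =>
      obtain ⟨i1, i2, i3, i4⟩ := ih
      have j1 := h.maps _ i1
      have j2 := h.maps _ i2
      have j3 := i3.step
      rw [← Function.iterate_succ_apply' φ] at j1 j2 j3
      rw [← Function.iterate_succ_apply' φ] at j3
      refine ⟨j1, j2, j3, i4.trans ?_⟩
      have j4 := hstep j1 j2 j3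
      rw [← Function.iterate_succ_apply' φ, ← Function.iterate_succ_apply' φ] at j4
      simp only [Nat.succ_eq_add_one] at j4 ⊢
      omega
  obtain ⟨n, hn0, e1, e2⟩ := common_period pu pw
  have h1 := (hit (n - 1)).2.2.2
  rw [Nat.sub_add_cancel hn0, e1, e2, hstep hu hw hn] at h1
  have hPsi : Psi d u w ≠ 0 := by
    intro h0
    apply NM.pow_ne h hV hu hw hn
    have := psi_mul d u w
    rw [h0, mul_zero] at this
    omega
  constructor
  · intro hdvd
    have h2 := pos_val hq hA hdvd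
    omega
  · intro hdvd
    have h2 := pos_val hq hPsi hdvd
    omega

/-- With two periodic points `A` is a unit. -/
theorem unit_A (h : Sys d A B V O φ) (hA : A ≠ 0) (hV : 0 < V)
    {u w : ℤ} (hu : u ∈ O) (hw : w ∈ O) (pu : Per φ u) (pw : Per φ w) (hne : u ≠ w) :
    A = 1 ∨ A = -1 := by
  have h1 : A.natAbs = 1 := by
    by_contra hcon
    obtain ⟨p, hp, hpA⟩ := Nat.exists_prime_and_dvd hcon
    have hpA' : (p : ℤ) ∣ A := Int.natCast_dvd.2 hpA
    by_cases hpV : p ∣ V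
    · exact h.not_dvd_A hp hpV hpA'
    · exact (good h hA hV hu hw pu pw hne hp hpV).1 hpA'
  omega

/-- Two periodic points are coprime. -/
theorem cop_per (h : Sys d A B V O φ) (hA : A ≠ 0) (hV : 0 < V) (hd : 2 ≤ d)
    {u w : ℤ} (hu : u ∈ O) (hw : w ∈ O) (pu : Per φ u) (pw : Per φ w) (hne : u ≠ w) :
    IsCoprime u w := by
  apply cop_of_nat
  · rintro ⟨h1, h2⟩; exact hne (by rw [h1, h2])
  · intro p hp h1 h2
    by_cases hpV : p ∣ V
    · exact h.not_dvd (by omega) hp hpV hu h1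
    · apply (good h hA hV hu hw pu pw hne hp hpV).2
      unfold Psi
      apply dvd_sum
      intro i hi
      rw [mem_range] at hi
      rcases Nat.eq_zero_or_pos i with h5 | h5
      · subst h5
        exact Dvd.dvd.mul_left (dvd_pow h2 (by omega)) _
      · exact Dvd.dvd.mul_right (dvd_pow h1 (by omega)) _

/-- **The differences have valuations divisible by three at the good bad primes.** -/
theorem val_sub_dvd (h : Sys d A B V O φ) (hA : A ≠ 0) (hd0 : d ≠ 0) (hV : 0 < V)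
    {p : ℕ} (hp : p.Prime) (hp2 : p ≠ 2) (hpV : p ∣ V) (hC : Cond d V p) :
    ∀ (N : ℕ) {u w : ℤ}, u ∈ O → w ∈ O → NM φ u w → padicValInt p (u - w) = N → 3 ∣ N := by
  have := Fact.mk hp
  intro N
  induction N using Nat.strong_induction_on with
  | _ N ih =>
    intro u w hu hw hn hN
    by_cases hdv : (p : ℤ) ∣ u - w
    · have h1 := lte_val hp hp2 hd0 hdv (h.not_dvd hd0 hp hpV hu) (NM.pow_ne h hV hu hw hn)
      have h2 := val_step h hA hV hp hu hw hn.step.ne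
      rw [padicValInt.eq_zero_of_not_dvd (h.not_dvd_A hp hpV), zero_add, h1, hN] at h2
      have h3 : 1 ≤ padicValNat p V := one_le_padicValNat_of_dvd hV.ne' hpV
      have h4 : 3 ∣ padicValNat p d ∧ padicValNat p d < padicValNat p V := by
        by_cases hpd : p ∣ d
        · exact hC.2 hpd
        · rw [padicValNat.eq_zero_of_not_dvd hpd]
          exact ⟨dvd_zero _, h3⟩
      have h5 := ih (padicValInt p (φ u - φ w)) (by omega) (h.maps u hu) (h.maps w hw) hn.step rfl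
      have h6 := hC.1
      omega
    · rw [padicValInt.eq_zero_of_not_dvd hdv] at hN
      rw [← hN]; exact dvd_zero _

theorem val_pow_sub_dvd (h : Sys d A B V O φ) (hA : A ≠ 0) (hd0 : d ≠ 0) (hV : 0 < V)
    {p : ℕ} (hp : p.Prime) (hp2 : p ≠ 2) (hpV : p ∣ V) (hC : Cond d V p) {u w : ℤ} (hu : u ∈ O)
    (hw : w ∈ O) (hn : NM φ u w) : 3 ∣ padicValInt p (u ^ d - w ^ d) := by
  have h2 := val_step h hA hV hp hu hw hn.step.ne
  rw [padicValInt.eq_zero_of_not_dvd (h.not_dvd_A hp hpV), zero_add] at h2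
  rw [h2]
  exact dvd_add hC.1
    (val_sub_dvd h hA hd0 hV hp hp2 hpV hC _ (h.maps u hu) (h.maps w hw) hn.step rfl)

/-- The valuations of the factors of `u ^ d - w ^ d`. -/
theorem factor_val (h : Sys d A B V O φ) (hA : A ≠ 0) (hV : 0 < V)
    {u w : ℤ} (hu : u ∈ O) (hw : w ∈ O) (pu : Per φ u) (pw : Per φ w) (hne : u ≠ w)
    {F K : ℤ} (hFK : u ^ d - w ^ d = F * K) (hPsi : F ∣ Psi d u w)
    (hl : ∀ p : ℕ, p.Prime → p ≠ 2 → p ∣ V → (p : ℤ) ∣ F →
      3 ∣ padicValInt p (u ^ d - w ^ d) ∧ ¬ (p : ℤ) ∣ K) :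
    ∀ p : ℕ, p.Prime → p ≠ 2 → 3 ∣ padicValInt p F := by
  intro p hp hp2
  have := Fact.mk hp
  by_cases hpF : (p : ℤ) ∣ F
  · by_cases hpV : p ∣ V
    · obtain ⟨h1, hK⟩ := hl p hp hp2 hpV hpF
      have hn := per_NM pu pw hne
      have hpow : u ^ d - w ^ d ≠ 0 := sub_ne_zero.2 (NM.pow_ne h hV hu hw hn)
      have hF0 : F ≠ 0 := by rintro rfl; rw [zero_mul] at hFK; exact hpow hFK
      have hK0 : K ≠ 0 := by rintro rfl; exact hK (dvd_zero _)
      rw [hFK, padicValInt.mul hF0 hK0, padicValInt.eq_zero_of_not_dvd hK, add_zero] at h1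
      exact h1
    · exact absurd (hpF.trans hPsi) (good h hA hV hu hw pu pw hne hp hpV).2
  · rw [padicValInt.eq_zero_of_not_dvd hpF]; exact dvd_zero _

theorem dvd_pow_sub (h : Sys d A B V O φ) {p : ℕ} (hp : p.Prime) (hpV : p ∣ V)
    {u w : ℤ} (hu : u ∈ O) (hw : w ∈ O) : (p : ℤ) ∣ u ^ d - w ^ d := by
  have h1 : (p : ℤ) ∣ A * (u ^ d - w ^ d) := by
    rw [← eqn_sub h hu hw]
    exact Dvd.dvd.mul_right (Int.natCast_dvd_natCast.2 hpV) _
  exact ((Nat.prime_iff_prime_int.1 hp).dvd_or_dvd h1).resolve_left (h.not_dvd_A hp hpV)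

end

/-! ### irrelevant primes -/

theorem gcd_dvd_of {a e n : ℕ} (he : e ≠ 0) (hn : n ≠ 0) (h : ¬ 2 ^ (padicValNat 2 e + 1) ∣ n) :
    Nat.gcd (2 ^ a * e) n ∣ e := by
  have hd : 2 ^ a * e ≠ 0 := mul_ne_zero (by positivity) he
  have hg : Nat.gcd (2 ^ a * e) n ≠ 0 := Nat.gcd_ne_zero_left hd
  rw [← Nat.factorization_le_iff_dvd hg he]
  intro q
  by_cases hq : q.Prime
  swap
  · rw [Nat.factorization_eq_zero_of_not_prime _ hq]; exact Nat.zero_le _
  by_cases hq2 : q = 2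
  · subst hq2
    have h1 : (Nat.gcd (2 ^ a * e) n).factorization 2 ≤ n.factorization 2 :=
      (Nat.factorization_le_iff_dvd hg hn).2 (Nat.gcd_dvd_right _ _) 2
    have h2 : n.factorization 2 ≤ e.factorization 2 := by
      by_contra hcon
      apply h
      rw [← Nat.factorization_def _ Nat.prime_two,
        Nat.prime_two.pow_dvd_iff_le_factorization hn]
      omega
    exact h1.trans h2
  · have h1 : (Nat.gcd (2 ^ a * e) n).factorization q ≤ (2 ^ a * e).factorization q :=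
      (Nat.factorization_le_iff_dvd hg hd).2 (Nat.gcd_dvd_left _ _) q
    have h2 : (2 ^ a * e).factorization q = e.factorization q := by
      rw [Nat.factorization_mul (by positivity) he, Nat.factorization_pow]
      have h3 : (2 : ℕ).factorization q = 0 := by
        apply Nat.factorization_eq_zero_of_not_dvd
        intro h4
        exact hq2 ((Nat.prime_dvd_prime_iff_eq hq Nat.prime_two).1 h4)
      simp [h3]
    rw [h2] at h1
    exact h1

theorem pow_of_gcd {p : ℕ} (hp : p.Prime) {d e : ℕ} (hd0 : d ≠ 0) {u w : ℤ}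
    (h : (p : ℤ) ∣ u ^ d - w ^ d) (hw : ¬ (p : ℤ) ∣ w) (hg : Nat.gcd d (p - 1) ∣ e) :
    (p : ℤ) ∣ u ^ e - w ^ e := by
  have := Fact.mk hp
  have hw0 : (w : ZMod p) ≠ 0 := by
    intro h0
    exact hw ((ZMod.intCast_zmod_eq_zero_iff_dvd _ p).1 h0)
  have h1 := (ZMod.intCast_zmod_eq_zero_iff_dvd _ p).2 h
  push_cast at h1
  have h2 : (u : ZMod p) ^ d = (w : ZMod p) ^ d := sub_eq_zero.1 h1
  have hu0 : (u : ZMod p) ≠ 0 := by
    intro h0
    rw [h0, zero_pow hd0] at h2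
    exact pow_ne_zero d hw0 h2.symm
  have h3 : ((u : ZMod p) / w) ^ d = 1 := by
    rw [div_pow, h2, div_self (pow_ne_zero _ hw0)]
  have h4 : ((u : ZMod p) / w) ^ (p - 1) = 1 := ZMod.pow_card_sub_one_eq_one (div_ne_zero hu0 hw0)
  have h5 : ((u : ZMod p) / w) ^ Nat.gcd d (p - 1) = 1 := pow_gcd_eq_one.2 ⟨h3, h4⟩
  obtain ⟨k, hk⟩ := hg
  have h6 : ((u : ZMod p) / w) ^ e = 1 := by rw [hk, pow_mul, h5, one_pow]
  rw [div_pow, div_eq_one_iff_eq (pow_ne_zero _ hw0)] at h6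
  rw [← ZMod.intCast_zmod_eq_zero_iff_dvd]
  push_cast
  rw [h6, sub_self]

/-- primes `p` with `2 ^ (v₂(m) + 1) ∤ p - 1` do not matter, `d = 2 ^ a m` -/
theorem irrelevant {p : ℕ} (hp : p.Prime) {a m : ℕ} (hm : m ≠ 0) {u w : ℤ}
    (h : (p : ℤ) ∣ u ^ (2 ^ a * m) - w ^ (2 ^ a * m)) (hw : ¬ (p : ℤ) ∣ w)
    (hr : ¬ 2 ^ (padicValNat 2 m + 1) ∣ p - 1) : (p : ℤ) ∣ u ^ m - w ^ m :=
  pow_of_gcd hp (mul_ne_zero (by positivity) hm) h hw
    (gcd_dvd_of hm (by have := hp.two_le; omega) hr)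

end Pool.Agent.W2helper83.UC
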