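import Pool.Agent.W2helper83.UC.Cor

/-!
# MP_c076ed_nt: explicit bounds for unicritical polynomials; all `x ^ (4 ^ k) + c`

Let `f(x) = a (x - u) ^ d + w` with rational numbers `a ≠ 0`, `u`, `w` (every polynomial of degree
`d` over `ℚ` with a single finite critical point), and let `t = a (w - u) ^ (d - 1)` be its parameter
(an invariant of the conjugacy class; `t = c ^ (d - 1)` for `x ^ d + c`).  The primes dividing the
denominator of `t` are the primes of bad reduction; `M` denotes the exponent of such a prime `p`.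

Let `m = d / 4` if `4 ∣ d`, or `m = d / 2` if `6 ∣ d`.  An odd prime `p` of bad reduction with
`p ≡ 1 mod 2 ^ (v_2(m) + 1)` is called exceptional unless `3 d ∣ M`, `3 ∣ v_p(d)` and `d v_p(d) < M`,
and exceptional of the first kind unless `3 d ∣ M` and `d v_p(d) < M`.

* If `4 ∣ d`, then `f` has at most `2 ∏ gcd(4, p - 1)` rational periodic points (product over the
  exceptional primes), for `8 ∣ d` at most `max(2, ∏ gcd(4, p - 1))`; if `6 ∣ d` at most `2 ^ (s + 1)`,
  `s` the number of exceptional primes, and for `12 ∣ d` at most `max(2, 2 ^ s)`.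
  If no prime is exceptional of the first kind and `s ≤ 1` there are at most four.
* If there is no exceptional prime, then `f` has at most two rational periodic and at most four
  rational preperiodic points, and for every rational preperiodic point `x` one of `x`, `2 u - x` is
  periodic, or `x = u` and `t = -2` (`f` is conjugate to `2 x ^ d - 1`).
* If `8 ∣ d` or `12 ∣ d`, at most two primes are exceptional and none is so of the first kind, then
  there are at most three rational preperiodic points, at most one rational periodic point if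
  `t ≠ 0, -1`, and at most two rational preperiodic points if also `t ≠ -2`.
* In the family of all `f` with `3 d ∣ M` for all odd primes `p ≡ 1 mod 2 ^ (v_2(m) + 1)` (this
  contains all `(A x ^ d + B) / (2 ^ s v ^ 3)` in lowest terms), and for `d ≡ 1 mod 3` also in the
  family of all `f` with `a = 2 ^ i r ^ 3`, this gives bounds which depend on `d` only (in fact on
  the odd primes dividing `d`); no exceptional prime occurs for `d = 4 ^ k`.
* In particular every polynomial `x ^ (4 ^ k) + c`, `c` rational, `k ≥ 1`, has at most two rational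
  periodic and at most four rational preperiodic points; for `k ≥ 2` and `c ≠ 0, -1` there are at
  most one rational periodic and at most two rational preperiodic points.
  The latter is true for `x ^ d + c` for all `d ≡ 16 mod 24` with at most two odd prime divisors
  `p ≡ 1 mod 2 ^ (v_2(d) - 1)` with `3 ∤ v_p(d)`, for example for all `d ≡ 16 mod 24`, `d < 19240`.
* The bounds are sharp: `x ^ 4 - 19561 / 10000` has the cycle `-13 / 10, 9 / 10` and four
  preperiodic points, `x ^ (4 ^ k) - 1` has three.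

Proof.  In a suitable coordinate the preperiodic points are integers without a common factor and
`f(x) = (A x ^ d + B) / V` with `gcd(A B, V) = 1`; the denominator of `t` is `V ^ d`.  For periodic
points `X ≠ Y` the number `(X ^ d - Y ^ d) / (X - Y)` has only prime factors dividing `V`, and by
lifting the exponent the valuations of `X ^ d - Y ^ d` at these primes are divisible by three, if
they are odd and not exceptional.  (Odd primes not congruent to one modulo `2 ^ (v_2(m) + 1)` divide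
`X ^ m - Y ^ m`, as they divide `X ^ d - Y ^ d`, and play no role.)  So `X ^ (d/4) + Y ^ (d/4)` and
`X ^ (d/2) + Y ^ (d/2)` are cubes up to powers of two, if `X ^ (d/4) ≡ Y ^ (d/4)` modulo the
exceptional primes, and with `2 (σ ^ 2 + θ ^ 2) - (σ + θ) ^ 2 = (σ - θ) ^ 2` one gets a solution of
`y ^ 2 = B ^ 3 - A ^ 6` (if `V` is even and `σ ≡ θ mod 4`), which is trivial by descent; for odd `V`
the sum `X + Y` is odd, and for `8 ∣ d` one has a solution of `x ^ 4 + y ^ 4 = z ^ 3` (Lucas).  For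
`6 ∣ d` one uses `x ^ 3 + y ^ 3 = z ^ 3` and `x ^ 3 + y ^ 3 = 2 z ^ 3`.  An exceptional prime `p`
which is not of the first kind can obstruct this for the pair `X, Y` only if `X ≢ Y` and
`f(X) ≡ f(Y)` modulo `p`; two such primes can not obstruct all the pairs in a finite invariant set of
periodic points.  A preimage `y` of `-X`, `X` periodic, gives `X ^ d - y ^ d = V (X + f(X))`, or, if
`X` is fixed, `A y ^ d = X (A X ^ (d-1) - 2 V)`, which leads to an equation
`Θ ^ d - b ^ d = ± V` or `± 2 V` and is excluded in the same way.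
-/

set_option autoImplicit false

namespace Pool.Agent.W2helper83.UC.Kept

open Pool.Agent.W2helper83

/-- The polynomial `a (x - u) ^ d + w` as a map on `ℚ`. -/
def unicritical (d : ℕ) (a u w : ℚ) : ℚ → ℚ := fun x => a * (x - u) ^ d + w

/-- The rational periodic points of `f`. -/
def periodic (f : ℚ → ℚ) : Set ℚ := {x | ∃ n : ℕ, 0 < n ∧ f^[n] x = x}

/-- The rational preperiodic points of `f`. -/
def preperiodic (f : ℚ → ℚ) : Set ℚ := {x | ∃ m n : ℕ, m < n ∧ f^[m] x = f^[n] x}

/-- The parameter `t = a (w - u) ^ (d - 1)` of `a (x - u) ^ d + w`. -/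
def par (d : ℕ) (a u w : ℚ) : ℚ := a * (w - u) ^ (d - 1)

/-- The exceptional primes: the odd primes `p` dividing the denominator of `t`, say with
multiplicity `M`, such that `p ≡ 1 mod 2 ^ (v_2(m) + 1)` and not (`3 d ∣ M`, `3 ∣ v_p(d)` and
`d v_p(d) < M`). -/
def exceptional (d m : ℕ) (t : ℚ) : Finset ℕ :=
  t.den.primeFactors.filter fun p => p ≠ 2 ∧ 2 ^ (padicValNat 2 m + 1) ∣ p - 1 ∧
    ¬ (3 * d ∣ padicValNat p t.den ∧ 3 ∣ padicValNat p d ∧
      d * padicValNat p d < padicValNat p t.den)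

/-- The exceptional primes of the first kind: the odd primes `p` dividing the denominator of `t`,
say with multiplicity `M`, such that `p ≡ 1 mod 2 ^ (v_2(m) + 1)` and not (`3 d ∣ M` and
`d v_p(d) < M`). -/
def firstKind (d m : ℕ) (t : ℚ) : Finset ℕ :=
  t.den.primeFactors.filter fun p => p ≠ 2 ∧ 2 ^ (padicValNat 2 m + 1) ∣ p - 1 ∧
    ¬ (3 * d ∣ padicValNat p t.den ∧ d * padicValNat p d < padicValNat p t.den)

/-- The odd primes `p` dividing `d` with `p ≡ 1 mod 2 ^ (v_2(m) + 1)`. -/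
def relevant (d m : ℕ) : Finset ℕ :=
  d.primeFactors.filter fun p => p ≠ 2 ∧ 2 ^ (padicValNat 2 m + 1) ∣ p - 1

/-- The families: `a = 2 ^ i r ^ 3` and `3 ∣ d - 1`, or `3 d ∣ v_p(den t)` for all odd primes
`p ≡ 1 mod 2 ^ (v_2(m) + 1)`. -/
def CubeFamily (d m : ℕ) (a u w : ℚ) : Prop :=
  (3 ∣ d - 1 ∧ ∃ (i : ℤ) (r : ℚ), a = 2 ^ i * r ^ 3) ∨
    ∀ p : ℕ, p.Prime → p ≠ 2 → 2 ^ (padicValNat 2 m + 1) ∣ p - 1 →
      3 * d ∣ padicValNat p (par d a u w).den

/-- Every preperiodic point `x` or its reflection `2 u - x` is periodic, or `x = u`, `t = -2`. -/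
def ShortTails (d : ℕ) (a u w : ℚ) : Prop :=
  ∀ x ∈ preperiodic (unicritical d a u w), x ∈ periodic (unicritical d a u w) ∨
    2 * u - x ∈ periodic (unicritical d a u w) ∨ (x = u ∧ par d a u w = -2)

/-- At most two periodic and four preperiodic points, and short tails. -/
def AtMostFour (d : ℕ) (a u w : ℚ) : Prop :=
  (periodic (unicritical d a u w)).encard ≤ 2 ∧
  (preperiodic (unicritical d a u w)).encard ≤ 4 ∧ ShortTails d a u w

/-- At most three preperiodic points, at most one periodic point if `t ≠ 0, -1`, at most two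
preperiodic points if also `t ≠ -2`, and short tails. -/
def AtMostThree (d : ℕ) (a u w : ℚ) : Prop :=
  (preperiodic (unicritical d a u w)).encard ≤ 3 ∧
  (par d a u w ≠ 0 → par d a u w ≠ -1 → (periodic (unicritical d a u w)).encard ≤ 1) ∧
  (par d a u w ≠ 0 → par d a u w ≠ -1 → par d a u w ≠ -2 →
    (preperiodic (unicritical d a u w)).encard ≤ 2) ∧ ShortTails d a u w

theorem shortTails_of {d : ℕ} {a u w : ℚ} (h : UC.Shape d a (w - u)) : ShortTails d a u w := by
  intro x hx
  rcases h (x - u) (UC.mem_pre.1 hx) with h | h | ⟨h1, h2⟩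
  · exact Or.inl (UC.mem_per.2 h)
  · refine Or.inr (Or.inl (UC.mem_per.2 ?_))
    have e : 2 * u - x - u = -(x - u) := by ring
    rw [e]; exact h
  · exact Or.inr (Or.inr ⟨sub_eq_zero.1 h1, h2⟩)

theorem atMostThree_of {d m : ℕ} {a u w : ℚ} (hs : UC.Str d m) (ha : a ≠ 0) {p1 p2 : ℕ}
    (hH : UC.HypS d m a (w - u) p1 p2) : AtMostThree d a u w :=
  ⟨UC.transfer (fun x => UC.mem_pre) (UC.s_three hs ha hH),
    fun h0 h1 => by
      have := UC.transfer (P := periodic (unicritical d a u w)) (fun x => UC.mem_per)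
        (UC.s_one hs ha hH h0 h1)
      exact_mod_cast this,
    fun h0 h1 h2 => UC.transfer (fun x => UC.mem_pre) (UC.s_two hs ha hH h0 h1 h2),
    shortTails_of (UC.s_shape hs ha hH)⟩

theorem uni_zero (d : ℕ) (c : ℚ) : (fun x : ℚ => x ^ d + c) = unicritical d 1 0 c := by
  funext x
  unfold unicritical
  ring

theorem par_one (d : ℕ) (c : ℚ) : par d 1 0 c = c ^ (d - 1) := by
  unfold par
  rw [one_mul, sub_zero]

/-- the conclusion for `x ^ d + c` -/
theorem mono_of {d : ℕ} (hd : 4 ∣ d) (hd0 : d ≠ 0) {c : ℚ} (h : AtMostThree d 1 0 c) :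
    (preperiodic (fun x => x ^ d + c)).encard ≤ 3 ∧
      (c ≠ 0 → c ≠ -1 → (periodic (fun x => x ^ d + c)).encard ≤ 1 ∧
        (preperiodic (fun x => x ^ d + c)).encard ≤ 2) := by
  obtain ⟨h1, h2, h3, -⟩ := h
  rw [uni_zero]
  refine ⟨h1, fun hc0 hc1 => ?_⟩
  have hodd : Odd (d - 1) := by
    obtain ⟨q, hq⟩ := hd
    exact ⟨2 * q - 1, by omega⟩
  have hd3 : 2 ≤ d - 1 := by omega
  have e0 : par d 1 0 c ≠ 0 := by rw [par_one]; exact pow_ne_zero _ hc0
  have e1 : par d 1 0 c ≠ -1 := by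
    rw [par_one]
    intro h
    apply hc1
    apply hodd.strictMono_pow.injective
    change c ^ (d - 1) = (-1) ^ (d - 1)
    rw [h, hodd.neg_one_pow]
  have e2 : par d 1 0 c ≠ -2 := by
    rw [par_one]
    intro h
    have hfact : Fact (Nat.Prime 2) := ⟨Nat.prime_two⟩
    have hv := congrArg (padicValRat 2) h
    rw [padicValRat.pow, padicValRat.neg] at hv
    have h2' : padicValRat 2 (2 : ℚ) = 1 := by
      have : (2 : ℚ) = ((2 : ℕ) : ℚ) := by norm_num
      rw [this]
      exact padicValRat.self (by norm_num)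
    rw [h2'] at hv
    have hdv : ((d - 1 : ℕ) : ℤ) ∣ 1 := ⟨_, hv.symm⟩
    have := Int.le_of_dvd one_pos hdv
    omega
  exact ⟨h2 e0 e1, h3 e0 e1 e2⟩

theorem zpow_zero_mul : (2 : ℚ) ^ (0 : ℤ) = 1 := by norm_num

/-- **Main theorem.** -/
theorem result :
    -- (1) the number of periodic points in terms of the exceptional primes
    (∀ (d : ℕ) (a u w : ℚ), d ≠ 0 → a ≠ 0 →
      (4 ∣ d → (periodic (unicritical d a u w)).encard ≤
        ((2 * ∏ p ∈ exceptional d (d / 4) (par d a u w), Nat.gcd 4 (p - 1) : ℕ) : ℕ∞)) ∧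
      (8 ∣ d → (periodic (unicritical d a u w)).encard ≤
        ((max 2 (∏ p ∈ exceptional d (d / 4) (par d a u w), Nat.gcd 4 (p - 1)) : ℕ) : ℕ∞)) ∧
      (6 ∣ d → (periodic (unicritical d a u w)).encard ≤
        ((2 * 2 ^ (exceptional d (d / 2) (par d a u w)).card : ℕ) : ℕ∞)) ∧
      (12 ∣ d → (periodic (unicritical d a u w)).encard ≤
        ((max 2 (2 ^ (exceptional d (d / 2) (par d a u w)).card) : ℕ) : ℕ∞))) ∧
    -- (2) no or one exceptional prime
    (∀ (d m : ℕ) (a u w : ℚ), d ≠ 0 → a ≠ 0 → (4 ∣ d ∧ m = d / 4) ∨ (6 ∣ d ∧ m = d / 2) →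
      (exceptional d m (par d a u w) = ∅ → AtMostFour d a u w) ∧
      (firstKind d m (par d a u w) = ∅ → (exceptional d m (par d a u w)).card ≤ 1 →
        (periodic (unicritical d a u w)).encard ≤ 4)) ∧
    -- (3) at most two exceptional primes, none of the first kind
    (∀ (d m : ℕ) (a u w : ℚ), d ≠ 0 → a ≠ 0 → (8 ∣ d ∧ m = d / 4) ∨ (12 ∣ d ∧ m = d / 2) →
      firstKind d m (par d a u w) = ∅ → (exceptional d m (par d a u w)).card ≤ 2 →
        AtMostThree d a u w) ∧
    -- the exceptional primes of `(A x ^ d + B) / V`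
    (∀ (d m V : ℕ) (A B : ℤ), d ≠ 0 → 0 < V → IsCoprime (A * B) (V : ℤ) →
      exceptional d m (par d ((A : ℚ) / (V : ℚ)) 0 ((B : ℚ) / (V : ℚ))) =
        V.primeFactors.filter fun p => p ≠ 2 ∧ 2 ^ (padicValNat 2 m + 1) ∣ p - 1 ∧
          ¬ (3 ∣ padicValNat p V ∧ 3 ∣ padicValNat p d ∧ padicValNat p d < padicValNat p V)) ∧
    -- (4) bounds in terms of `d` in the cube families
    (∀ (d : ℕ) (a u w : ℚ), d ≠ 0 → a ≠ 0 →
      (4 ∣ d → CubeFamily d (d / 4) a u w → (periodic (unicritical d a u w)).encard ≤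
        ((2 * ∏ p ∈ relevant d (d / 4), Nat.gcd 4 (p - 1) : ℕ) : ℕ∞)) ∧
      (8 ∣ d → CubeFamily d (d / 4) a u w → (periodic (unicritical d a u w)).encard ≤
        ((max 2 (∏ p ∈ relevant d (d / 4), Nat.gcd 4 (p - 1)) : ℕ) : ℕ∞)) ∧
      (6 ∣ d → CubeFamily d (d / 2) a u w → (periodic (unicritical d a u w)).encard ≤
        ((2 * 2 ^ (relevant d (d / 2)).card : ℕ) : ℕ∞)) ∧
      (12 ∣ d → CubeFamily d (d / 2) a u w → (periodic (unicritical d a u w)).encard ≤
        ((max 2 (2 ^ (relevant d (d / 2)).card) : ℕ) : ℕ∞))) ∧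
    (∀ (d m : ℕ) (a u w : ℚ), d ≠ 0 → a ≠ 0 → (4 ∣ d ∧ m = d / 4) ∨ (6 ∣ d ∧ m = d / 2) →
      CubeFamily d m a u w →
      (relevant d m = ∅ → AtMostFour d a u w) ∧
      ((∀ p ∈ relevant d m, padicValNat p d ≤ 2) → (relevant d m).card ≤ 1 →
        (periodic (unicritical d a u w)).encard ≤ 4)) ∧
    (∀ (d m : ℕ) (a u w : ℚ), d ≠ 0 → a ≠ 0 → (8 ∣ d ∧ m = d / 4) ∨ (12 ∣ d ∧ m = d / 2) →
      CubeFamily d m a u w → (∀ p ∈ relevant d m, padicValNat p d ≤ 2) →
        (relevant d m).card ≤ 2 → AtMostThree d a u w) ∧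
    -- (5) degree `4 ^ k`, `a = 2 ^ i r ^ 3`
    (∀ (k : ℕ) (i : ℤ) (r u w : ℚ), 1 ≤ k → r ≠ 0 →
      AtMostFour (4 ^ k) (2 ^ i * r ^ 3) u w ∧
      (2 ≤ k → AtMostThree (4 ^ k) (2 ^ i * r ^ 3) u w)) ∧
    (∀ (k : ℕ) (c : ℚ), 1 ≤ k → (periodic (fun x => x ^ 4 ^ k + c)).encard ≤ 2 ∧
      (preperiodic (fun x => x ^ 4 ^ k + c)).encard ≤ 4) ∧
    (∀ (k : ℕ) (c : ℚ), 2 ≤ k → (preperiodic (fun x => x ^ 4 ^ k + c)).encard ≤ 3 ∧
      (c ≠ 0 → c ≠ -1 → (periodic (fun x => x ^ 4 ^ k + c)).encard ≤ 1 ∧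
        (preperiodic (fun x => x ^ 4 ^ k + c)).encard ≤ 2)) ∧
    -- (6) degrees congruent to `16` modulo `24`, `a = 2 ^ i`
    (∀ (d : ℕ), d % 24 = 16 →
      (((relevant d (d / 4)).filter fun p => ¬ 3 ∣ padicValNat p d).card ≤ 2 ∨ d < 19240) →
      (∀ (i : ℤ) (u w : ℚ), AtMostThree d (2 ^ i) u w) ∧
      ∀ c : ℚ, (preperiodic (fun x => x ^ d + c)).encard ≤ 3 ∧
        (c ≠ 0 → c ≠ -1 → (periodic (fun x => x ^ d + c)).encard ≤ 1 ∧
          (preperiodic (fun x => x ^ d + c)).encard ≤ 2)) ∧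
    -- sharpness
    ((periodic (fun x => x ^ 4 + (-19561 / 10000))).encard = 2 ∧
      (preperiodic (fun x => x ^ 4 + (-19561 / 10000))).encard = 4 ∧
      ∀ k : ℕ, 2 ≤ k → (preperiodic (fun x => x ^ 4 ^ k + (-1))).encard = 3) := by
  have h5 : ∀ (k : ℕ) (i : ℤ) (r u w : ℚ), 1 ≤ k → r ≠ 0 →
      AtMostFour (4 ^ k) (2 ^ i * r ^ 3) u w ∧
      (2 ≤ k → AtMostThree (4 ^ k) (2 ^ i * r ^ 3) u w) := by
    intro k i r u w hk hr
    have hc : ∀ m, UC.CubeF (4 ^ k) m (2 ^ i * r ^ 3) (w - u) :=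
      fun m => Or.inl ⟨UC.three_dvd_pow_four k, i, r, rfl⟩
    have ha : (2 : ℚ) ^ i * r ^ 3 ≠ 0 :=
      mul_ne_zero (zpow_ne_zero _ (by norm_num)) (pow_ne_zero _ hr)
    have hd0 : 4 ^ k ≠ 0 := pow_ne_zero k (by norm_num)
    have hm : (4 ∣ 4 ^ k ∧ 4 ^ k / 4 = 4 ^ k / 4) ∨ (6 ∣ 4 ^ k ∧ 4 ^ k / 4 = 4 ^ k / 2) :=
      Or.inl ⟨dvd_pow_self 4 (by omega), rfl⟩
    refine ⟨⟨UC.transfer (fun x => UC.mem_per) (UC.cube_per hm (hc _) hd0 ha
        (UC.relp_pow_four k _)),
      UC.transfer (fun x => UC.mem_pre) (UC.cube_pre hm (hc _) hd0 ha (UC.relp_pow_four k _)),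
      shortTails_of (UC.cube_shape hm (hc _) hd0 ha (UC.relp_pow_four k _))⟩, fun hk2 => ?_⟩
    obtain ⟨j, rfl⟩ : ∃ j, k = j + 2 := ⟨k - 2, by omega⟩
    exact atMostThree_of (UC.str_of_eight hd0 ⟨2 * 4 ^ j, by ring⟩) ha
      ((hc _).hypS hd0 ha (by rw [UC.relp_pow_four]; simp) (p1 := 0) (p2 := 0)
        (by rw [UC.relp_pow_four]; exact Finset.empty_subset _))
  have hone : (2 : ℚ) ^ (0 : ℤ) * 1 ^ 3 = 1 := by norm_num
  have h6 : ∀ (k : ℕ) (c : ℚ), 1 ≤ k → (periodic (fun x => x ^ 4 ^ k + c)).encard ≤ 2 ∧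
      (preperiodic (fun x => x ^ 4 ^ k + c)).encard ≤ 4 := by
    intro k c hk
    have h := (h5 k 0 1 0 c hk one_ne_zero).1
    rw [hone] at h
    rw [uni_zero]
    exact ⟨h.1, h.2.1⟩
  have h7 : ∀ (k : ℕ) (c : ℚ), 2 ≤ k → (preperiodic (fun x => x ^ 4 ^ k + c)).encard ≤ 3 ∧
      (c ≠ 0 → c ≠ -1 → (periodic (fun x => x ^ 4 ^ k + c)).encard ≤ 1 ∧
        (preperiodic (fun x => x ^ 4 ^ k + c)).encard ≤ 2) := by
    intro k c hk
    have h := (h5 k 0 1 0 c (by omega) one_ne_zero).2 hk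
    rw [hone] at h
    exact mono_of (dvd_pow_self 4 (by omega)) (pow_ne_zero k (by norm_num)) h
  refine ⟨?_, ?_, ?_, ?_, ?_, ?_, ?_, h5, h6, h7, ?_, ?_, ?_, ?_⟩
  · intro d a u w hd0 ha
    have hb : ∀ m, UC.Big d m a (w - u) (exceptional d m (par d a u w)) :=
      fun m => UC.big_exc hd0 m a (w - u)
    exact ⟨fun hd => UC.transfer (fun x => UC.mem_per) (UC.per_A hd hd0 ha (hb _)),
      fun hd => UC.transfer (fun x => UC.mem_per) (UC.per_A8 hd hd0 ha (hb _)),
      fun hd => UC.transfer (fun x => UC.mem_per) (UC.per_B hd hd0 ha (hb _)),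
      fun hd => UC.transfer (fun x => UC.mem_per) (UC.per_B12 hd hd0 ha (hb _))⟩
  · intro d m a u w hd0 ha hm
    refine ⟨fun hE => ?_, fun h1 h2 => ?_⟩
    · have hN : UC.NoExc d (a * (w - u) ^ (d - 1)) := by
        rcases hm with ⟨h, rfl⟩ | ⟨h, rfl⟩
        · exact Or.inl ⟨h, hE⟩
        · exact Or.inr ⟨h, hE⟩
      exact ⟨UC.transfer (fun x => UC.mem_per) (UC.no_per hd0 ha hN),
        UC.transfer (fun x => UC.mem_pre) (UC.no_pre hd0 ha hN),
        shortTails_of (UC.no_shape hd0 ha hN)⟩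
    · obtain ⟨p, hp⟩ := UC.card_le_one_pair h2
      exact UC.transfer (fun x => UC.mem_per)
        (UC.per_W (UC.wk_of hd0 hm) ha (UC.hypS_exc hd0 h1 hp))
  · intro d m a u w hd0 ha hm h1 h2
    obtain ⟨p, q, hpq⟩ := UC.subset_pair h2
    exact atMostThree_of (UC.str_of hd0 hm) ha (UC.hypS_exc hd0 h1 hpq)
  · intro d m V A B hd0 hV hcop
    have h := UC.exc_normal m hd0 hV hcop
    unfold par
    rw [sub_zero]
    exact h
  · intro d a u w hd0 ha
    exact ⟨fun hd hc => UC.transfer (fun x => UC.mem_per)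
        (UC.per_A hd hd0 ha (UC.CubeF.big (c := w - u) hc hd0 ha)),
      fun hd hc => UC.transfer (fun x => UC.mem_per)
        (UC.per_A8 hd hd0 ha (UC.CubeF.big (c := w - u) hc hd0 ha)),
      fun hd hc => UC.transfer (fun x => UC.mem_per)
        (UC.per_B hd hd0 ha (UC.CubeF.big (c := w - u) hc hd0 ha)),
      fun hd hc => UC.transfer (fun x => UC.mem_per)
        (UC.per_B12 hd hd0 ha (UC.CubeF.big (c := w - u) hc hd0 ha))⟩
  · intro d m a u w hd0 ha hm hc
    have hc' : UC.CubeF d m a (w - u) := hc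
    refine ⟨fun hE => ?_, fun hv h1 => ?_⟩
    · exact ⟨UC.transfer (fun x => UC.mem_per) (UC.cube_per hm hc' hd0 ha hE),
        UC.transfer (fun x => UC.mem_pre) (UC.cube_pre hm hc' hd0 ha hE),
        shortTails_of (UC.cube_shape hm hc' hd0 ha hE)⟩
    · obtain ⟨p, hp⟩ := UC.card_le_one_pair h1
      exact UC.transfer (fun x => UC.mem_per)
        (UC.per_W (UC.wk_of hd0 hm) ha (hc'.hypS hd0 ha hv hp))
  · intro d m a u w hd0 ha hm hc hv h2
    have hc' : UC.CubeF d m a (w - u) := hc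
    obtain ⟨p, q, hpq⟩ := UC.subset_pair h2
    exact atMostThree_of (UC.str_of hd0 hm) ha (hc'.hypS hd0 ha hv hpq)
  · intro d h16 hE
    have h8 : 8 ∣ d := by omega
    have hd0 : d ≠ 0 := by omega
    have hE' : (UC.excd d (d / 4)).card ≤ 2 := by
      rcases hE with hE | hE
      · refine (Finset.card_le_card ?_).trans hE
        intro p hp
        unfold UC.excd at hp
        unfold relevant
        rw [Finset.mem_filter] at hp
        rw [Finset.mem_filter, Finset.mem_filter]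
        exact ⟨⟨hp.1, hp.2.1, hp.2.2.1⟩, hp.2.2.2⟩
      · exact UC.excd_le_two h16 hE
    obtain ⟨p, q, hpq⟩ := UC.subset_pair hE'
    have hmain : ∀ (i : ℤ) (u w : ℚ), AtMostThree d (2 ^ i) u w := fun i u w =>
      atMostThree_of (UC.str_of_eight hd0 h8) (zpow_ne_zero _ (by norm_num))
        (UC.hypS_mono (by omega) (by omega) i (w - u) hpq)
    refine ⟨hmain, fun c => mono_of (by omega) hd0 ?_⟩
    have := hmain 0 0 c
    rwa [zpow_zero_mul] at this
  · apply le_antisymm
    · have := (h6 1 (-19561 / 10000) le_rfl).1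
      rwa [pow_one] at this
    · have h : ({-13 / 10, 9 / 10} : Set ℚ) ⊆ periodic (fun x => x ^ 4 + (-19561 / 10000)) := by
        intro x hx
        rw [uni_zero]
        refine UC.mem_per.2 ?_
        rw [sub_zero, sub_zero]
        exact UC.ex_per x hx
      have h2 : ({-13 / 10, 9 / 10} : Set ℚ).encard = 2 :=
        Set.encard_pair (by norm_num)
      rw [← h2]
      exact Set.encard_le_encard h
  · apply le_antisymm
    · have := (h6 1 (-19561 / 10000) le_rfl).2
      rwa [pow_one] at this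
    · have h : (({-13 / 10, 9 / 10, 13 / 10, -9 / 10} : Finset ℚ) : Set ℚ) ⊆
          preperiodic (fun x => x ^ 4 + (-19561 / 10000)) := by
        intro x hx
        rw [uni_zero]
        refine UC.mem_pre.2 ?_
        rw [sub_zero, sub_zero]
        apply UC.ex_pre x
        simpa using hx
      have h2 : (({-13 / 10, 9 / 10, 13 / 10, -9 / 10} : Finset ℚ) : Set ℚ).encard = 4 := by
        rw [Set.encard_coe_eq_coe_finsetCard]
        have : ({-13 / 10, 9 / 10, 13 / 10, -9 / 10} : Finset ℚ).card = 4 := by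
          rw [Finset.card_insert_of_notMem, Finset.card_insert_of_notMem,
            Finset.card_insert_of_notMem, Finset.card_singleton]
          all_goals norm_num
        rw [this]; rfl
      rw [← h2]
      exact Set.encard_le_encard h
  · intro k hk
    apply le_antisymm (h7 k (-1) hk).1
    have hp0 : 4 ^ k ≠ 0 := pow_ne_zero _ (by norm_num)
    have hev : Even (4 ^ k) := by
      obtain ⟨m, rfl⟩ : ∃ m, k = m + 1 := ⟨k - 1, by omega⟩
      exact ⟨2 * 4 ^ m, by ring⟩
    have h : (({0, 1, -1} : Finset ℚ) : Set ℚ) ⊆ preperiodic (fun x => x ^ 4 ^ k + (-1)) := by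
      intro x hx
      have hx' : x = 0 ∨ x = 1 ∨ x = -1 := by simpa using hx
      refine ⟨1, 3, by norm_num, ?_⟩
      have e3 : (fun x : ℚ => x ^ 4 ^ k + (-1))^[3] x =
        ((x ^ 4 ^ k + (-1)) ^ 4 ^ k + (-1)) ^ 4 ^ k + (-1) := rfl
      rw [Function.iterate_one, e3]
      rcases hx' with rfl | rfl | rfl
      · rw [zero_pow hp0, zero_add, hev.neg_one_pow, add_neg_cancel, zero_pow hp0, zero_add]
      · rw [one_pow, add_neg_cancel, zero_pow hp0, zero_add, hev.neg_one_pow, add_neg_cancel]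
      · rw [hev.neg_one_pow, add_neg_cancel, zero_pow hp0, zero_add, hev.neg_one_pow,
          add_neg_cancel]
    have h2 : (({0, 1, -1} : Finset ℚ) : Set ℚ).encard = 3 := by
      rw [Set.encard_coe_eq_coe_finsetCard]
      have : ({0, 1, -1} : Finset ℚ).card = 3 := by
        rw [Finset.card_insert_of_notMem, Finset.card_insert_of_notMem, Finset.card_singleton]
        all_goals norm_num
      rw [this]; rfl
    rw [← h2]
    exact Set.encard_le_encard h

end Pool.Agent.W2helper83.UC.Kept
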