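import Pool.Agent.W2helper83.UC.Cube

/-!
# `X⁴ + Y⁴ = Z³` (Lucas)
-/

set_option autoImplicit false

namespace Pool.Agent.W2helper83.UC

theorem mod8_e : ∀ u t j : ZMod 8, ¬ u ^ 2 = t ^ 4 - 3 * (2 * j + 1) ^ 4 := by
  decide +kernel

theorem mod4_a : ∀ t j n : ZMod 4, ¬ t ^ 2 = 3 * (2 * j + 1) ^ 4 + 4 * n ^ 4 := by
  decide +kernel

/-- `u² = t⁴ - 3 s⁴` -/
theorem quart3 : ∀ (m : ℕ) (u t s : ℤ), s.natAbs = m → IsCoprime t s →
    u ^ 2 = t ^ 4 - 3 * s ^ 4 → s = 0 := by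
  intro m
  induction m using Nat.strong_induction_on with
  | _ m ih =>
    intro u t s hm hc h
    by_contra hs0
    have hseven : ∃ s1, s = 2 * s1 := by
      rcases Int.even_or_odd' s with ⟨j, hj | hj⟩
      · exact ⟨j, hj⟩
      · exfalso
        rw [hj] at h
        have h1 := congrArg (Int.cast : ℤ → ZMod 8) h
        push_cast at h1
        exact mod8_e u t j h1
    obtain ⟨s1, rfl⟩ := hseven
    have hs1 : s1 ≠ 0 := by rintro rfl; simp at hs0
    have ht2 : ¬ (2 : ℤ) ∣ t := fun h2 =>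
      Int.prime_two.not_isUnit (hc.isUnit_of_dvd' h2 (dvd_mul_right 2 s1))
    have ht3 : ¬ (3 : ℤ) ∣ t := by
      rintro ⟨t1, rfl⟩
      have h3s : ¬ (3 : ℤ) ∣ 2 * s1 := fun h3 =>
        three_prime.not_isUnit (hc.isUnit_of_dvd' (dvd_mul_right 3 t1) h3)
      apply h3s
      obtain ⟨u1, rfl⟩ : (3 : ℤ) ∣ u := by
        apply three_prime.dvd_of_dvd_pow (n := 2)
        exact ⟨27 * t1 ^ 4 - (2 * s1) ^ 4, by rw [h]; ring⟩
      apply three_prime.dvd_of_dvd_pow (n := 4)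
      exact ⟨9 * t1 ^ 4 - u1 ^ 2, by linarith⟩
    have hu2 : ¬ (2 : ℤ) ∣ u := by
      rintro ⟨u', rfl⟩
      apply ht2
      apply Int.prime_two.dvd_of_dvd_pow (n := 4)
      exact ⟨2 * u' ^ 2 + 24 * s1 ^ 4, by linarith⟩
    wlog hupos : 0 < u generalizing u
    · exact this (-u) (by rw [neg_sq]; exact h) (by omega) (by omega)
    obtain ⟨i, hi⟩ : ∃ i, t = 2 * i + 1 := ⟨t / 2, by omega⟩
    obtain ⟨j, hj⟩ : ∃ j, u = 2 * j + 1 := ⟨u / 2, by omega⟩
    set P := 2 * i ^ 2 + 2 * i - j with hP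
    set Q := 2 * i ^ 2 + 2 * i + j + 1 with hQ
    have hPQs : P + Q = t ^ 2 := by rw [hi, hP, hQ]; ring
    have hPQd : Q - P = u := by rw [hj, hP, hQ]; ring
    have hPQ : P * Q = 12 * s1 ^ 4 := by
      have h1 : 4 * (P * Q) = (P + Q) ^ 2 - (Q - P) ^ 2 := by ring
      rw [hPQs, hPQd, h] at h1
      linarith
    have ht0 : t ≠ 0 := by rintro rfl; exact ht2 (dvd_zero _)
    have hprod : 0 < P * Q := by rw [hPQ]; positivity
    have hsum : 0 < P + Q := by rw [hPQs]; positivity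
    have hQpos : 0 < Q := by
      by_contra hcon
      have hP0 : 0 < P := by omega
      have := mul_nonpos_of_nonneg_of_nonpos hP0.le (not_lt.1 hcon)
      linarith
    have hPpos : 0 < P := by
      by_contra h4
      have := mul_nonpos_of_nonpos_of_nonneg (not_lt.1 h4) hQpos.le
      linarith
    have hcop : IsCoprime P Q := by
      apply cop_of _ hQpos.ne'
      intro z hz h1 h2
      have h4 : z ∣ t := hz.dvd_of_dvd_pow (n := 2) (by rw [← hPQs]; exact dvd_add h1 h2)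
      have h5 : z ∣ 12 * s1 ^ 4 := by rw [← hPQ]; exact Dvd.dvd.mul_right h1 _
      rcases hz.dvd_or_dvd h5 with h6 | h6
      · have h7 : z ∣ (2 : ℤ) ^ 2 * 3 := by norm_num; exact h6
        rcases hz.dvd_or_dvd h7 with h8 | h8
        · exact ht2 ((assoc_two hz (hz.dvd_of_dvd_pow h8)).trans h4)
        · exact ht3 ((assoc_three hz h8).trans h4)
      · exact hz.not_isUnit (hc.isUnit_of_dvd' h4 (Dvd.dvd.mul_left (hz.dvd_of_dvd_pow h6) 2))
    -- the splitting
    have key : ∀ P Q : ℤ, 0 < P → 0 < Q → IsCoprime P Q → P + Q = t ^ 2 → P * Q = 12 * s1 ^ 4 →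
        (3 : ℤ) ∣ P → ∃ m n : ℤ, t ^ 2 = 12 * m ^ 4 + n ^ 4 ∧ s1 ^ 2 = m ^ 2 * n ^ 2 ∧
          IsCoprime (12 * m ^ 4) (n ^ 4) := by
      intro P Q hP hQ hcop hs hp h3
      have h3Q : ¬ (3 : ℤ) ∣ Q := fun h => three_prime.not_isUnit (hcop.isUnit_of_dvd' h3 h)
      by_cases h2 : (2 : ℤ) ∣ P
      · have h2Q : ¬ (2 : ℤ) ∣ Q := fun h => Int.prime_two.not_isUnit (hcop.isUnit_of_dvd' h2 h)
        have hc12 : IsCoprime (12 : ℤ) Q := by
          have e1 : IsCoprime (3 : ℤ) Q := three_prime.coprime_iff_not_dvd.2 h3Q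
          have e2 : IsCoprime (2 : ℤ) Q := Int.prime_two.coprime_iff_not_dvd.2 h2Q
          have e3 : IsCoprime ((2 : ℤ) ^ 2 * 3) Q := (e2.pow_left).mul_left e1
          norm_num at e3
          exact e3
        obtain ⟨P', rfl⟩ : (12 : ℤ) ∣ P := hc12.dvd_of_dvd_mul_right ⟨_, hp⟩
        have hP' : 0 < P' := by omega
        have e1 : P' * Q = s1 ^ 4 := by linarith
        have e2 : IsCoprime P' Q := hcop.of_mul_left_right
        obtain ⟨m, -, hm⟩ := pow_of_coprime e2 hP'.le e1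
        obtain ⟨n, -, hn⟩ := pow_of_coprime e2.symm hQ.le (by rw [mul_comm]; exact e1)
        refine ⟨m, n, by rw [← hm, ← hn, hs], ?_, by rw [← hm, ← hn]; exact hcop⟩
        have h5 : (s1 ^ 2) ^ 2 = (m ^ 2 * n ^ 2) ^ 2 := by
          rw [hm, hn] at e1
          linear_combination -e1
        exact (pow_left_inj₀ (by positivity) (by positivity) (by norm_num)).1 h5
      · exfalso
        obtain ⟨P', rfl⟩ := h3
        have hP' : 0 < P' := by omega
        have e0 : IsCoprime ((2 : ℤ) ^ 2) (3 * P') :=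
          (Int.prime_two.coprime_iff_not_dvd.2 h2).pow_left
        norm_num at e0
        obtain ⟨Q', rfl⟩ : (4 : ℤ) ∣ Q := e0.dvd_of_dvd_mul_left ⟨3 * s1 ^ 4, by rw [hp]; ring⟩
        have hQ' : 0 < Q' := by omega
        have e1 : P' * Q' = s1 ^ 4 := by linarith
        have e2 : IsCoprime P' Q' := hcop.of_mul_left_right.of_mul_right_right
        obtain ⟨m, -, hm⟩ := pow_of_coprime e2 hP'.le e1
        obtain ⟨n, -, hn⟩ := pow_of_coprime e2.symm hQ'.le (by rw [mul_comm]; exact e1)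
        have hmodd : ¬ (2 : ℤ) ∣ m := by
          intro h
          apply h2
          rw [hm]
          exact Dvd.dvd.mul_left (dvd_pow h (by norm_num)) 3
        obtain ⟨j, hj⟩ : ∃ j, m = 2 * j + 1 := ⟨m / 2, by omega⟩
        have h6 : t ^ 2 = 3 * (2 * j + 1) ^ 4 + 4 * n ^ 4 := by rw [← hs, hm, hn, hj]
        have h7 := congrArg (Int.cast : ℤ → ZMod 4) h6
        push_cast at h7
        exact mod4_a t j n h7
    obtain ⟨m', n, h1, h2, h4⟩ : ∃ m n : ℤ, t ^ 2 = 12 * m ^ 4 + n ^ 4 ∧ s1 ^ 2 = m ^ 2 * n ^ 2 ∧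
          IsCoprime (12 * m ^ 4) (n ^ 4) := by
      have h5 : (3 : ℤ) ∣ P * Q := by rw [hPQ]; exact ⟨4 * s1 ^ 4, by ring⟩
      rcases three_prime.dvd_or_dvd h5 with h6 | h6
      · exact key P Q hPpos hQpos hcop hPQs hPQ h6
      · exact key Q P hQpos hPpos hcop.symm (by rw [add_comm]; exact hPQs)
          (by rw [mul_comm]; exact hPQ) h6
    have hm0 : m' ≠ 0 := by
      rintro rfl
      apply hs1
      have : s1 ^ 2 = 0 := by rw [h2]; ring
      exact pow_eq_zero_iff (by norm_num) |>.1 this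
    have hn0 : n ≠ 0 := by
      rintro rfl
      apply hs1
      have : s1 ^ 2 = 0 := by rw [h2]; ring
      exact pow_eq_zero_iff (by norm_num) |>.1 this
    have hn2 : ¬ (2 : ℤ) ∣ n := fun h => Int.prime_two.not_isUnit
      (h4.isUnit_of_dvd' ⟨6 * m' ^ 4, by ring⟩ (dvd_pow h (by norm_num)))
    have hn3 : ¬ (3 : ℤ) ∣ n := fun h => three_prime.not_isUnit
      (h4.isUnit_of_dvd' ⟨4 * m' ^ 4, by ring⟩ (dvd_pow h (by norm_num)))
    have hmn : IsCoprime m' n :=
      (IsCoprime.pow_iff (by norm_num) (by norm_num)).1 h4.of_mul_left_right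
    -- second step
    obtain ⟨T, hT, hTt⟩ : ∃ T : ℤ, 0 < T ∧ T ^ 2 = t ^ 2 :=
      ⟨|t|, abs_pos.2 ht0, sq_abs t⟩
    have hT2 : ¬ (2 : ℤ) ∣ T := by
      intro h
      apply ht2
      apply Int.prime_two.dvd_of_dvd_pow (n := 2)
      rw [← hTt]; exact dvd_pow h (by norm_num)
    obtain ⟨k, hk⟩ : ∃ k, T = 2 * k + 1 := ⟨T / 2, by omega⟩
    obtain ⟨l, hl⟩ : ∃ l, n = 2 * l + 1 := ⟨n / 2, by omega⟩
    set R := k - (2 * l ^ 2 + 2 * l) with hR
    set S := k + (2 * l ^ 2 + 2 * l) + 1 with hS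
    have hRS1 : S - R = n ^ 2 := by rw [hl, hR, hS]; ring
    have hRS2 : R + S = T := by rw [hk, hR, hS]; ring
    have hRS : R * S = 3 * 1 ^ 2 * m' ^ 4 := by
      have e1 : 4 * (R * S) = (R + S) ^ 2 - (S - R) ^ 2 := by ring
      rw [hRS2, hRS1, hTt, h1] at e1
      linarith
    have hprod2 : 0 < R * S := by rw [hRS]; positivity
    have hSpos : 0 < S := by
      by_contra hcon
      have hP0 : 0 < R := by omega
      have := mul_nonpos_of_nonneg_of_nonpos hP0.le (not_lt.1 hcon)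
      linarith
    have hRpos : 0 < R := by
      by_contra h4
      have := mul_nonpos_of_nonpos_of_nonneg (not_lt.1 h4) hSpos.le
      linarith
    have hcop2 : IsCoprime R S := by
      apply cop_of _ hSpos.ne'
      intro z hz e1 e2
      have e3 : z ∣ n := hz.dvd_of_dvd_pow (n := 2) (by rw [← hRS1]; exact dvd_sub e2 e1)
      have e4 : z ∣ 3 * 1 ^ 2 * m' ^ 4 := by rw [← hRS]; exact Dvd.dvd.mul_right e1 _
      rcases prime_dvd_case (Or.inl rfl) hz e4 with h | h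
      · exact hn3 (h.trans e3)
      · exact hz.not_isUnit (hmn.isUnit_of_dvd' (hz.dvd_of_dvd_pow h) e3)
    by_cases h3R : (3 : ℤ) ∣ R
    · have h3S : ¬ (3 : ℤ) ∣ S := fun h => three_prime.not_isUnit (hcop2.isUnit_of_dvd' h3R h)
      obtain ⟨r, w, hr, hw, hrw⟩ := split4 (Or.inl rfl) hSpos hRpos hcop2.symm
        (by rw [mul_comm]; exact hRS) h3S
      have hnew : n ^ 2 = r ^ 4 - 3 * w ^ 4 := by rw [← hRS1, hr, hw]; ring
      have hcrw : IsCoprime r w := by
        have e1 := hcop2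
        rw [hr, hw] at e1
        have e2 : IsCoprime (w ^ 4) (r ^ 4) := e1.of_mul_left_right
        exact ((IsCoprime.pow_iff (by norm_num) (by norm_num)).1 e2).symm
      have hw0 : w ≠ 0 := by
        rintro rfl
        apply hm0
        have : m' ^ 2 = 0 := by rw [hrw]; ring
        exact pow_eq_zero_iff (by norm_num) |>.1 this
      have hr0 : r ≠ 0 := by
        rintro rfl
        apply hm0
        have : m' ^ 2 = 0 := by rw [hrw]; ring
        exact pow_eq_zero_iff (by norm_num) |>.1 this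
      have hlt : w.natAbs < (2 * s1).natAbs := by
        rw [Int.natAbs_lt_iff_sq_lt]
        have e1 : (2 * s1) ^ 2 = 4 * ((r ^ 2 * n ^ 2) * w ^ 2) := by
          have : (2 * s1) ^ 2 = 4 * s1 ^ 2 := by ring
          rw [this, h2, hrw]; ring
        rw [e1]
        have e2 : 0 < r ^ 2 * n ^ 2 := by positivity
        have e4 : 0 < w ^ 2 := by positivity
        nlinarith
      exact hw0 (ih _ (by rw [← hm]; exact hlt) n r w rfl hcrw hnew)
    · obtain ⟨r, w, hr, hw, hrw⟩ := split4 (Or.inl rfl) hRpos hSpos hcop2 hRS h3R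
      apply hn3
      have e1 : n ^ 2 = 3 * w ^ 4 - r ^ 4 := by rw [← hRS1, hr, hw]; ring
      have e2 := congrArg (Int.cast : ℤ → ZMod 3) e1
      push_cast at e2
      have h30 : (3 : ZMod 3) = 0 := by decide
      rw [h30] at e2
      have e4 : -(r : ZMod 3) ^ 4 = (n : ZMod 3) ^ 2 := by linear_combination -e2
      have e5 := mod3_a _ _ e4
      exact (ZMod.intCast_zmod_eq_zero_iff_dvd n 3).1 e5

/-! ### Gaussian integers -/

theorem gauss_unit_cube {u : GaussianInt} (hu : IsUnit u) : ∃ w : GaussianInt, u = w ^ 3 := by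
  have h1 : u.norm.natAbs = 1 := Zsqrtd.isUnit_iff_norm_isUnit u |>.1 hu |> Int.isUnit_iff_natAbs_eq.1
  obtain ⟨x, y⟩ := u
  have h2 : (Zsqrtd.norm (⟨x, y⟩ : GaussianInt)) = x ^ 2 + y ^ 2 := by
    simp [Zsqrtd.norm]; ring
  rw [h2] at h1
  have h3 : x ^ 2 + y ^ 2 = 1 := by
    have : 0 ≤ x ^ 2 + y ^ 2 := by positivity
    omega
  have hx : x = 0 ∨ x = 1 ∨ x = -1 := by
    have e1 : x ^ 2 ≤ 1 := by nlinarith [sq_nonneg y]
    have e2 : |x| ≤ 1 := by
      rw [← sq_abs] at e1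
      nlinarith [abs_nonneg x]
    rw [abs_le] at e2
    omega
  have hy : y = 0 ∨ y = 1 ∨ y = -1 := by
    have e1 : y ^ 2 ≤ 1 := by nlinarith [sq_nonneg x]
    have e2 : |y| ≤ 1 := by
      rw [← sq_abs] at e1
      nlinarith [abs_nonneg y]
    rw [abs_le] at e2
    omega
  rcases hx with rfl | rfl | rfl <;> rcases hy with rfl | rfl | rfl
  all_goals first
    | (exfalso; norm_num at h3; done)
    | exact ⟨⟨1, 0⟩, by decide⟩
    | exact ⟨⟨-1, 0⟩, by decide⟩
    | exact ⟨⟨0, 1⟩, by decide⟩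
    | exact ⟨⟨0, -1⟩, by decide⟩

/-- the Gaussian factorization -/
theorem gauss_cube {x y z : ℤ} (hc : IsCoprime x y) (hz : ¬ (2 : ℤ) ∣ z)
    (h : x ^ 2 + y ^ 2 = z ^ 3) :
    ∃ a b : ℤ, x = a * (a ^ 2 - 3 * b ^ 2) ∧ y = b * (3 * a ^ 2 - b ^ 2) := by
  obtain ⟨s, t, hst⟩ := hc
  obtain ⟨k, hk⟩ : ∃ k, z ^ 3 = 2 * k + 1 := by
    obtain ⟨j, hj⟩ : ∃ j, z = 2 * j + 1 := ⟨z / 2, by omega⟩
    exact ⟨4 * j ^ 3 + 6 * j ^ 2 + 3 * j, by rw [hj]; ring⟩
  have hcop : IsCoprime (⟨x, y⟩ : GaussianInt) ⟨x, -y⟩ := by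
    refine ⟨⟨x - k * s, -y + k * t⟩, ⟨-k * s, -k * t⟩, ?_⟩
    ext
    · simp [Zsqrtd.re_mul]
      have : 2 * k * (s * x + t * y) = 2 * k := by rw [hst]; ring
      linear_combination h + hk - this
    · simp [Zsqrtd.im_mul]
      ring
  have hprod : (⟨x, y⟩ : GaussianInt) * ⟨x, -y⟩ = (⟨z, 0⟩ : GaussianInt) ^ 3 := by
    ext
    · simp [Zsqrtd.re_mul, Zsqrtd.im_mul, pow_succ]
      linear_combination h
    · simp [Zsqrtd.re_mul, Zsqrtd.im_mul, pow_succ]
      ring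
  obtain ⟨e, he⟩ := exists_associated_pow_of_mul_eq_pow' hcop hprod
  obtain ⟨u, hu⟩ := he
  obtain ⟨w, hw⟩ := gauss_unit_cube u.isUnit
  rw [hw, ← mul_pow] at hu
  generalize e * w = g at hu
  obtain ⟨a, b⟩ := g
  have h1 := congrArg Zsqrtd.re hu
  have h2 := congrArg Zsqrtd.im hu
  simp [Zsqrtd.re_mul, Zsqrtd.im_mul, pow_succ] at h1 h2
  exact ⟨a, b, by rw [← h1]; ring, by rw [← h2]; ring⟩

theorem mod3_b : ∀ a u : ZMod 3, a ^ 2 = -u ^ 2 → a = 0 := by
  decide

theorem three_of_sq {a u : ℤ} (h : (3 : ℤ) ∣ a ^ 2 + u ^ 2) : (3 : ℤ) ∣ a := by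
  have h1 := (ZMod.intCast_zmod_eq_zero_iff_dvd _ 3).2 h
  push_cast at h1
  exact (ZMod.intCast_zmod_eq_zero_iff_dvd a 3).1 (mod3_b a u (by linear_combination h1))

/-- **Lucas**: `X⁴ + Y⁴ = Z³` has only trivial coprime solutions. -/
theorem lucas {X Y Z : ℤ} (hc : IsCoprime X Y) (h : X ^ 4 + Y ^ 4 = Z ^ 3) : X = 0 ∨ Y = 0 := by
  by_contra hcon
  push Not at hcon
  obtain ⟨hX, hY⟩ := hcon
  have hZ2 : ¬ (2 : ℤ) ∣ Z := by
    rintro ⟨z, rfl⟩
    rcases Int.even_or_odd' X with ⟨i, hi | hi⟩ <;> rcases Int.even_or_odd' Y with ⟨j, hj | hj⟩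
    · exact Int.prime_two.not_isUnit (hc.isUnit_of_dvd' ⟨i, hi⟩ ⟨j, hj⟩)
    · rw [hi, hj] at h
      ring_nf at h
      omega
    · rw [hi, hj] at h
      ring_nf at h
      omega
    · rw [hi, hj] at h
      ring_nf at h
      omega
  obtain ⟨a, b, hXa, hYb⟩ := gauss_cube (x := X ^ 2) (y := Y ^ 2) (z := Z) hc.pow hZ2
    (by rw [← h]; ring)
  have ha : a ≠ 0 := by
    rintro rfl
    apply hX
    have : X ^ 2 = 0 := by rw [hXa]; ring
    exact pow_eq_zero_iff (by norm_num) |>.1 this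
  have hb : b ≠ 0 := by
    rintro rfl
    apply hY
    have : Y ^ 2 = 0 := by rw [hYb]; ring
    exact pow_eq_zero_iff (by norm_num) |>.1 this
  have hab : ∀ z : ℤ, Prime z → z ∣ a → ¬ z ∣ b := by
    intro z hz h1 h2
    apply hz.not_isUnit
    apply hc.isUnit_of_dvd'
    · exact hz.dvd_of_dvd_pow (n := 2) (by rw [hXa]; exact Dvd.dvd.mul_right h1 _)
    · exact hz.dvd_of_dvd_pow (n := 2) (by rw [hYb]; exact Dvd.dvd.mul_right h2 _)
  -- the two shapes
  have shA : ¬ (3 : ℤ) ∣ a → ∃ s u : ℤ, a = s ^ 2 ∧ a ^ 2 - 3 * b ^ 2 = u ^ 2 := by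
    intro h3
    have hcop : IsCoprime a (a ^ 2 - 3 * b ^ 2) := by
      apply IsCoprime.symm
      apply cop_of _ ha
      intro z hz e1 e2
      have e3 : z ∣ 3 * b ^ 2 := by
        have := dvd_sub (dvd_pow e2 (two_ne_zero)) e1
        rwa [sub_sub_cancel] at this
      rcases hz.dvd_or_dvd e3 with e4 | e4
      · exact h3 ((assoc_three hz e4).trans e2)
      · exact hab z hz e2 (hz.dvd_of_dvd_pow e4)
    obtain ⟨s, hs⟩ := Int.sq_of_isCoprime hcop hXa.symm
    obtain ⟨u, hu⟩ := Int.sq_of_isCoprime hcop.symm (by rw [mul_comm]; exact hXa.symm)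
    have hu' : a ^ 2 - 3 * b ^ 2 = u ^ 2 := by
      rcases hu with hu | hu
      · exact hu
      · exfalso
        apply h3
        apply three_of_sq (u := u)
        exact ⟨b ^ 2, by linarith⟩
    rcases hs with hs | hs
    · exact ⟨s, u, hs, hu'⟩
    · exfalso
      have e1 : X ^ 2 = -(s * u) ^ 2 := by rw [hXa, hu', hs]; ring
      have e2 : 0 < X ^ 2 := by positivity
      have e3 : 0 ≤ (s * u) ^ 2 := sq_nonneg _
      linarith
  have shB : ¬ (3 : ℤ) ∣ b → ∃ t v : ℤ, b = -t ^ 2 ∧ 3 * a ^ 2 - b ^ 2 = -v ^ 2 := by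
    intro h3
    have hcop : IsCoprime b (3 * a ^ 2 - b ^ 2) := by
      apply IsCoprime.symm
      apply cop_of _ hb
      intro z hz e1 e2
      have e3 : z ∣ 3 * a ^ 2 := by
        have := dvd_add e1 (dvd_pow e2 (two_ne_zero))
        rwa [sub_add_cancel] at this
      rcases hz.dvd_or_dvd e3 with e4 | e4
      · exact h3 ((assoc_three hz e4).trans e2)
      · exact hab z hz (hz.dvd_of_dvd_pow e4) e2
    obtain ⟨s, hs⟩ := Int.sq_of_isCoprime hcop hYb.symm
    obtain ⟨u, hu⟩ := Int.sq_of_isCoprime hcop.symm (by rw [mul_comm]; exact hYb.symm)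
    have hu' : 3 * a ^ 2 - b ^ 2 = -u ^ 2 := by
      rcases hu with hu | hu
      · exfalso
        apply h3
        apply three_of_sq (u := u)
        exact ⟨a ^ 2, by linarith⟩
      · exact hu
    rcases hs with hs | hs
    · exfalso
      have e1 : Y ^ 2 = -(s * u) ^ 2 := by rw [hYb, hu', hs]; ring
      have e2 : 0 < Y ^ 2 := by positivity
      have e3 : 0 ≤ (s * u) ^ 2 := sq_nonneg _
      linarith
    · exact ⟨s, u, hs, hu'⟩
  by_cases h3a : (3 : ℤ) ∣ a
  · have h3b : ¬ (3 : ℤ) ∣ b := hab 3 three_prime h3a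
    obtain ⟨t, v, ht, -⟩ := shB h3b
    obtain ⟨a1, rfl⟩ := h3a
    have ha1 : a1 ≠ 0 := by rintro rfl; simp at ha
    obtain ⟨X1, rfl⟩ : (3 : ℤ) ∣ X := by
      apply three_prime.dvd_of_dvd_pow (n := 2)
      exact ⟨a1 * ((3 * a1) ^ 2 - 3 * b ^ 2), by rw [hXa]; ring⟩
    have hX1 : a1 * (3 * a1 ^ 2 - b ^ 2) = X1 ^ 2 := by linarith
    have hcop : IsCoprime a1 (3 * a1 ^ 2 - b ^ 2) := by
      apply IsCoprime.symm
      apply cop_of _ ha1
      intro z hz e1 e2
      have e3 : z ∣ b ^ 2 := by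
        have := dvd_sub (Dvd.dvd.mul_left (dvd_pow e2 (two_ne_zero)) 3) e1
        rwa [sub_sub_cancel] at this
      exact hab z hz (Dvd.dvd.mul_left e2 3) (hz.dvd_of_dvd_pow e3)
    obtain ⟨s, hs⟩ := Int.sq_of_isCoprime hcop hX1
    obtain ⟨u, hu⟩ := Int.sq_of_isCoprime hcop.symm (by rw [mul_comm]; exact hX1)
    have hu' : 3 * a1 ^ 2 - b ^ 2 = -u ^ 2 := by
      rcases hu with hu | hu
      · exfalso
        apply h3b
        apply three_of_sq (u := u)
        exact ⟨a1 ^ 2, by linarith⟩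
      · exact hu
    have hs2 : a1 ^ 2 = s ^ 4 := by
      rcases hs with hs | hs <;> rw [hs] <;> ring
    have hs0 : s = 0 := by
      apply quart3 _ u t s rfl _ (by rw [ht, hs2] at hu'; linarith)
      apply IsCoprime.symm
      have ht0 : t ≠ 0 := by rintro rfl; simp at ht; exact hb ht
      apply cop_of _ ht0
      intro z hz e1 e2
      apply hab z hz _ (by rw [ht]; exact (dvd_pow e2 two_ne_zero).neg_right)
      apply Dvd.dvd.mul_left
      apply hz.dvd_of_dvd_pow (n := 2)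
      rw [hs2]; exact dvd_pow e1 (by norm_num)
    apply ha1
    rw [hs0] at hs2
    exact pow_eq_zero_iff (n := 2) (by norm_num) |>.1 (by rw [hs2]; norm_num)
  · obtain ⟨s, u, hs, hu⟩ := shA h3a
    by_cases h3b : (3 : ℤ) ∣ b
    · obtain ⟨b1, rfl⟩ := h3b
      have hb1 : b1 ≠ 0 := by rintro rfl; simp at hb
      obtain ⟨Y1, rfl⟩ : (3 : ℤ) ∣ Y := by
        apply three_prime.dvd_of_dvd_pow (n := 2)
        exact ⟨b1 * (3 * a ^ 2 - (3 * b1) ^ 2), by rw [hYb]; ring⟩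
      have hY1 : b1 * (a ^ 2 - 3 * b1 ^ 2) = Y1 ^ 2 := by linarith
      have hcop : IsCoprime b1 (a ^ 2 - 3 * b1 ^ 2) := by
        apply IsCoprime.symm
        apply cop_of _ hb1
        intro z hz e1 e2
        have e3 : z ∣ a ^ 2 := by
          have := dvd_add e1 (Dvd.dvd.mul_left (dvd_pow e2 (two_ne_zero)) 3)
          rwa [sub_add_cancel] at this
        exact hab z hz (hz.dvd_of_dvd_pow e3) (Dvd.dvd.mul_left e2 3)
      obtain ⟨t, ht⟩ := Int.sq_of_isCoprime hcop hY1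
      obtain ⟨v, hv⟩ := Int.sq_of_isCoprime hcop.symm (by rw [mul_comm]; exact hY1)
      have hv' : a ^ 2 - 3 * b1 ^ 2 = v ^ 2 := by
        rcases hv with hv | hv
        · exact hv
        · exfalso
          apply h3a
          apply three_of_sq (u := v)
          exact ⟨b1 ^ 2, by linarith⟩
      have ht2 : b1 ^ 2 = t ^ 4 := by
        rcases ht with ht | ht <;> rw [ht] <;> ring
      have ht0 : t = 0 := by
        apply quart3 _ v s t rfl _ (by rw [hs, ht2] at hv'; linarith)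
        have hs0 : s ≠ 0 := by rintro rfl; simp at hs; exact ha hs
        apply IsCoprime.symm
        apply cop_of _ hs0
        intro z hz e1 e2
        apply hab z hz (by rw [hs]; exact dvd_pow e2 two_ne_zero)
        apply Dvd.dvd.mul_left
        apply hz.dvd_of_dvd_pow (n := 2)
        rw [ht2]; exact dvd_pow e1 (by norm_num)
      apply hb1
      rw [ht0] at ht2
      exact pow_eq_zero_iff (n := 2) (by norm_num) |>.1 (by rw [ht2]; norm_num)
    · obtain ⟨t, v, -, hv⟩ := shB h3b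
      have e1 : 0 < a ^ 2 := by positivity
      have e2 : 0 < b ^ 2 := by positivity
      have e3 : 0 ≤ u ^ 2 := sq_nonneg _
      have e4 : 0 ≤ v ^ 2 := sq_nonneg _
      linarith

end Pool.Agent.W2helper83.UC
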