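import Pool.Agent.W2helper83.UC.Reduce

/-!
# Assembly
-/

set_option autoImplicit false

namespace Pool.Agent.W2helper83.UC

open Finset Pool.Agent.T6.H62.UB

/-- The polynomial map `x ↦ a (x - u) ^ d + w`. -/
def uni (d : ℕ) (a u w : ℚ) : ℚ → ℚ := fun x => a * (x - u) ^ d + w

/-- The rational periodic points of `f`. -/
def periodicPts (f : ℚ → ℚ) : Set ℚ := {x | ∃ n : ℕ, 0 < n ∧ f^[n] x = x}

/-- The rational preperiodic points of `f`. -/
def preperiodicPts (f : ℚ → ℚ) : Set ℚ := {x | ∃ m n : ℕ, m < n ∧ f^[m] x = f^[n] x}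

theorem encard_le_of {s : Set ℚ} {N : ℕ} (h : ∀ T : Finset ℚ, (∀ x ∈ T, x ∈ s) → T.card ≤ N) :
    s.encard ≤ N := by
  by_contra hcon
  rw [not_le] at hcon
  have h1 : ((N + 1 : ℕ) : ℕ∞) ≤ s.encard := by
    push_cast
    exact Order.add_one_le_of_lt hcon
  obtain ⟨t, hts, ht⟩ := Set.exists_subset_encard_eq h1
  have hfin : t.Finite := Set.finite_of_encard_eq_coe ht
  have h2 := h hfin.toFinset (fun x hx => hts (hfin.mem_toFinset.1 hx))
  have h3 : (hfin.toFinset.card : ℕ∞) = ((N + 1 : ℕ) : ℕ∞) := by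
    rw [← ht, ← Set.encard_coe_eq_coe_finsetCard]
    simp
  have h4 : hfin.toFinset.card = N + 1 := by exact_mod_cast h3
  omega

/-- the centred map -/
def cen (d : ℕ) (a c : ℚ) : ℚ → ℚ := fun x => a * x ^ d + c

theorem uni_iter (d : ℕ) (a u w : ℚ) (k : ℕ) (x : ℚ) :
    (uni d a u w)^[k] x = (cen d a (w - u))^[k] (x - u) + u := by
  induction k with
  | zero => simp
  | succ k ih =>
    rw [Function.iterate_succ_apply', Function.iterate_succ_apply', ih]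
    unfold uni cen
    ring

theorem uni_iter_eq (d : ℕ) (a u w : ℚ) (j k : ℕ) (x : ℚ) :
    (uni d a u w)^[j] x = (uni d a u w)^[k] x ↔
      (cen d a (w - u))^[j] (x - u) = (cen d a (w - u))^[k] (x - u) := by
  rw [uni_iter, uni_iter]
  exact add_left_inj u

theorem mem_per {d : ℕ} {a u w x : ℚ} :
    x ∈ periodicPts (uni d a u w) ↔ x - u ∈ periodicPts (cen d a (w - u)) := by
  unfold periodicPts
  constructor
  · rintro ⟨n, hn, h⟩
    exact ⟨n, hn, (uni_iter_eq d a u w n 0 x).1 h⟩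
  · rintro ⟨n, hn, h⟩
    exact ⟨n, hn, (uni_iter_eq d a u w n 0 x).2 h⟩

theorem mem_pre {d : ℕ} {a u w x : ℚ} :
    x ∈ preperiodicPts (uni d a u w) ↔ x - u ∈ preperiodicPts (cen d a (w - u)) := by
  unfold preperiodicPts
  constructor
  · rintro ⟨m, n, hn, h⟩
    exact ⟨m, n, hn, (uni_iter_eq d a u w m n x).1 h⟩
  · rintro ⟨m, n, hn, h⟩
    exact ⟨m, n, hn, (uni_iter_eq d a u w m n x).2 h⟩

theorem per_sub_pre (f : ℚ → ℚ) : periodicPts f ⊆ preperiodicPts f := by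
  rintro x ⟨n, hn, h⟩
  exact ⟨0, n, hn, h.symm⟩

theorem transfer {P : Set ℚ} {Q : Set ℚ} {u : ℚ} {N : ℕ} (h : ∀ x, x ∈ P ↔ x - u ∈ Q)
    (hQ : ∀ T : Finset ℚ, (∀ x ∈ T, x ∈ Q) → T.card ≤ N) : P.encard ≤ N := by
  classical
  apply encard_le_of
  intro T hT
  have h1 := hQ (T.image fun x => x - u) (by
    intro x hx
    obtain ⟨y, hy, rfl⟩ := mem_image.1 hx
    exact (h y).1 (hT y hy))
  rwa [card_image_of_injective _ (sub_left_injective)] at h1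

/-- the setup for a finite set of preperiodic points -/
theorem setup {d : ℕ} (hd2 : 2 ≤ d) {a c : ℚ} (ha : a ≠ 0) (T : Finset ℚ)
    (hT : ∀ x ∈ T, x ∈ preperiodicPts (cen d a c)) :
    (∀ x ∈ T, x = 0 ∧ c = 0) ∨ ∃ (OQ : Finset ℚ) (l : ℚ) (A B : ℤ) (V : ℕ) (O : Finset ℤ)
      (φ : ℤ → ℤ), Red d a c OQ l A B V O φ ∧ T ⊆ OQ ∧
        ∀ n ∈ O, ∃ j k : ℕ, j < k ∧ φ^[j] n = φ^[k] n := by
  obtain ⟨OQ, hTO, hinv, hpre⟩ := exists_invariant (cen d a c) T hT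
  by_cases hne : ∃ x ∈ OQ, x ≠ 0
  · right
    obtain ⟨l, A, B, V, O, φ, R⟩ := reduce hd2 ha OQ hinv hne
    exact ⟨OQ, l, A, B, V, O, φ, R, hTO, R.pre hpre⟩
  · left
    push Not at hne
    intro x hx
    have h1 := hne x (hTO hx)
    refine ⟨h1, ?_⟩
    have h2 := hne _ (hinv x (hTO hx))
    unfold cen at h2
    rwa [h1, zero_pow (by omega), mul_zero, zero_add] at h2

section

variable {d : ℕ} {a c : ℚ} {OQ : Finset ℚ} {l : ℚ} {A B : ℤ} {V : ℕ} {O : Finset ℤ} {φ : ℤ → ℤ}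

theorem Red.lift (R : Red d a c OQ l A B V O φ) {T : Finset ℚ} (hT : T ⊆ OQ) :
    ∃ TZ : Finset ℤ, TZ ⊆ O ∧ T.card ≤ TZ.card ∧ ∀ n ∈ TZ, l * (n : ℚ) ∈ T := by
  classical
  refine ⟨O.filter fun n : ℤ => l * (n : ℚ) ∈ T, filter_subset _ _, ?_,
    fun n hn => (mem_filter.1 hn).2⟩
  have h1 : T ⊆ (O.filter fun n : ℤ => l * (n : ℚ) ∈ T).image fun n : ℤ => l * (n : ℚ) := by
    intro x hx
    obtain ⟨n, hn, hnx⟩ := R.surj x (hT hx)
    exact mem_image.2 ⟨n, mem_filter.2 ⟨hn, by rw [hnx]; exact hx⟩, hnx⟩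
  exact (card_le_card h1).trans card_image_le

theorem Red.lift_per (R : Red d a c OQ l A B V O φ) {T : Finset ℚ} (hT : T ⊆ OQ)
    (hp : ∀ x ∈ T, x ∈ periodicPts (cen d a c)) :
    ∃ TZ : Finset ℤ, TZ ⊆ O ∧ T.card ≤ TZ.card ∧ ∀ n ∈ TZ, Per φ n := by
  obtain ⟨TZ, h1, h2, h3⟩ := R.lift hT
  exact ⟨TZ, h1, h2, fun n hn => (R.per_iff (h1 hn)).2 (hp _ (h3 n hn))⟩

end

/-- the property that `S` contains all the exceptional primes -/
def Big (d m : ℕ) (a c : ℚ) (S : Finset ℕ) : Prop :=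
  ∀ (OQ : Finset ℚ) (l : ℚ) (A B : ℤ) (V : ℕ) (O : Finset ℤ) (φ : ℤ → ℤ),
    Red d a c OQ l A B V O φ → ∀ p : ℕ, p.Prime → p ≠ 2 → p ∣ V → Rel m p → ¬ Cond d V p → p ∈ S

/-- the hypothesis with two primes -/
def HypS (d m : ℕ) (a c : ℚ) (p1 p2 : ℕ) : Prop :=
  ∀ (OQ : Finset ℚ) (l : ℚ) (A B : ℤ) (V : ℕ) (O : Finset ℤ) (φ : ℤ → ℤ),
    Red d a c OQ l A B V O φ → Hyp d m V p1 p2

theorem big_exc {d : ℕ} (hd0 : d ≠ 0) (m : ℕ) (a c : ℚ) : Big d m a c (exc d m (a * c ^ (d - 1))) :=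
  fun _ _ _ _ _ _ _ R p hp hp2 hpV hr hC => (R.exc hd0 m).cond p hp hp2 hpV hr hC

theorem hypS_exc {d : ℕ} (hd0 : d ≠ 0) {m : ℕ} {a c : ℚ} (h1 : exc1 d m (a * c ^ (d - 1)) = ∅)
    {p1 p2 : ℕ} (h2 : exc d m (a * c ^ (d - 1)) ⊆ {p1, p2}) : HypS d m a c p1 p2 :=
  fun _ _ _ _ _ _ _ R => R.hyp hd0 h1 h2

theorem card_le_one_of_zero {T : Finset ℚ} {c : ℚ} (h : ∀ x ∈ T, x = 0 ∧ c = 0) : T.card ≤ 1 := by
  rw [card_le_one]
  intro x hx y hy
  rw [(h x hx).1, (h y hy).1]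

theorem one_le_prod (S : Finset ℕ) {k : ℕ} (hk : 0 < k) : 1 ≤ ∏ p ∈ S, Nat.gcd k (p - 1) :=
  one_le_prod' fun _ _ => Nat.gcd_pos_of_pos_left _ hk

theorem Exc.filter {d m V : ℕ} {S : Finset ℕ}
    (h : ∀ p : ℕ, p.Prime → p ≠ 2 → p ∣ V → Rel m p → ¬ Cond d V p → p ∈ S) :
    Exc d m V (S.filter fun p => p.Prime ∧ p ∣ V) :=
  ⟨fun _ hp => (mem_filter.1 hp).2.1, fun _ hp => (mem_filter.1 hp).2.2,
    fun p hp hp2 hpV hr hC => mem_filter.2 ⟨h p hp hp2 hpV hr hC, hp, hpV⟩⟩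

theorem prod_filter_le (S : Finset ℕ) (q : ℕ → Prop) [DecidablePred q] {k : ℕ} (hk : 0 < k) :
    ∏ p ∈ S.filter q, Nat.gcd k (p - 1) ≤ ∏ p ∈ S, Nat.gcd k (p - 1) :=
  prod_le_prod_of_subset_of_one_le' (filter_subset _ _)
    (fun _ _ _ => Nat.gcd_pos_of_pos_left _ hk)

theorem per_A {d : ℕ} (hd : 4 ∣ d) (hd0 : d ≠ 0) {a c : ℚ} (ha : a ≠ 0) {S : Finset ℕ}
    (hS : Big d (d / 4) a c S) (T : Finset ℚ) (hT : ∀ x ∈ T, x ∈ periodicPts (cen d a c)) :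
    T.card ≤ 2 * ∏ p ∈ S, Nat.gcd 4 (p - 1) := by
  classical
  have h1 := one_le_prod S (k := 4) (by norm_num)
  rcases setup (by omega) ha T (fun x hx => per_sub_pre _ (hT x hx)) with h |
    ⟨OQ, l, A, B, V, O, φ, R, hTO, -⟩
  · have := card_le_one_of_zero h
    omega
  · obtain ⟨TZ, hTZ, hcard, hper⟩ := R.lift_per hTO hT
    have hE := Exc.filter (hS _ _ _ _ _ _ _ R)
    have hs := R.sys
    obtain ⟨e, rfl⟩ := hd
    rw [show 4 * e / 4 = e by omega] at hE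
    have h2 := card_A hs (by omega) R.A0 R.V0 hE TZ hTZ hper
    have h3 := prod_filter_le S (fun p => p.Prime ∧ p ∣ V) (k := 4) (by norm_num)
    omega

theorem per_A8 {d : ℕ} (hd : 8 ∣ d) (hd0 : d ≠ 0) {a c : ℚ} (ha : a ≠ 0) {S : Finset ℕ}
    (hS : Big d (d / 4) a c S) (T : Finset ℚ) (hT : ∀ x ∈ T, x ∈ periodicPts (cen d a c)) :
    T.card ≤ max 2 (∏ p ∈ S, Nat.gcd 4 (p - 1)) := by
  classical
  rcases setup (by omega) ha T (fun x hx => per_sub_pre _ (hT x hx)) with h |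
    ⟨OQ, l, A, B, V, O, φ, R, hTO, -⟩
  · have := card_le_one_of_zero h
    exact (this.trans (by norm_num)).trans (le_max_left _ _)
  · obtain ⟨TZ, hTZ, hcard, hper⟩ := R.lift_per hTO hT
    have hE := Exc.filter (hS _ _ _ _ _ _ _ R)
    have hs := R.sys
    obtain ⟨e, rfl⟩ := hd
    rw [show 8 * e = 4 * (2 * e) by ring] at hs hE
    rw [show 4 * (2 * e) / 4 = 2 * e by omega] at hE
    have h2 := card_A8 hs (by omega) R.A0 R.V0 hE TZ hTZ hper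
    have h3 := prod_filter_le S (fun p => p.Prime ∧ p ∣ V) (k := 4) (by norm_num)
    exact hcard.trans (h2.trans (max_le_max le_rfl h3))

theorem per_B {d : ℕ} (hd : 6 ∣ d) (hd0 : d ≠ 0) {a c : ℚ} (ha : a ≠ 0) {S : Finset ℕ}
    (hS : Big d (d / 2) a c S) (T : Finset ℚ) (hT : ∀ x ∈ T, x ∈ periodicPts (cen d a c)) :
    T.card ≤ 2 * 2 ^ S.card := by
  classical
  have h1 : 1 ≤ 2 ^ S.card := Nat.one_le_two_pow
  rcases setup (by omega) ha T (fun x hx => per_sub_pre _ (hT x hx)) with h |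
    ⟨OQ, l, A, B, V, O, φ, R, hTO, -⟩
  · have := card_le_one_of_zero h
    omega
  · obtain ⟨TZ, hTZ, hcard, hper⟩ := R.lift_per hTO hT
    have hE := Exc.filter (hS _ _ _ _ _ _ _ R)
    have hs := R.sys
    obtain ⟨e, rfl⟩ := hd
    rw [show 6 * e / 2 = 3 * e by omega] at hE
    have h2 := card_B hs (by omega) R.A0 R.V0 hE TZ hTZ hper
    have h3 : 2 ^ (S.filter fun p => p.Prime ∧ p ∣ V).card ≤ 2 ^ S.card :=
      Nat.pow_le_pow_right (by norm_num) (card_filter_le _ _)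
    omega

theorem per_B12 {d : ℕ} (hd : 12 ∣ d) (hd0 : d ≠ 0) {a c : ℚ} (ha : a ≠ 0) {S : Finset ℕ}
    (hS : Big d (d / 2) a c S) (T : Finset ℚ) (hT : ∀ x ∈ T, x ∈ periodicPts (cen d a c)) :
    T.card ≤ max 2 (2 ^ S.card) := by
  classical
  rcases setup (by omega) ha T (fun x hx => per_sub_pre _ (hT x hx)) with h |
    ⟨OQ, l, A, B, V, O, φ, R, hTO, -⟩
  · have := card_le_one_of_zero h
    exact (this.trans (by norm_num)).trans (le_max_left _ _)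
  · obtain ⟨TZ, hTZ, hcard, hper⟩ := R.lift_per hTO hT
    have hE := Exc.filter (hS _ _ _ _ _ _ _ R)
    have hs := R.sys
    obtain ⟨e, rfl⟩ := hd
    rw [show 12 * e = 6 * (2 * e) by ring] at hs hE
    rw [show 6 * (2 * e) / 2 = 3 * (2 * e) by omega] at hE
    have h2 := card_B12 hs (by omega) R.A0 R.V0 hE TZ hTZ hper
    have h3 : 2 ^ (S.filter fun p => p.Prime ∧ p ∣ V).card ≤ 2 ^ S.card :=
      Nat.pow_le_pow_right (by norm_num) (card_filter_le _ _)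
    exact hcard.trans (h2.trans (max_le_max le_rfl h3))

/-- one exceptional prime of the second kind -/
theorem per_W {d m : ℕ} (hs : Wk d m) {a c : ℚ} (ha : a ≠ 0) {p1 : ℕ}
    (hH : HypS d m a c p1 p1) (T : Finset ℚ) (hT : ∀ x ∈ T, x ∈ periodicPts (cen d a c)) :
    T.card ≤ 4 := by
  have hd2 : 2 ≤ d := by rcases hs.dvd with ⟨k, hk⟩ | ⟨k, hk⟩ <;> have := hs.d0 <;> omega
  rcases setup hd2 ha T (fun x hx => per_sub_pre _ (hT x hx)) with h |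
    ⟨OQ, l, A, B, V, O, φ, R, hTO, -⟩
  · have := card_le_one_of_zero h
    omega
  · obtain ⟨TZ, hTZ, hcard, hper⟩ := R.lift_per hTO hT
    exact hcard.trans (card_four hs (hH _ _ _ _ _ _ _ R) R.sys R.A0 R.V0 TZ hTZ hper)

/-! ### no exceptional primes -/

/-- all odd primes of `V` satisfy the condition -/
def AllC (d : ℕ) (a c : ℚ) : Prop :=
  ∀ (OQ : Finset ℚ) (l : ℚ) (A B : ℤ) (V : ℕ) (O : Finset ℤ) (φ : ℤ → ℤ),
    Red d a c OQ l A B V O φ → ∀ p : ℕ, p.Prime → p ≠ 2 → p ∣ V → Cond d V p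

/-- the conclusion on the structure of the preperiodic points -/
def Shape (d : ℕ) (a c : ℚ) : Prop :=
  ∀ x : ℚ, x ∈ preperiodicPts (cen d a c) →
    x ∈ periodicPts (cen d a c) ∨ -x ∈ periodicPts (cen d a c) ∨
      (x = 0 ∧ a * c ^ (d - 1) = -2)

theorem shape_of {d : ℕ} (hde : Even d) (hd2 : 2 ≤ d) {a c : ℚ} (ha : a ≠ 0)
    (htail : ∀ (OQ : Finset ℚ) (l : ℚ) (A B : ℤ) (V : ℕ) (O : Finset ℤ) (φ : ℤ → ℤ),
      Red d a c OQ l A B V O φ → TailP A B V O φ) : Shape d a c := by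
  intro x hx
  have hd0 : d ≠ 0 := by omega
  rcases setup hd2 ha {x} (by simpa using hx) with h | ⟨OQ, l, A, B, V, O, φ, R, hTO, hpre⟩
  · left
    obtain ⟨h1, h2⟩ := h x (by simp)
    refine ⟨1, one_pos, ?_⟩
    rw [Function.iterate_one]
    unfold cen
    rw [h1, h2, zero_pow hd0]
    ring
  · obtain ⟨n, hn, hnx⟩ := R.surj x (hTO (by simp))
    rcases struct hde hd0 R.sys R.A0 (htail _ _ _ _ _ _ _ R) hn (hpre n hn) with
      h1 | ⟨h1, h2⟩ | ⟨h1, h2⟩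
    · left
      have := (R.per_iff hn).1 h1
      rw [hnx] at this
      exact this
    · right; left
      have := (R.per_iff h1).1 h2
      rw [show l * ((-n : ℤ) : ℚ) = -x by rw [← hnx]; push_cast; ring] at this
      exact this
    · right; right
      obtain ⟨h3, h4⟩ := cheb_t hde hd0 h2
      refine ⟨by rw [← hnx, h1]; simp, ?_⟩
      rw [R.t_of_one hd0 h3, h4]
      norm_num

theorem two_le_of {d : ℕ} (hd : 4 ∣ d ∨ 6 ∣ d) (hd0 : d ≠ 0) : 2 ≤ d := by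
  rcases hd with ⟨k, rfl⟩ | ⟨k, rfl⟩ <;> omega

theorem per_two {d : ℕ} (hd : 4 ∣ d ∨ 6 ∣ d) (hd0 : d ≠ 0) {a c : ℚ} (ha : a ≠ 0)
    (hS : AllC d a c) (T : Finset ℚ) (hT : ∀ x ∈ T, x ∈ periodicPts (cen d a c)) :
    T.card ≤ 2 := by
  rcases setup (two_le_of hd hd0) ha T (fun x hx => per_sub_pre _ (hT x hx)) with h |
    ⟨OQ, l, A, B, V, O, φ, R, hTO, -⟩
  · have := card_le_one_of_zero h
    omega
  · obtain ⟨TZ, hTZ, hcard, hper⟩ := R.lift_per hTO hT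
    exact hcard.trans (card_two hd hd0 R.sys R.A0 R.V0 (hS _ _ _ _ _ _ _ R) TZ hTZ hper)

theorem pre_four {d : ℕ} (hd : 4 ∣ d ∨ 6 ∣ d) (hd0 : d ≠ 0) {a c : ℚ} (ha : a ≠ 0)
    (hS : AllC d a c) (T : Finset ℚ) (hT : ∀ x ∈ T, x ∈ preperiodicPts (cen d a c)) :
    T.card ≤ 4 := by
  rcases setup (two_le_of hd hd0) ha T hT with h | ⟨OQ, l, A, B, V, O, φ, R, hTO, hpre⟩
  · have := card_le_one_of_zero h
    omega
  · obtain ⟨TZ, hTZ, hcard, -⟩ := R.lift hTO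
    exact hcard.trans ((card_le_card hTZ).trans
      (card_pre hd hd0 R.sys R.A0 R.V0 (hS _ _ _ _ _ _ _ R) hpre))

theorem pre_shape {d : ℕ} (hd : 4 ∣ d ∨ 6 ∣ d) (hd0 : d ≠ 0) {a c : ℚ} (ha : a ≠ 0)
    (hS : AllC d a c) : Shape d a c :=
  shape_of (even_d hd) (two_le_of hd hd0) ha (fun _ _ _ _ _ _ _ R =>
    tailP_of_cond hd hd0 R.sys R.A0 R.V0 (hS _ _ _ _ _ _ _ R))

/-! ### the strong case -/

theorem Str.eight {d m : ℕ} (hs : Str d m) : 8 ∣ d ∨ 12 ∣ d := by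
  rcases hs with ⟨e, he, rfl, -⟩ | ⟨e, he, rfl, -⟩
  · exact Or.inl ⟨e, by ring⟩
  · exact Or.inr ⟨e, by ring⟩

theorem Str.even {d m : ℕ} (hs : Str d m) : Even d := by
  obtain ⟨k, hk⟩ := hs.four
  exact ⟨2 * k, by rw [hk]; ring⟩

theorem Str.two_le {d m : ℕ} (hs : Str d m) : 2 ≤ d := by
  obtain ⟨k, hk⟩ := hs.four
  have := hs.d0
  omega

theorem cond_one {d : ℕ} : ∀ p : ℕ, p.Prime → p ≠ 2 → p ∣ 1 → Cond d 1 p :=
  fun _ hp _ hp1 => absurd (Nat.dvd_one.1 hp1) hp.one_lt.ne'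

theorem s_three {d m : ℕ} (hs : Str d m) {a c : ℚ} (ha : a ≠ 0) {p1 p2 : ℕ}
    (hH : HypS d m a c p1 p2) (T : Finset ℚ) (hT : ∀ x ∈ T, x ∈ preperiodicPts (cen d a c)) :
    T.card ≤ 3 := by
  rcases setup hs.two_le ha T hT with h | ⟨OQ, l, A, B, V, O, φ, R, hTO, hpre⟩
  · have := card_le_one_of_zero h
    omega
  · obtain ⟨TZ, hTZ, hcard, -⟩ := R.lift hTO
    refine hcard.trans ((card_le_card hTZ).trans ?_)
    by_cases hV1 : V = 1
    · subst hV1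
      exact card_pre_strong hs.eight hs.d0 R.sys R.A0 R.V0 cond_one hpre
    · have := strong_main hs (hH _ _ _ _ _ _ _ R) R.sys R.A0 R.V0 hV1 hpre
      omega

theorem s_one {d m : ℕ} (hs : Str d m) {a c : ℚ} (ha : a ≠ 0) {p1 p2 : ℕ}
    (hH : HypS d m a c p1 p2) (h0 : a * c ^ (d - 1) ≠ 0) (h1 : a * c ^ (d - 1) ≠ -1)
    (T : Finset ℚ) (hT : ∀ x ∈ T, x ∈ periodicPts (cen d a c)) : T.card ≤ 1 := by
  rcases setup hs.two_le ha T (fun x hx => per_sub_pre _ (hT x hx)) with h |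
    ⟨OQ, l, A, B, V, O, φ, R, hTO, -⟩
  · exact card_le_one_of_zero h
  · obtain ⟨TZ, hTZ, hcard, hper⟩ := R.lift_per hTO hT
    refine hcard.trans ?_
    by_cases hV1 : V = 1
    · subst hV1
      by_contra hcon
      obtain ⟨-, h2⟩ := strong_two hs.eight hs.d0 R.sys R.A0 R.V0 cond_one hTZ hper
        (not_le.1 hcon)
      rcases h2 with h2 | h2
      · apply h0
        have hdd : d - 1 ≠ 0 := by have := hs.two_le; omega
        rw [R.t_of_one hs.d0 rfl, h2, zero_pow hdd, mul_zero, Int.cast_zero]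
      · apply h1
        rw [R.t_of_one hs.d0 rfl, h2]
        norm_num
    · rw [card_le_one]
      intro x hx y hy
      exact strong_one hs (hH _ _ _ _ _ _ _ R) R.sys R.A0 R.V0 hV1 (hTZ hx) (hTZ hy)
        (hper x hx) (hper y hy)

theorem s_two {d m : ℕ} (hs : Str d m) {a c : ℚ} (ha : a ≠ 0) {p1 p2 : ℕ}
    (hH : HypS d m a c p1 p2) (h0 : a * c ^ (d - 1) ≠ 0) (h1 : a * c ^ (d - 1) ≠ -1)
    (h2 : a * c ^ (d - 1) ≠ -2)
    (T : Finset ℚ) (hT : ∀ x ∈ T, x ∈ preperiodicPts (cen d a c)) : T.card ≤ 2 := by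
  have hd' : 4 ∣ d ∨ 6 ∣ d := Or.inl hs.four
  rcases setup hs.two_le ha T hT with h | ⟨OQ, l, A, B, V, O, φ, R, hTO, hpre⟩
  · have := card_le_one_of_zero h
    omega
  · obtain ⟨TZ, hTZ, hcard, -⟩ := R.lift hTO
    refine hcard.trans ((card_le_card hTZ).trans ?_)
    by_cases hV1 : V = 1
    · subst hV1
      obtain ⟨P, hPO, hPp, -, h3⟩ := pre_subset hs.even hs.d0 R.sys R.A0 R.V0
        (tailP_of_cond hd' hs.d0 R.sys R.A0 R.V0 cond_one) hpre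
      have hP1 : P.card ≤ 1 := by
        by_contra hcon
        obtain ⟨-, h4⟩ := strong_two hs.eight hs.d0 R.sys R.A0 R.V0 cond_one hPO hPp
          (not_le.1 hcon)
        rcases h4 with h4 | h4
        · apply h0
          have hdd : d - 1 ≠ 0 := by have := hs.two_le; omega
          rw [R.t_of_one hs.d0 rfl, h4, zero_pow hdd, mul_zero, Int.cast_zero]
        · apply h1
          rw [R.t_of_one hs.d0 rfl, h4]
          norm_num
      have h5 := card_sym P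
      rcases h3 with h3 | ⟨h3, -, -⟩
      · have := card_le_card h3
        omega
      · exfalso
        obtain ⟨-, h7⟩ := cheb_t hs.even hs.d0 h3
        apply h2
        rw [R.t_of_one hs.d0 rfl, h7]
        norm_num
    · exact strong_main hs (hH _ _ _ _ _ _ _ R) R.sys R.A0 R.V0 hV1 hpre

theorem s_shape {d m : ℕ} (hs : Str d m) {a c : ℚ} (ha : a ≠ 0) {p1 p2 : ℕ}
    (hH : HypS d m a c p1 p2) : Shape d a c := by
  apply shape_of hs.even hs.two_le ha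
  intro OQ l A B V O φ R
  by_cases hV1 : V = 1
  · subst hV1
    exact tailP_of_cond (Or.inl hs.four) hs.d0 R.sys R.A0 R.V0 cond_one
  · exact strong_tail hs (hH _ _ _ _ _ _ _ R) R.sys R.A0 R.V0 hV1

end Pool.Agent.W2helper83.UC
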