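import Pool.Agent.W2helper83.UC.Dyn

/-!
# Pairs of periodic points, and their number
-/

set_option autoImplicit false

namespace Pool.Agent.W2helper83.UC

open Finset Pool.Agent.T6.H62.UB

section

variable {d : ℕ} {A B : ℤ} {V : ℕ} {O : Finset ℤ} {φ : ℤ → ℤ}

theorem psi_factor {m : ℕ} {u w F : ℤ} (hne : u ≠ w) (h : u ^ d - w ^ d = (u ^ m - w ^ m) * F) :
    F ∣ Psi d u w := by
  refine ⟨Psi m u w, ?_⟩
  apply mul_left_cancel₀ (sub_ne_zero.2 hne)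
  rw [psi_mul, h, ← psi_mul m]
  ring

theorem add_dvd_psi (hde : Even d) {u w : ℤ} (hne : u ≠ w) : (u + w) ∣ Psi d u w := by
  obtain ⟨e, rfl⟩ := hde
  have h2 : u ^ 2 - w ^ 2 ∣ (u ^ 2) ^ e - (w ^ 2) ^ e := sub_dvd_pow_sub_pow _ _ e
  obtain ⟨k, hk⟩ := h2
  refine ⟨k, ?_⟩
  apply mul_left_cancel₀ (sub_ne_zero.2 hne)
  rw [psi_mul]
  have h2 : u ^ (e + e) - w ^ (e + e) = (u ^ 2) ^ e - (w ^ 2) ^ e := by
    rw [← pow_mul, ← pow_mul, two_mul]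
  rw [h2, hk]
  ring

theorem odd_of_even_V (h : Sys d A B V O φ) (hd0 : d ≠ 0) (hV2 : 2 ∣ V) {u : ℤ} (hu : u ∈ O) :
    ¬ (2 : ℤ) ∣ u := by
  have := h.not_dvd hd0 Nat.prime_two hV2 hu
  exact_mod_cast this

theorem odd_sum (h : Sys d A B V O φ) (hde : Even d) (hA : A ≠ 0) (hV : 0 < V) (hV2 : ¬ 2 ∣ V)
    {u w : ℤ} (hu : u ∈ O) (hw : w ∈ O) (pu : Per φ u) (pw : Per φ w) (hne : u ≠ w) :
    ¬ (2 : ℤ) ∣ u + w := by
  intro h2
  have h1 := (good h hA hV hu hw pu pw hne Nat.prime_two hV2).2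
  apply h1
  exact_mod_cast h2.trans (add_dvd_psi hde hne)

theorem not_dvd_two {p : ℕ} (hp : p.Prime) (hp2 : p ≠ 2) : ¬ (p : ℤ) ∣ 2 := fun hd =>
  hp2 ((Nat.prime_dvd_prime_iff_eq hp Nat.prime_two).1 (by exact_mod_cast hd))

/-! ### exponents divisible by four -/

theorem A_vals {e : ℕ} (h : Sys (4 * e) A B V O φ) (he : 0 < e) (hA : A ≠ 0) (hV : 0 < V)
    {u w : ℤ} (hu : u ∈ O) (hw : w ∈ O) (pu : Per φ u) (pw : Per φ w) (hne : u ≠ w)
    (hS : ∀ p : ℕ, p.Prime → p ≠ 2 → p ∣ V →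
      3 ∣ padicValInt p (u ^ (4 * e) - w ^ (4 * e)) ∨ (p : ℤ) ∣ u ^ e - w ^ e) :
    (∀ p : ℕ, p.Prime → p ≠ 2 → 3 ∣ padicValInt p (u ^ e + w ^ e)) ∧
    (∀ p : ℕ, p.Prime → p ≠ 2 → 3 ∣ padicValInt p ((u ^ e) ^ 2 + (w ^ e) ^ 2)) := by
  have hfac : u ^ (4 * e) - w ^ (4 * e) =
      (u ^ e - w ^ e) * ((u ^ e + w ^ e) * ((u ^ e) ^ 2 + (w ^ e) ^ 2)) := by
    rw [mul_comm 4 e, pow_mul, pow_mul]
    ring
  have hdvd := psi_factor hne hfac
  have hunit : ∀ p : ℕ, p.Prime → p ∣ V → ¬ (p : ℤ) ∣ u ^ e := by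
    intro p hp hpV h1
    exact h.not_dvd (by omega) hp hpV hu ((Nat.prime_iff_prime_int.1 hp).dvd_of_dvd_pow h1)
  constructor
  · apply factor_val h hA hV hu hw pu pw hne (F := u ^ e + w ^ e)
      (K := (u ^ e - w ^ e) * ((u ^ e) ^ 2 + (w ^ e) ^ 2)) (by rw [hfac]; ring)
      ((Dvd.intro _ rfl).trans hdvd)
    intro p hp hp2 hpV hpF
    have hpi := Nat.prime_iff_prime_int.1 hp
    have n1 : ¬ (p : ℤ) ∣ u ^ e - w ^ e := by
      intro h1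
      have e3 : (p : ℤ) ∣ 2 * u ^ e := by
        have := dvd_add hpF h1
        ring_nf at this ⊢
        exact this
      exact hunit p hp hpV ((hpi.dvd_or_dvd e3).resolve_left (not_dvd_two hp hp2))
    refine ⟨(hS p hp hp2 hpV).resolve_right n1, ?_⟩
    intro h1
    rcases hpi.dvd_or_dvd h1 with h1 | h1
    · exact n1 h1
    · have e3 : (p : ℤ) ∣ 2 * (u ^ e) ^ 2 := by
        have e4 : 2 * (u ^ e) ^ 2 = ((u ^ e) ^ 2 + (w ^ e) ^ 2) +
          (u ^ e + w ^ e) * (u ^ e - w ^ e) := by ring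
        rw [e4]
        exact dvd_add h1 (Dvd.dvd.mul_right hpF _)
      exact hunit p hp hpV (hpi.dvd_of_dvd_pow
        ((hpi.dvd_or_dvd e3).resolve_left (not_dvd_two hp hp2)))
  · apply factor_val h hA hV hu hw pu pw hne (F := (u ^ e) ^ 2 + (w ^ e) ^ 2)
      (K := (u ^ e - w ^ e) * (u ^ e + w ^ e)) (by rw [hfac]; ring)
      ((Dvd.intro_left _ rfl).trans hdvd)
    intro p hp hp2 hpV hpF
    have hpi := Nat.prime_iff_prime_int.1 hp
    have n1 : ¬ (p : ℤ) ∣ (u ^ e - w ^ e) * (u ^ e + w ^ e) := by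
      intro h1
      have e3 : (p : ℤ) ∣ 2 * (u ^ e) ^ 2 := by
        have := dvd_add hpF h1
        ring_nf at this ⊢
        exact this
      exact hunit p hp hpV (hpi.dvd_of_dvd_pow
        ((hpi.dvd_or_dvd e3).resolve_left (not_dvd_two hp hp2)))
    exact ⟨(hS p hp hp2 hpV).resolve_right fun h2 => n1 (Dvd.dvd.mul_right h2 _), n1⟩

theorem A_even {e : ℕ} (h : Sys (4 * e) A B V O φ) (he : 0 < e) (hA : A ≠ 0) (hV : 0 < V)
    (hV2 : 2 ∣ V) {u w : ℤ} (hu : u ∈ O) (hw : w ∈ O) (pu : Per φ u) (pw : Per φ w) (hne : u ≠ w)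
    (hS : ∀ p : ℕ, p.Prime → p ≠ 2 → p ∣ V →
      3 ∣ padicValInt p (u ^ (4 * e) - w ^ (4 * e)) ∨ (p : ℤ) ∣ u ^ e - w ^ e) :
    ¬ (4 : ℤ) ∣ u ^ e - w ^ e := by
  intro h4
  obtain ⟨h1, h2⟩ := A_vals h he hA hV hu hw pu pw hne hS
  have hc := (cop_per h hA hV (by omega) hu hw pu pw hne).pow (m := e) (n := e)
  have hodd : ¬ (2 : ℤ) ∣ u ^ e := fun h3 =>
    odd_of_even_V h (by omega) hV2 hu (Int.prime_two.dvd_of_dvd_pow h3)
  have h5 := pairE hc h4 hodd h1 h2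
  apply NM.pow_ne h hV hu hw (per_NM pu pw hne)
  rw [mul_comm 4 e, pow_mul, pow_mul, h5]

theorem A_odd8 {e : ℕ} (h : Sys (4 * (2 * e)) A B V O φ) (he : 0 < e) (hA : A ≠ 0) (hV : 0 < V)
    (hV2 : ¬ 2 ∣ V) {u w : ℤ} (hu : u ∈ O) (hw : w ∈ O) (pu : Per φ u) (pw : Per φ w)
    (hne : u ≠ w)
    (hS : ∀ p : ℕ, p.Prime → p ≠ 2 → p ∣ V →
      3 ∣ padicValInt p (u ^ (4 * (2 * e)) - w ^ (4 * (2 * e))) ∨
        (p : ℤ) ∣ u ^ (2 * e) - w ^ (2 * e)) : u = 0 ∨ w = 0 := by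
  obtain ⟨-, h2⟩ := A_vals h (by omega) hA hV hu hw pu pw hne hS
  have hc := (cop_per h hA hV (by omega) hu hw pu pw hne).pow (m := e) (n := e)
  have e1 : ∀ x : ℤ, (x ^ (2 * e)) ^ 2 = (x ^ e) ^ 4 := by
    intro x
    rw [← pow_mul, ← pow_mul]
    congr 1
    ring
  rw [e1, e1] at h2
  have hfac : u ^ (4 * (2 * e)) - w ^ (4 * (2 * e)) =
      (u ^ (4 * e) - w ^ (4 * e)) * ((u ^ e) ^ 4 + (w ^ e) ^ 4) := by
    have e2 : ∀ x : ℤ, x ^ (4 * (2 * e)) = (x ^ e) ^ 8 := by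
      intro x
      rw [← pow_mul]
      congr 1
      ring
    have e3 : ∀ x : ℤ, x ^ (4 * e) = (x ^ e) ^ 4 := by
      intro x
      rw [← pow_mul]
      congr 1
      ring
    rw [e2, e2, e3, e3]
    ring
  have hodd : ¬ (2 : ℤ) ∣ (u ^ e) ^ 4 + (w ^ e) ^ 4 := by
    intro h3
    have h4 := (good h hA hV hu hw pu pw hne Nat.prime_two hV2).2
    apply h4
    exact_mod_cast h3.trans (psi_factor hne hfac)
  obtain ⟨z, hz⟩ := cube_of_val_odd hodd h2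
  rcases lucas hc hz with h3 | h3
  · exact Or.inl (pow_eq_zero_iff he.ne' |>.1 h3)
  · exact Or.inr (pow_eq_zero_iff he.ne' |>.1 h3)

/-! ### exponents divisible by six -/

theorem B_main {e : ℕ} (h : Sys (6 * e) A B V O φ) (he : 0 < e) (hA : A ≠ 0) (hV : 0 < V)
    {u w : ℤ} (hu : u ∈ O) (hw : w ∈ O) (pu : Per φ u) (pw : Per φ w) (hne : u ≠ w)
    (hS : ∀ p : ℕ, p.Prime → p ≠ 2 → p ∣ V →
      3 ∣ padicValInt p (u ^ (6 * e) - w ^ (6 * e)) ∨ (p : ℤ) ∣ u ^ (3 * e) - w ^ (3 * e))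
    (h4 : ¬ (4 : ℤ) ∣ (u ^ e) ^ 3 + (w ^ e) ^ 3) : u = 0 ∨ w = 0 := by
  have e3 : ∀ x : ℤ, x ^ (3 * e) = (x ^ e) ^ 3 := by
    intro x
    rw [← pow_mul]
    congr 1
    ring
  have hfac : u ^ (6 * e) - w ^ (6 * e) =
      (u ^ (3 * e) - w ^ (3 * e)) * ((u ^ e) ^ 3 + (w ^ e) ^ 3) := by
    have e2 : ∀ x : ℤ, x ^ (6 * e) = (x ^ e) ^ 6 := by
      intro x
      rw [← pow_mul]
      congr 1
      ring
    rw [e2, e2, e3, e3]
    ring
  have hunit : ∀ p : ℕ, p.Prime → p ∣ V → ¬ (p : ℤ) ∣ (u ^ e) ^ 3 := by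
    intro p hp hpV h1
    have hpi := Nat.prime_iff_prime_int.1 hp
    exact h.not_dvd (by omega) hp hpV hu (hpi.dvd_of_dvd_pow (hpi.dvd_of_dvd_pow h1))
  have hval : ∀ p : ℕ, p.Prime → p ≠ 2 → 3 ∣ padicValInt p ((u ^ e) ^ 3 + (w ^ e) ^ 3) := by
    apply factor_val h hA hV hu hw pu pw hne (F := (u ^ e) ^ 3 + (w ^ e) ^ 3)
      (K := u ^ (3 * e) - w ^ (3 * e)) (by rw [hfac]; ring) (psi_factor hne hfac)
    intro p hp hp2 hpV hpF
    have hpi := Nat.prime_iff_prime_int.1 hp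
    have n1 : ¬ (p : ℤ) ∣ u ^ (3 * e) - w ^ (3 * e) := by
      intro h1
      rw [e3, e3] at h1
      have e4 : (p : ℤ) ∣ 2 * (u ^ e) ^ 3 := by
        have := dvd_add hpF h1
        ring_nf at this ⊢
        exact this
      exact hunit p hp hpV ((hpi.dvd_or_dvd e4).resolve_left (not_dvd_two hp hp2))
    exact ⟨(hS p hp hp2 hpV).resolve_right n1, n1⟩
  have hc := (cop_per h hA hV (by omega) hu hw pu pw hne).pow (m := e) (n := e)
  have hpow := NM.pow_ne h hV hu hw (per_NM pu pw hne)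
  rcases pairB hc hval h4 with h3 | h3 | h3 | h3
  · exfalso
    apply hpow
    rw [mul_comm 6 e, pow_mul, pow_mul, h3]
  · exfalso
    apply hpow
    rw [mul_comm 6 e, pow_mul, pow_mul, h3]
    ring
  · exact Or.inl (pow_eq_zero_iff he.ne' |>.1 h3)
  · exact Or.inr (pow_eq_zero_iff he.ne' |>.1 h3)

theorem B_odd {e : ℕ} (h : Sys (6 * e) A B V O φ) (he : 0 < e) (hA : A ≠ 0) (hV : 0 < V)
    (hV2 : ¬ 2 ∣ V) {u w : ℤ} (hu : u ∈ O) (hw : w ∈ O) (pu : Per φ u) (pw : Per φ w)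
    (hne : u ≠ w)
    (hS : ∀ p : ℕ, p.Prime → p ≠ 2 → p ∣ V →
      3 ∣ padicValInt p (u ^ (6 * e) - w ^ (6 * e)) ∨ (p : ℤ) ∣ u ^ (3 * e) - w ^ (3 * e)) :
    u = 0 ∨ w = 0 := by
  apply B_main h he hA hV hu hw pu pw hne hS
  intro h4
  have h1 := odd_sum h ⟨3 * e, by ring⟩ hA hV hV2 hu hw pu pw hne
  apply h1
  have h2 : (2 : ℤ) ∣ (u ^ e) ^ 3 + (w ^ e) ^ 3 := (by norm_num : (2 : ℤ) ∣ 4).trans h4
  have e1 : ∀ x : ℤ, (x ^ e) ^ 3 = x ^ (e * 3) := fun x => by rw [pow_mul]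
  rw [e1, e1] at h2
  have h3 := (even_iff_two_dvd.2 h2)
  rw [Int.even_add, Int.even_pow' (by omega), Int.even_pow' (by omega)] at h3
  exact even_iff_two_dvd.1 (Int.even_add.2 h3)

theorem B_even {e : ℕ} (h : Sys (6 * e) A B V O φ) (he : 0 < e) (hA : A ≠ 0) (hV : 0 < V)
    (hV2 : 2 ∣ V) {u w : ℤ} (hu : u ∈ O) (hw : w ∈ O) (pu : Per φ u) (pw : Per φ w) (hne : u ≠ w)
    (hS : ∀ p : ℕ, p.Prime → p ≠ 2 → p ∣ V →
      3 ∣ padicValInt p (u ^ (6 * e) - w ^ (6 * e)) ∨ (p : ℤ) ∣ u ^ (3 * e) - w ^ (3 * e)) :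
    ¬ (4 : ℤ) ∣ u ^ (3 * e) - w ^ (3 * e) := by
  intro h4
  have hu2 := odd_of_even_V h (by omega) hV2 hu
  have hw2 := odd_of_even_V h (by omega) hV2 hw
  have e3 : ∀ x : ℤ, x ^ (3 * e) = (x ^ e) ^ 3 := by
    intro x
    rw [← pow_mul]
    congr 1
    ring
  have hwe : ¬ (2 : ℤ) ∣ (w ^ e) ^ 3 := fun h3 =>
    hw2 (Int.prime_two.dvd_of_dvd_pow (Int.prime_two.dvd_of_dvd_pow h3))
  rw [e3, e3] at h4
  rcases B_main h he hA hV hu hw pu pw hne hS (by omega) with h3 | h3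
  · exact hu2 (by rw [h3]; exact dvd_zero _)
  · exact hw2 (by rw [h3]; exact dvd_zero _)

/-! ### counting -/

theorem pigeon (T : Finset ℤ) (S : Finset ℕ) (κ : ℤ → ℤ) (g : ℕ → ℤ → ℕ) (N : ℕ) (n : ℕ → ℕ)
    (hκ : (T.image κ).card ≤ N) (hg : ∀ p ∈ S, (T.image (g p)).card ≤ n p)
    (hinj : ∀ x ∈ T, ∀ y ∈ T, κ x = κ y → (∀ p ∈ S, g p x = g p y) → x = y) :
    T.card ≤ N * ∏ p ∈ S, n p := by
  classical
  have h1 : T.card ≤ ((T.image κ) ×ˢ (S.pi fun p => T.image (g p))).card := by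
    apply card_le_card_of_injOn (fun x => (κ x, fun p _ => g p x))
    · intro x hx
      simp only [coe_product, Set.mem_prod, mem_coe, mem_pi]
      exact ⟨mem_image_of_mem _ hx, fun p _ => mem_image_of_mem _ hx⟩
    · intro x hx y hy hxy
      rw [Prod.mk.injEq] at hxy
      exact hinj x hx y hy hxy.1 (fun p hp => congrFun (congrFun hxy.2 p) hp)
  rw [card_product, card_pi] at h1
  exact h1.trans (Nat.mul_le_mul hκ (prod_le_prod' hg))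

theorem image_parity (T : Finset ℤ) : (T.image (fun u : ℤ => u % 2)).card ≤ 2 := by
  have : T.image (fun u : ℤ => u % 2) ⊆ {0, 1} := by
    intro z hz
    rw [mem_image] at hz
    obtain ⟨u, -, rfl⟩ := hz
    have := Int.emod_two_eq_zero_or_one u
    simpa using this
  exact (card_le_card this).trans card_le_two

theorem image_mod4 (T : Finset ℤ) (h : ∀ u ∈ T, ¬ (2 : ℤ) ∣ u) :
    (T.image (fun u : ℤ => u % 4)).card ≤ 2 := by
  have : T.image (fun u : ℤ => u % 4) ⊆ {1, 3} := by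
    intro z hz
    rw [mem_image] at hz
    obtain ⟨u, hu, rfl⟩ := hz
    have := h u hu
    simp only [mem_insert, mem_singleton]
    omega
  exact (card_le_card this).trans card_le_two

/-- the classes of `u ^ m` modulo `p`, where `d = k m` -/
theorem image_classes (h : Sys d A B V O φ) {k m : ℕ} (hk : 0 < k) (hd : d = k * m) {p : ℕ}
    (hp : p.Prime) (hpV : p ∣ V) (T : Finset ℤ) (hT : T ⊆ O) :
    (T.image (fun u : ℤ => ((u ^ m : ℤ) : ZMod p).val)).card ≤ Nat.gcd k (p - 1) := by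
  have := Fact.mk hp
  have hB' : (B : ZMod p) ≠ 0 := by
    intro h0
    exact h.not_dvd_B hp hpV ((ZMod.intCast_zmod_eq_zero_iff_dvd _ p).1 h0)
  have h1 := card_image_gcd hp (d := k) hk (A := (A : ZMod p)) hB' (T.image (fun u => u ^ m)) (by
    intro x hx
    obtain ⟨u, hu, rfl⟩ := mem_image.1 hx
    have h2 := (ZMod.intCast_zmod_eq_zero_iff_dvd _ p).2 (h.dvd_eqn hpV (hT hu))
    push_cast at h2 ⊢
    rw [← pow_mul, mul_comm m k, ← hd]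
    exact h2)
  have h3 : T.image (fun u : ℤ => ((u ^ m : ℤ) : ZMod p).val) =
      ((T.image (fun u => u ^ m)).image (fun u : ℤ => (u : ZMod p))).image ZMod.val := by
    rw [image_image, image_image]
    rfl
  rw [h3]
  exact card_image_le.trans h1

theorem dvd_of_val {p : ℕ} (hp : p.Prime) {x y : ℤ}
    (h : ((x : ℤ) : ZMod p).val = ((y : ℤ) : ZMod p).val) : (p : ℤ) ∣ x - y := by
  have := Fact.mk hp
  have h1 := ZMod.val_injective p h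
  rw [← ZMod.intCast_zmod_eq_zero_iff_dvd]
  push_cast
  rw [h1, sub_self]

end

end Pool.Agent.W2helper83.UC
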