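import Mathlib

/-!
# The quartics `k² = M⁴ + 3 l M² N² + 3 l² N⁴`, `l = 1, 3`
-/

set_option autoImplicit false

namespace Pool.Agent.W2helper83.UC

theorem three_prime : Prime (3 : ℤ) := Int.prime_three

theorem assoc_three {z : ℤ} (hz : Prime z) (h : z ∣ 3) : (3 : ℤ) ∣ z :=
  (hz.associated_of_dvd three_prime h).symm.dvd

/-- a prime dividing `3 l² x` divides `3` or `x` -/
theorem prime_dvd_case {l : ℤ} (hl : l = 1 ∨ l = 3) {z x : ℤ} (hz : Prime z)
    (h : z ∣ 3 * l ^ 2 * x) : (3 : ℤ) ∣ z ∨ z ∣ x := by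
  rcases hz.dvd_or_dvd h with h | h
  · left
    rcases hz.dvd_or_dvd h with h | h
    · exact assoc_three hz h
    · have := hz.dvd_of_dvd_pow h
      rcases hl with rfl | rfl
      · exact absurd (isUnit_of_dvd_one this) hz.not_isUnit
      · exact assoc_three hz this
  · right; exact h

theorem pow_of_coprime {a b c : ℤ} {k : ℕ} (hab : IsCoprime a b) (ha : 0 ≤ a)
    (h : a * b = c ^ k) : ∃ r : ℤ, 0 ≤ r ∧ a = r ^ k := by
  obtain ⟨d, hd⟩ := exists_associated_pow_of_mul_eq_pow' hab h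
  refine ⟨|d|, abs_nonneg d, ?_⟩
  rw [← abs_pow]
  rcases Int.associated_iff.1 hd with h1 | h1
  · rw [h1, abs_of_nonneg ha]
  · rw [h1, abs_neg, abs_of_nonneg ha]

theorem split4 {l : ℤ} (hl : l = 1 ∨ l = 3) {a b n : ℤ} (ha : 0 < a) (hb : 0 < b)
    (hab : IsCoprime a b) (h : a * b = 3 * l ^ 2 * n ^ 4) (h3 : ¬ (3 : ℤ) ∣ a) :
    ∃ r s : ℤ, a = r ^ 4 ∧ b = 3 * l ^ 2 * s ^ 4 ∧ n ^ 2 = r ^ 2 * s ^ 2 := by
  have hc : IsCoprime a (3 * l ^ 2) := by
    have h1 : IsCoprime a 3 := by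
      exact (three_prime.coprime_iff_not_dvd.2 h3).symm
    apply h1.mul_right
    rcases hl with rfl | rfl
    · simpa using isCoprime_one_right
    · exact h1.pow_right
  obtain ⟨b', rfl⟩ : 3 * l ^ 2 ∣ b := by
    apply hc.symm.dvd_of_dvd_mul_left
    exact ⟨n ^ 4, h⟩
  have hl0 : (0 : ℤ) < 3 * l ^ 2 := by rcases hl with rfl | rfl <;> norm_num
  have hb' : 0 < b' := pos_of_mul_pos_right hb hl0.le
  have h4 : a * b' = n ^ 4 := by
    apply mul_left_cancel₀ hl0.ne'
    linear_combination h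
  have hab' : IsCoprime a b' := hab.of_mul_right_right
  obtain ⟨r, -, hr⟩ := pow_of_coprime hab' ha.le h4
  obtain ⟨s, -, hs⟩ := pow_of_coprime hab'.symm hb'.le (by rw [mul_comm]; exact h4)
  refine ⟨r, s, hr, by rw [hs], ?_⟩
  have h5 : (n ^ 2) ^ 2 = (r ^ 2 * s ^ 2) ^ 2 := by
    rw [hr, hs] at h4
    linear_combination -h4
  exact (pow_left_inj₀ (by positivity) (by positivity) (by norm_num)).1 h5

theorem mod8_a : ∀ k M j : ZMod 8,
    ¬ k ^ 2 = M ^ 4 + 3 * 1 * M ^ 2 * (2 * j + 1) ^ 2 + 3 * 1 ^ 2 * (2 * j + 1) ^ 4 := by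
  decide +kernel

theorem mod8_b : ∀ k M j : ZMod 8,
    ¬ k ^ 2 = M ^ 4 + 3 * 3 * M ^ 2 * (2 * j + 1) ^ 2 + 3 * 3 ^ 2 * (2 * j + 1) ^ 4 := by
  decide +kernel

theorem mod8_c : ∀ i r j : ZMod 8,
    ¬ (2 * i + 1) ^ 2 = r ^ 4 - 6 * 1 * r ^ 2 * (2 * j + 1) ^ 2 - 3 * 1 ^ 2 * (2 * j + 1) ^ 4 := by
  decide +kernel

theorem mod8_d : ∀ i r j : ZMod 8,
    ¬ (2 * i + 1) ^ 2 = r ^ 4 - 6 * 3 * r ^ 2 * (2 * j + 1) ^ 2 - 3 * 3 ^ 2 * (2 * j + 1) ^ 4 := by
  decide +kernel

theorem mod3_a : ∀ M r : ZMod 3, -r ^ 4 = M ^ 2 → M = 0 := by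
  decide

/-- `N` is even -/
theorem even_N {l : ℤ} (hl : l = 1 ∨ l = 3) {k M N : ℤ}
    (h : k ^ 2 = M ^ 4 + 3 * l * M ^ 2 * N ^ 2 + 3 * l ^ 2 * N ^ 4) : ∃ N', N = 2 * N' := by
  rcases Int.even_or_odd' N with ⟨j, hj | hj⟩
  · exact ⟨j, hj⟩
  · exfalso
    rw [hj] at h
    have h1 := congrArg (Int.cast : ℤ → ZMod 8) h
    push_cast at h1
    rcases hl with rfl | rfl
    · exact mod8_a k M j (by push_cast at h1 ⊢; exact h1)
    · exact mod8_b k M j (by push_cast at h1 ⊢; exact h1)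

theorem even_s {l : ℤ} (hl : l = 1 ∨ l = 3) {i r s : ℤ}
    (h : (2 * i + 1) ^ 2 = r ^ 4 - 6 * l * r ^ 2 * s ^ 2 - 3 * l ^ 2 * s ^ 4) :
    ∃ s', s = 2 * s' := by
  rcases Int.even_or_odd' s with ⟨j, hj | hj⟩
  · exact ⟨j, hj⟩
  · exfalso
    rw [hj] at h
    have h1 := congrArg (Int.cast : ℤ → ZMod 8) h
    push_cast at h1
    rcases hl with rfl | rfl
    · exact mod8_c i r j (by push_cast at h1 ⊢; exact h1)
    · exact mod8_d i r j (by push_cast at h1 ⊢; exact h1)

/-- `M` is prime to three -/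
theorem three_M {l : ℤ} (hl : l = 1 ∨ l = 3) {k M N : ℤ} (hc : IsCoprime M N)
    (h : k ^ 2 = M ^ 4 + 3 * l * M ^ 2 * N ^ 2 + 3 * l ^ 2 * N ^ 4) : ¬ (3 : ℤ) ∣ M := by
  rintro ⟨i, rfl⟩
  have hN : ¬ (3 : ℤ) ∣ N := by
    intro h3
    exact three_prime.not_isUnit (hc.isUnit_of_dvd' (dvd_mul_right 3 i) h3)
  apply hN
  obtain ⟨k1, rfl⟩ : (3 : ℤ) ∣ k := by
    apply three_prime.dvd_of_dvd_pow (n := 2)
    exact ⟨27 * i ^ 4 + 9 * l * i ^ 2 * N ^ 2 + l ^ 2 * N ^ 4, by rw [h]; ring⟩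
  rcases hl with rfl | rfl
  · apply three_prime.dvd_of_dvd_pow (n := 4)
    refine ⟨k1 ^ 2 - 9 * i ^ 4 - 3 * i ^ 2 * N ^ 2, ?_⟩
    linarith
  · obtain ⟨k2, rfl⟩ : (3 : ℤ) ∣ k1 := by
      apply three_prime.dvd_of_dvd_pow (n := 2)
      refine ⟨3 * i ^ 4 + 3 * i ^ 2 * N ^ 2 + N ^ 4, ?_⟩
      linarith
    apply three_prime.dvd_of_dvd_pow (n := 4)
    refine ⟨k2 ^ 2 - i ^ 4 - i ^ 2 * N ^ 2, ?_⟩
    linarith

/-- **The quartic lemma.** -/
theorem quart_zero {l : ℤ} (hl : l = 1 ∨ l = 3) : ∀ (m : ℕ) (k M N : ℤ), N.natAbs = m →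
    IsCoprime M N → k ^ 2 = M ^ 4 + 3 * l * M ^ 2 * N ^ 2 + 3 * l ^ 2 * N ^ 4 → N = 0 := by
  intro m
  induction m using Nat.strong_induction_on with
  | _ m ih =>
    intro k M N hm hc h
    by_contra hN0
    wlog hk : 0 ≤ k generalizing k
    · exact this (-k) (by rw [neg_sq]; exact h) (by omega)
    have h3M := three_M hl hc h
    obtain ⟨n, rfl⟩ := even_N hl h
    have hlpos : (0 : ℤ) < l := by rcases hl with rfl | rfl <;> norm_num
    have hn0 : n ≠ 0 := by rintro rfl; simp at hN0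
    have hM2 : ¬ (2 : ℤ) ∣ M := by
      intro h2
      exact Int.prime_two.not_isUnit (hc.isUnit_of_dvd' h2 (dvd_mul_right 2 n))
    have hMn : IsCoprime M n := hc.of_mul_right_right
    obtain ⟨i, hi⟩ : ∃ i, M = 2 * i + 1 := ⟨M / 2, by omega⟩
    have hk1 : k ^ 2 = (M ^ 2 + 6 * l * n ^ 2) ^ 2 + 12 * l ^ 2 * n ^ 4 := by
      rw [h]; ring
    have hkodd : ¬ (2 : ℤ) ∣ k := by
      intro h2
      obtain ⟨k', rfl⟩ := h2
      apply hM2
      apply Int.prime_two.dvd_of_dvd_pow (n := 4)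
      refine ⟨2 * k' ^ 2 - 6 * l * M ^ 2 * n ^ 2 - 24 * l ^ 2 * n ^ 4, ?_⟩
      linarith
    have hM2odd : ∃ e, M ^ 2 + 6 * l * n ^ 2 = 2 * e + 1 := by
      refine ⟨2 * i ^ 2 + 2 * i + 3 * l * n ^ 2, ?_⟩
      rw [hi]; ring
    obtain ⟨e, he⟩ := hM2odd
    obtain ⟨kk, hkk⟩ : ∃ kk, k = 2 * kk + 1 := ⟨k / 2, by omega⟩
    -- the first factorization
    set a := kk - e with ha
    set b := kk + e + 1 with hb
    have hba : b - a = M ^ 2 + 6 * l * n ^ 2 := by rw [he, ha, hb]; ring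
    have hab2 : a + b = k := by rw [hkk, ha, hb]; ring
    have hab : a * b = 3 * l ^ 2 * n ^ 4 := by
      have h1 : 4 * (a * b) = (a + b) ^ 2 - (b - a) ^ 2 := by ring
      rw [hab2, hba, hk1] at h1
      linarith
    have hprod : 0 < a * b := by rw [hab]; positivity
    have hbpos : 0 < b := by
      by_contra hcon
      have hb0 : b ≠ 0 := by
        intro h0; rw [h0, mul_zero] at hprod; exact lt_irrefl _ hprod
      have hbneg : b < 0 := lt_of_le_of_ne (not_lt.1 hcon) hb0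
      have ha0 : a < 0 := by
        by_contra h4
        have := mul_nonpos_of_nonneg_of_nonpos (not_lt.1 h4) hbneg.le
        linarith
      omega
    have hapos : 0 < a := by
      by_contra h4
      have := mul_nonpos_of_nonpos_of_nonneg (not_lt.1 h4) hbpos.le
      linarith
    have hcopab : IsCoprime a b := by
      apply isCoprime_of_prime_dvd
      · rintro ⟨h1, -⟩; omega
      · intro z hz hza hzb
        have h1 : z ∣ M ^ 2 + 6 * l * n ^ 2 := by rw [← hba]; exact dvd_sub hzb hza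
        have h2 : z ∣ 3 * l ^ 2 * n ^ 4 := by rw [← hab]; exact Dvd.dvd.mul_right hza b
        rcases prime_dvd_case hl hz h2 with h4 | h4
        · apply h3M
          apply three_prime.dvd_of_dvd_pow (n := 2)
          have h5 : (3 : ℤ) ∣ M ^ 2 + 6 * l * n ^ 2 := h4.trans h1
          have h6 : (3 : ℤ) ∣ 6 * l * n ^ 2 := ⟨2 * l * n ^ 2, by ring⟩
          exact (dvd_add_left h6).1 h5
        · have h5 := hz.dvd_of_dvd_pow h4
          have h6 : z ∣ 6 * l * n ^ 2 := Dvd.dvd.mul_left (dvd_pow h5 (by norm_num)) _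
          have h7 := hz.dvd_of_dvd_pow ((dvd_add_left h6).1 h1)
          exact hz.not_isUnit (hMn.isUnit_of_dvd' h7 h5)
    -- which factor is divisible by three
    by_cases h3a : (3 : ℤ) ∣ a
    swap
    · -- `a = r⁴`: impossible modulo three
      obtain ⟨r, s, hr, hs, -⟩ := split4 hl hapos hbpos hcopab hab h3a
      apply h3M
      have h1 : 3 * l ^ 2 * s ^ 4 - r ^ 4 = M ^ 2 + 6 * l * n ^ 2 := by rw [← hr, ← hs]; exact hba
      have h2 := congrArg (Int.cast : ℤ → ZMod 3) h1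
      push_cast at h2
      have h30 : (3 : ZMod 3) = 0 := by decide
      have h60 : (6 : ZMod 3) = 0 := by decide
      rw [h30, h60] at h2
      have h4 : -(r : ZMod 3) ^ 4 = (M : ZMod 3) ^ 2 := by linear_combination h2
      have h5 := mod3_a _ _ h4
      exact (ZMod.intCast_zmod_eq_zero_iff_dvd M 3).1 h5
    · have h3b : ¬ (3 : ℤ) ∣ b := fun h4 => three_prime.not_isUnit (hcopab.isUnit_of_dvd' h3a h4)
      obtain ⟨r, s, hr, hs, hrs⟩ := split4 hl hbpos hapos hcopab.symm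
        (by rw [mul_comm]; exact hab) h3b
      have hM2' : M ^ 2 = r ^ 4 - 6 * l * r ^ 2 * s ^ 2 - 3 * l ^ 2 * s ^ 4 := by
        have h1 : r ^ 4 - 3 * l ^ 2 * s ^ 4 = M ^ 2 + 6 * l * n ^ 2 := by
          rw [← hr, ← hs]; exact hba
        rw [hrs] at h1
        linarith
      have hs0 : s ≠ 0 := by
        rintro rfl
        apply hn0
        have : n ^ 2 = 0 := by rw [hrs]; ring
        exact pow_eq_zero_iff (by norm_num) |>.1 this
      have hr0 : r ≠ 0 := by
        rintro rfl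
        apply hn0
        have : n ^ 2 = 0 := by rw [hrs]; ring
        exact pow_eq_zero_iff (by norm_num) |>.1 this
      obtain ⟨s', hs'⟩ := even_s hl (i := i) (r := r) (s := s) (by rw [← hi]; exact hM2')
      have hcrs : IsCoprime r s := by
        have h1 := hcopab
        rw [hr, hs] at h1
        have h2 : IsCoprime (s ^ 4) (r ^ 4) := h1.of_mul_left_right
        exact ((IsCoprime.pow_iff (by norm_num) (by norm_num)).1 h2).symm
      have hrodd : ¬ (2 : ℤ) ∣ r := by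
        intro h2
        exact Int.prime_two.not_isUnit (hcrs.isUnit_of_dvd' h2 ⟨s', hs'⟩)
      obtain ⟨j, hj⟩ : ∃ j, r = 2 * j + 1 := ⟨r / 2, by omega⟩
      -- the second factorization
      obtain ⟨f, hf⟩ : ∃ f, r ^ 2 - 3 * l * s ^ 2 = 2 * f + 1 := by
        refine ⟨2 * j ^ 2 + 2 * j - 6 * l * s' ^ 2, ?_⟩
        rw [hj, hs']; ring
      set c := f - i with hcdef
      set d := f + i + 1 with hddef
      have hdc : d - c = M := by rw [hi, hcdef, hddef]; ring
      have hcd2 : c + d = r ^ 2 - 3 * l * s ^ 2 := by rw [hf, hcdef, hddef]; ring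
      have hcd : c * d = 3 * l ^ 2 * s ^ 4 := by
        have h1 : 4 * (c * d) = (c + d) ^ 2 - (d - c) ^ 2 := by ring
        rw [hcd2, hdc, hM2'] at h1
        linarith
      have hsum : 0 < r ^ 2 - 3 * l * s ^ 2 := by
        by_contra hcon
        have h1 : r ^ 2 ≤ 3 * l * s ^ 2 := by linarith
        have h2 : 0 ≤ M ^ 2 := sq_nonneg M
        have h4 : r ^ 2 * r ^ 2 ≤ r ^ 2 * (3 * l * s ^ 2) :=
          mul_le_mul_of_nonneg_left h1 (sq_nonneg r)
        have h5 : 0 < l ^ 2 * s ^ 4 := by positivity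
        have h6 : 0 ≤ l * (r ^ 2 * s ^ 2) := by positivity
        nlinarith
      have hprod2 : 0 < c * d := by rw [hcd]; positivity
      have hdpos : 0 < d := by
        by_contra hcon
        have hb0 : d ≠ 0 := by
          intro h0; rw [h0, mul_zero] at hprod2; exact lt_irrefl _ hprod2
        have hbneg : d < 0 := lt_of_le_of_ne (not_lt.1 hcon) hb0
        have ha0 : c < 0 := by
          by_contra h4
          have := mul_nonpos_of_nonneg_of_nonpos (not_lt.1 h4) hbneg.le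
          linarith
        linarith
      have hcpos : 0 < c := by
        by_contra h4
        have := mul_nonpos_of_nonpos_of_nonneg (not_lt.1 h4) hdpos.le
        linarith
      have hcopcd : IsCoprime c d := by
        apply isCoprime_of_prime_dvd
        · rintro ⟨h1, -⟩; omega
        · intro z hz hza hzb
          have h1 : z ∣ M := by rw [← hdc]; exact dvd_sub hzb hza
          have h2 : z ∣ 3 * l ^ 2 * s ^ 4 := by rw [← hcd]; exact Dvd.dvd.mul_right hza d
          rcases prime_dvd_case hl hz h2 with h4 | h4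
          · exact h3M (h4.trans h1)
          · have h5 := hz.dvd_of_dvd_pow h4
            have h6 : z ∣ 3 * l * s ^ 2 := Dvd.dvd.mul_left (dvd_pow h5 (by norm_num)) _
            have h7 : z ∣ r ^ 2 - 3 * l * s ^ 2 := by rw [← hcd2]; exact dvd_add hza hzb
            have h8 : z ∣ r ^ 2 := by
              have := dvd_add h7 h6
              rwa [sub_add_cancel] at this
            exact hz.not_isUnit (hcrs.isUnit_of_dvd' (hz.dvd_of_dvd_pow h8) h5)
      obtain ⟨t, w, hsum2, hcop2, hst⟩ : ∃ t w : ℤ, c + d = t ^ 4 + 3 * l ^ 2 * w ^ 4 ∧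
          IsCoprime (t ^ 4) (3 * l ^ 2 * w ^ 4) ∧ s ^ 2 = t ^ 2 * w ^ 2 := by
        by_cases h3c : (3 : ℤ) ∣ c
        · have h3d : ¬ (3 : ℤ) ∣ d := fun h4 =>
            three_prime.not_isUnit (hcopcd.isUnit_of_dvd' h3c h4)
          obtain ⟨t, w, ht, hw, htw⟩ := split4 hl hdpos hcpos hcopcd.symm
            (by rw [mul_comm]; exact hcd) h3d
          refine ⟨t, w, by rw [← ht, ← hw]; ring, ?_, htw⟩
          rw [← ht, ← hw]; exact hcopcd.symm
        · obtain ⟨t, w, ht, hw, htw⟩ := split4 hl hcpos hdpos hcopcd hcd h3c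
          refine ⟨t, w, by rw [← ht, ← hw], ?_, htw⟩
          rw [← ht, ← hw]; exact hcopcd
      have htw : IsCoprime t w := by
        have h2 : IsCoprime (t ^ 4) (w ^ 4) := hcop2.of_mul_right_right
        exact (IsCoprime.pow_iff (by norm_num) (by norm_num)).1 h2
      have hnew : r ^ 2 = t ^ 4 + 3 * l * t ^ 2 * w ^ 2 + 3 * l ^ 2 * w ^ 4 := by
        have h1 : r ^ 2 = 3 * l * s ^ 2 + (c + d) := by rw [hcd2]; ring
        rw [h1, hsum2, hst]; ring
      have hw0 : w ≠ 0 := by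
        rintro rfl
        apply hs0
        have : s ^ 2 = 0 := by rw [hst]; ring
        exact pow_eq_zero_iff (by norm_num) |>.1 this
      have ht0 : t ≠ 0 := by
        rintro rfl
        apply hs0
        have : s ^ 2 = 0 := by rw [hst]; ring
        exact pow_eq_zero_iff (by norm_num) |>.1 this
      have hlt : w.natAbs < (2 * n).natAbs := by
        rw [Int.natAbs_lt_iff_sq_lt]
        have h1 : (2 * n) ^ 2 = 4 * ((r ^ 2 * t ^ 2) * w ^ 2) := by
          have : (2 * n) ^ 2 = 4 * n ^ 2 := by ring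
          rw [this, hrs, hst]; ring
        rw [h1]
        have h2 : 0 < r ^ 2 * t ^ 2 := by positivity
        have h4 : 0 < w ^ 2 := by positivity
        nlinarith
      exact hw0 (ih _ (by rw [← hm]; exact hlt) r t w rfl htw hnew)

end Pool.Agent.W2helper83.UC
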