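import Pool.Agent.W2helper83.UC.Weak

/-!
# From `a x ^ d + c` over `ℚ` to the normal form
-/

set_option autoImplicit false

namespace Pool.Agent.W2helper83.UC

open Finset Pool.Agent.T6.H62.UB

/-- The data of the reduction. -/
structure Red (d : ℕ) (a c : ℚ) (OQ : Finset ℚ) (l : ℚ) (A B : ℤ) (V : ℕ) (O : Finset ℤ)
    (φ : ℤ → ℤ) : Prop where
  l0 : l ≠ 0
  V0 : 0 < V
  A0 : A ≠ 0
  sys : Sys d A B V O φ
  ha : a * l ^ (d - 1) * V = A
  hc : c * V = B * l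
  mem : ∀ n ∈ O, l * n ∈ OQ
  surj : ∀ x ∈ OQ, ∃ n ∈ O, l * (n : ℚ) = x
  conj : ∀ n ∈ O, l * (φ n : ℚ) = a * (l * n) ^ d + c

theorem reduce {d : ℕ} (hd2 : 2 ≤ d) {a c : ℚ} (ha : a ≠ 0) (OQ : Finset ℚ)
    (hinv : ∀ x ∈ OQ, a * x ^ d + c ∈ OQ) (hne : ∃ x ∈ OQ, x ≠ 0) :
    ∃ (l : ℚ) (A B : ℤ) (V : ℕ) (O : Finset ℤ) (φ : ℤ → ℤ), Red d a c OQ l A B V O φ := by
  classical
  set N : ℕ := ∏ x ∈ OQ, x.den with hN
  have hN0 : 0 < N := prod_pos fun x _ => x.den_pos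
  have hNQ : (N : ℚ) ≠ 0 := by exact_mod_cast hN0.ne'
  set h : ℚ → ℤ := fun x => ((N : ℚ) * x).num with hh
  have hx1 : ∀ x ∈ OQ, ((h x : ℤ) : ℚ) = N * x := by
    intro x hx
    obtain ⟨k, hk⟩ : x.den ∣ N := dvd_prod_of_mem _ hx
    have e1 : (N : ℚ) * x = ((k * x.num : ℤ) : ℚ) := by
      rw [hk]
      push_cast
      have : (x.den : ℚ) * x = x.num := by
        rw [mul_comm]; exact Rat.mul_den_eq_num x
      linear_combination (k : ℚ) * this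
    rw [hh]
    simp only
    rw [e1, Rat.num_intCast]
  have hOne : OQ.Nonempty := by obtain ⟨x, hx, -⟩ := hne; exact ⟨x, hx⟩
  obtain ⟨g, hg1, hg2⟩ := extract_gcd h hOne
  set G := OQ.gcd h with hG
  have hG0 : G ≠ 0 := by
    intro h0
    obtain ⟨x, hx, hx0⟩ := hne
    have e1 := hg1 x hx
    rw [h0, zero_mul] at e1
    have e2 := hx1 x hx
    rw [e1] at e2
    rcases mul_eq_zero.1 (show (N : ℚ) * x = 0 by rw [← e2]; norm_num) with e3 | e3
    · exact hNQ e3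
    · exact hx0 e3
  have hGQ : (G : ℚ) ≠ 0 := by exact_mod_cast hG0
  set l : ℚ := G / N with hl
  have hl0 : l ≠ 0 := div_ne_zero hGQ hNQ
  have hlg : ∀ x ∈ OQ, l * (g x : ℚ) = x := by
    intro x hx
    have e1 := hx1 x hx
    rw [hg1 x hx] at e1
    push_cast at e1
    rw [hl]
    field_simp
    linear_combination e1
  set φ : ℤ → ℤ := fun n => ((a * (l * n) ^ d + c) / l).num with hφ
  have hφg : ∀ x ∈ OQ, φ (g x) = g (a * x ^ d + c) := by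
    intro x hx
    have e1 := hlg _ (hinv x hx)
    rw [hφ]
    simp only
    rw [hlg x hx, ← e1, mul_div_cancel_left₀ _ hl0, Rat.num_intCast, e1]
  set r : ℚ := a * l ^ (d - 1) with hr
  have hr0 : r ≠ 0 := mul_ne_zero ha (pow_ne_zero _ hl0)
  set A := r.num with hA
  set V := r.den with hV
  have hVQ : (V : ℚ) ≠ 0 := by exact_mod_cast r.den_nz
  have hrV : r * V = A := Rat.mul_den_eq_num r
  obtain ⟨x0, hx0⟩ := hOne
  have hstep : ∀ x ∈ OQ, (V : ℚ) * (φ (g x) : ℚ) = A * (g x : ℚ) ^ d + V * (c / l) := by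
    intro x hx
    have e1 := hlg _ (hinv x hx)
    rw [← hφg x hx] at e1
    have e2 : (φ (g x) : ℚ) = (a * x ^ d + c) / l := by
      rw [← e1, mul_div_cancel_left₀ _ hl0]
    rw [e2, ← hrV, hr]
    have e3 : x ^ d = (l * (g x : ℚ)) ^ d := by rw [hlg x hx]
    rw [e3, mul_pow]
    obtain ⟨e, rfl⟩ : ∃ e, d = e + 1 := ⟨d - 1, by omega⟩
    rw [Nat.add_sub_cancel]
    field_simp
    ring
  set B : ℤ := V * φ (g x0) - A * (g x0) ^ d with hB
  have hBQ : (B : ℚ) = V * (c / l) := by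
    rw [hB]
    push_cast
    rw [hstep x0 hx0]
    ring
  have heqn : ∀ x ∈ OQ, (V : ℤ) * φ (g x) = A * (g x) ^ d + B := by
    intro x hx
    have e1 := hstep x hx
    rw [← hBQ] at e1
    exact_mod_cast e1
  have hcA : IsCoprime A (V : ℤ) := by
    rw [Int.isCoprime_iff_gcd_eq_one]
    exact r.reduced
  refine ⟨l, A, B, V, OQ.image g, φ, hl0, r.den_pos, ?_, ⟨?_, ?_, hcA, ?_⟩, hrV, ?_, ?_, ?_, ?_⟩
  · intro h0
    exact hr0 (Rat.num_eq_zero.1 h0)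
  · intro u hu
    obtain ⟨x, hx, rfl⟩ := mem_image.1 hu
    rw [hφg x hx]
    exact mem_image_of_mem _ (hinv x hx)
  · intro u hu
    obtain ⟨x, hx, rfl⟩ := mem_image.1 hu
    exact heqn x hx
  · apply cop_of_nat
    · rintro ⟨-, h0⟩
      have : V = 0 := by exact_mod_cast h0
      exact r.den_nz this
    · intro p hp hpB hpV
      have hpi := Nat.prime_iff_prime_int.1 hp
      have h1 : (p : ℤ) ∣ OQ.gcd g := by
        apply Finset.dvd_gcd
        intro x hx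
        have e1 := heqn x hx
        have e2 : (p : ℤ) ∣ A * (g x) ^ d + B := by
          rw [← e1]; exact Dvd.dvd.mul_right hpV _
        have e3 := (dvd_add_left hpB).1 e2
        rcases hpi.dvd_or_dvd e3 with e4 | e4
        · exact absurd hpV (cop_not hcA hp e4)
        · exact hpi.dvd_of_dvd_pow e4
      rw [hg2] at h1
      exact hpi.not_isUnit (isUnit_of_dvd_one h1)
  · rw [hBQ]
    field_simp
  · intro n hn
    obtain ⟨x, hx, rfl⟩ := mem_image.1 hn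
    rw [hlg x hx]; exact hx
  · intro x hx
    exact ⟨g x, mem_image_of_mem _ hx, hlg x hx⟩
  · intro n hn
    obtain ⟨x, hx, rfl⟩ := mem_image.1 hn
    rw [hφg x hx, hlg x hx, hlg _ (hinv x hx)]

section

variable {d : ℕ} {a c : ℚ} {OQ : Finset ℚ} {l : ℚ} {A B : ℤ} {V : ℕ} {O : Finset ℤ} {φ : ℤ → ℤ}

theorem Red.iter (R : Red d a c OQ l A B V O φ) {n : ℤ} (hn : n ∈ O) (k : ℕ) :
    l * ((φ^[k] n : ℤ) : ℚ) = (fun x : ℚ => a * x ^ d + c)^[k] (l * n) := by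
  induction k with
  | zero => rfl
  | succ k ih =>
    rw [Function.iterate_succ_apply', Function.iterate_succ_apply', ← ih]
    exact R.conj _ (R.sys.iter_mem hn k)

theorem Red.iter_eq (R : Red d a c OQ l A B V O φ) {n m : ℤ} (hn : n ∈ O) (hm : m ∈ O) {j k : ℕ} :
    φ^[j] n = φ^[k] m ↔ (fun x : ℚ => a * x ^ d + c)^[j] (l * n) =
      (fun x : ℚ => a * x ^ d + c)^[k] (l * m) := by
  rw [← R.iter hn, ← R.iter hm]
  constructor
  · intro h; rw [h]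
  · intro h
    exact_mod_cast mul_left_cancel₀ R.l0 h

theorem Red.per_iff (R : Red d a c OQ l A B V O φ) {n : ℤ} (hn : n ∈ O) :
    Per φ n ↔ ∃ k : ℕ, 0 < k ∧ (fun x : ℚ => a * x ^ d + c)^[k] (l * n) = l * n := by
  constructor
  · rintro ⟨k, hk, h⟩
    exact ⟨k, hk, (R.iter_eq (j := k) (k := 0) hn hn).1 h⟩
  · rintro ⟨k, hk, h⟩
    exact ⟨k, hk, (R.iter_eq (j := k) (k := 0) hn hn).2 h⟩

theorem Red.pre (R : Red d a c OQ l A B V O φ)
    (hpre : ∀ x ∈ OQ, IsPreperiodic (fun x : ℚ => a * x ^ d + c) x) :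
    ∀ n ∈ O, ∃ j k : ℕ, j < k ∧ φ^[j] n = φ^[k] n := by
  intro n hn
  obtain ⟨j, k, hjk, h⟩ := hpre _ (R.mem n hn)
  exact ⟨j, k, hjk, (R.iter_eq hn hn).2 h⟩

theorem Red.t_eq (R : Red d a c OQ l A B V O φ) (hd0 : d ≠ 0) :
    a * c ^ (d - 1) = ((A * B ^ (d - 1) : ℤ) : ℚ) / ((V ^ d : ℕ) : ℤ) := by
  have hVQ : (V : ℚ) ≠ 0 := by exact_mod_cast R.V0.ne'
  have hl := R.l0
  have hc : c = B * l / V := by
    rw [eq_div_iff hVQ]; exact R.hc
  obtain ⟨e, rfl⟩ : ∃ e, d = e + 1 := ⟨d - 1, by omega⟩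
  have ha := R.ha
  rw [Nat.add_sub_cancel] at ha ⊢
  rw [hc]
  push_cast
  rw [← ha, div_pow]
  field_simp
  ring

theorem Red.t_den (R : Red d a c OQ l A B V O φ) (hd0 : d ≠ 0) :
    (a * c ^ (d - 1)).den = V ^ d := by
  rw [R.t_eq hd0]
  have h1 : IsCoprime (A * B ^ (d - 1)) ((V ^ d : ℕ) : ℤ) := by
    push_cast
    exact (R.sys.copA.mul_left R.sys.copB.pow_left).pow_right
  have h2 := Rat.den_div_eq_of_coprime (a := A * B ^ (d - 1)) (b := ((V ^ d : ℕ) : ℤ))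
    (by have := R.V0; positivity) (by
      have := Int.isCoprime_iff_gcd_eq_one.1 h1
      exact this)
  exact_mod_cast h2

theorem Red.t_of_one (R : Red d a c OQ l A B V O φ) (hd0 : d ≠ 0) (hV : V = 1) :
    a * c ^ (d - 1) = ((A * B ^ (d - 1) : ℤ) : ℚ) := by
  rw [R.t_eq hd0, hV]
  simp

end

/-- The exceptional primes for the degree `d` and the parameter `t = a c ^ (d - 1)`. -/
def exc (d m : ℕ) (t : ℚ) : Finset ℕ :=
  t.den.primeFactors.filter fun p => p ≠ 2 ∧ 2 ^ (padicValNat 2 m + 1) ∣ p - 1 ∧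
    ¬ (3 * d ∣ padicValNat p t.den ∧ 3 ∣ padicValNat p d ∧
      d * padicValNat p d < padicValNat p t.den)

/-- The exceptional primes of the first kind. -/
def exc1 (d m : ℕ) (t : ℚ) : Finset ℕ :=
  t.den.primeFactors.filter fun p => p ≠ 2 ∧ 2 ^ (padicValNat 2 m + 1) ∣ p - 1 ∧
    ¬ (3 * d ∣ padicValNat p t.den ∧ d * padicValNat p d < padicValNat p t.den)

section

variable {d : ℕ} {a c : ℚ} {OQ : Finset ℚ} {l : ℚ} {A B : ℤ} {V : ℕ} {O : Finset ℤ} {φ : ℤ → ℤ}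

theorem Red.val_t (R : Red d a c OQ l A B V O φ) (hd0 : d ≠ 0) {p : ℕ} (hp : p.Prime) :
    padicValNat p (a * c ^ (d - 1)).den = d * padicValNat p V := by
  have := Fact.mk hp
  rw [R.t_den hd0, padicValNat.pow]

theorem Red.exc_iff (R : Red d a c OQ l A B V O φ) (hd0 : d ≠ 0) {m p : ℕ} :
    p ∈ exc d m (a * c ^ (d - 1)) ↔ p.Prime ∧ p ∣ V ∧ p ≠ 2 ∧ Rel m p ∧ ¬ Cond d V p := by
  unfold exc
  rw [mem_filter, Nat.mem_primeFactors]
  have hV := R.V0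
  have hd1 : 0 < d := Nat.pos_of_ne_zero hd0
  constructor
  · rintro ⟨⟨hp, hpV, -⟩, hp2, hr, hC⟩
    rw [R.t_den hd0] at hpV
    have hpV' := hp.dvd_of_dvd_pow hpV
    refine ⟨hp, hpV', hp2, hr, fun hC' => hC ?_⟩
    have := Fact.mk hp
    rw [R.val_t hd0 hp]
    have h2 : 3 ∣ padicValNat p d ∧ padicValNat p d < padicValNat p V := by
      by_cases hpd : p ∣ d
      · exact hC'.2 hpd
      · rw [padicValNat.eq_zero_of_not_dvd hpd]
        exact ⟨dvd_zero _, one_le_padicValNat_of_dvd hV.ne' hpV'⟩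
    exact ⟨by rw [mul_comm 3 d]; exact Nat.mul_dvd_mul_left d hC'.1, h2.1,
      Nat.mul_lt_mul_of_pos_left h2.2 hd1⟩
  · rintro ⟨hp, hpV, hp2, hr, hC⟩
    refine ⟨⟨hp, by rw [R.t_den hd0]; exact dvd_pow hpV hd0, by
      rw [R.t_den hd0]; exact pow_ne_zero _ hV.ne'⟩, hp2, hr, fun hC' => hC ?_⟩
    have := Fact.mk hp
    rw [R.val_t hd0 hp] at hC'
    refine ⟨?_, fun _ => ⟨hC'.2.1, Nat.lt_of_mul_lt_mul_left hC'.2.2⟩⟩
    have h1 := hC'.1
    rw [mul_comm 3 d] at h1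
    exact Nat.dvd_of_mul_dvd_mul_left hd1 h1

theorem Red.exc (R : Red d a c OQ l A B V O φ) (hd0 : d ≠ 0) (m : ℕ) :
    Exc d m V (exc d m (a * c ^ (d - 1))) :=
  ⟨fun _ hp => ((R.exc_iff hd0).1 hp).1, fun _ hp => ((R.exc_iff hd0).1 hp).2.1,
    fun _ hp hp2 hpV hr hC => (R.exc_iff hd0).2 ⟨hp, hpV, hp2, hr, hC⟩⟩

theorem Red.hyp_one (R : Red d a c OQ l A B V O φ) (hd0 : d ≠ 0) {m : ℕ}
    (h1 : exc1 d m (a * c ^ (d - 1)) = ∅) : ∀ p : ℕ, p.Prime → p ≠ 2 → p ∣ V → Rel m p →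
      3 ∣ padicValNat p V ∧ padicValNat p d < padicValNat p V := by
  intro p hp hp2 hpV hr
  by_contra hcon
  have hV := R.V0
  have hd1 : 0 < d := Nat.pos_of_ne_zero hd0
  have hmem : p ∈ exc1 d m (a * c ^ (d - 1)) := by
    unfold exc1
    rw [mem_filter, Nat.mem_primeFactors]
    refine ⟨⟨hp, by rw [R.t_den hd0]; exact dvd_pow hpV hd0, by
      rw [R.t_den hd0]; exact pow_ne_zero _ hV.ne'⟩, hp2, hr, fun hC' => hcon ?_⟩
    rw [R.val_t hd0 hp] at hC'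
    have h2 := hC'.1
    rw [mul_comm 3 d] at h2
    exact ⟨Nat.dvd_of_mul_dvd_mul_left hd1 h2, Nat.lt_of_mul_lt_mul_left hC'.2⟩
  rw [h1] at hmem
  exact absurd hmem (by simp)

/-- the hypothesis of the strong theorem -/
theorem Red.hyp (R : Red d a c OQ l A B V O φ) (hd0 : d ≠ 0) {m : ℕ}
    (h1 : exc1 d m (a * c ^ (d - 1)) = ∅) {p1 p2 : ℕ}
    (h2 : UC.exc d m (a * c ^ (d - 1)) ⊆ {p1, p2}) : Hyp d m V p1 p2 := by
  refine ⟨R.hyp_one hd0 h1, fun p hp hp2 hpV hr h3 => ?_⟩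
  have hmem : p ∈ UC.exc d m (a * c ^ (d - 1)) := by
    rw [R.exc_iff hd0]
    refine ⟨hp, hpV, hp2, hr, fun hC => h3 ?_⟩
    by_cases hpd : p ∣ d
    · exact (hC.2 hpd).1
    · rw [padicValNat.eq_zero_of_not_dvd hpd]; exact dvd_zero _
  simpa using h2 hmem

end

theorem subset_pair {S : Finset ℕ} (h : S.card ≤ 2) : ∃ p q : ℕ, S ⊆ {p, q} := by
  have h1 : S.card = 0 ∨ S.card = 1 ∨ S.card = 2 := by omega
  rcases h1 with h1 | h1 | h1
  · rw [card_eq_zero] at h1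
    exact ⟨0, 0, by rw [h1]; exact empty_subset _⟩
  · obtain ⟨p, rfl⟩ := card_eq_one.1 h1
    exact ⟨p, p, by simp⟩
  · obtain ⟨p, q, -, rfl⟩ := card_eq_two.1 h1
    exact ⟨p, q, subset_rfl⟩

end Pool.Agent.W2helper83.UC
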