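import Pool.Agent.W2helper83.UC.Lucas

/-!
# Sixth powers, and the summary of the arithmetic
-/

set_option autoImplicit false

namespace Pool.Agent.W2helper83.UC

theorem flt3 {a b c : ℤ} (h : a ^ 3 + b ^ 3 = c ^ 3) : a = 0 ∨ b = 0 ∨ c = 0 := by
  by_contra hcon
  push Not at hcon
  exact (fermatLastTheoremFor_iff_int.1 fermatLastTheoremThree) a b c hcon.1 hcon.2.1 hcon.2.2 h

theorem cube_inj {a b : ℤ} (h : a ^ 3 = b ^ 3) : a = b :=
  (Odd.strictMono_pow (by decide : Odd 3)).injective h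

/-- a sum of two cubes which is not divisible by four and has odd valuations divisible by three -/
theorem pairB {σ θ : ℤ} (hc : IsCoprime σ θ)
    (h : ∀ p : ℕ, p.Prime → p ≠ 2 → 3 ∣ padicValInt p (σ ^ 3 + θ ^ 3))
    (h4 : ¬ (4 : ℤ) ∣ σ ^ 3 + θ ^ 3) : σ = θ ∨ σ = -θ ∨ σ = 0 ∨ θ = 0 := by
  by_cases h2 : (2 : ℤ) ∣ σ ^ 3 + θ ^ 3
  · obtain ⟨s, hs⟩ := h2
    have hs2 : ¬ (2 : ℤ) ∣ s := by
      rintro ⟨r, hr⟩
      exact h4 ⟨r, by rw [hs, hr]; ring⟩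
    have hs0 : s ≠ 0 := by rintro rfl; exact hs2 (dvd_zero _)
    obtain ⟨A, hA⟩ := cube_of_val_odd hs2 (fun p hp hp2 => by
      rw [← val_two_mul hp hp2 hs0, ← hs]; exact h p hp hp2)
    rcases cube_add_cube hc (by rw [hs, hA]) with h5 | h5
    · exact Or.inl h5
    · exact Or.inr (Or.inl h5)
  · obtain ⟨A, hA⟩ := cube_of_val_odd h2 h
    rcases flt3 hA with h5 | h5 | h5
    · exact Or.inr (Or.inr (Or.inl h5))
    · exact Or.inr (Or.inr (Or.inr h5))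
    · right; left
      apply cube_inj
      rw [h5] at hA
      linear_combination hA

theorem sext {σ θ : ℤ} (hc : IsCoprime σ θ)
    (h : ∀ p : ℕ, p.Prime → p ≠ 2 → 3 ∣ padicValInt p (σ ^ 6 - θ ^ 6)) :
    σ ^ 6 = θ ^ 6 ∨ σ = 0 ∨ θ = 0 := by
  by_contra hcon
  push Not at hcon
  obtain ⟨hne, hσ, hθ⟩ := hcon
  have hfac : σ ^ 6 - θ ^ 6 = (σ ^ 3 - θ ^ 3) * (σ ^ 3 + θ ^ 3) := by ring
  have h1 : σ ^ 3 - θ ^ 3 ≠ 0 := by
    intro h0
    apply hne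
    have : σ ^ 3 = θ ^ 3 := by linarith
    calc σ ^ 6 = (σ ^ 3) ^ 2 := by ring
      _ = (θ ^ 3) ^ 2 := by rw [this]
      _ = θ ^ 6 := by ring
  have h2 : σ ^ 3 + θ ^ 3 ≠ 0 := by
    intro h0
    apply hne
    have : σ ^ 3 = -θ ^ 3 := by linarith
    calc σ ^ 6 = (σ ^ 3) ^ 2 := by ring
      _ = (-θ ^ 3) ^ 2 := by rw [this]
      _ = θ ^ 6 := by ring
  have hn2 : ∀ p : ℕ, p.Prime → p ≠ 2 → ¬ (p : ℤ) ∣ 2 := by
    intro p hp hp2 hd
    exact hp2 ((Nat.prime_dvd_prime_iff_eq hp Nat.prime_two).1 (by exact_mod_cast hd))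
  have hv : ∀ p : ℕ, p.Prime → p ≠ 2 → 3 ∣ padicValInt p (σ ^ 3 - θ ^ 3) ∧
      3 ∣ padicValInt p (σ ^ 3 + θ ^ 3) := by
    intro p hp hp2
    have := Fact.mk hp
    have hpi := Nat.prime_iff_prime_int.1 hp
    have e1 := h p hp hp2
    rw [hfac, padicValInt.mul h1 h2] at e1
    by_cases d1 : (p : ℤ) ∣ σ ^ 3 - θ ^ 3
    · have d2 : ¬ (p : ℤ) ∣ σ ^ 3 + θ ^ 3 := by
        intro d2
        have e3 : (p : ℤ) ∣ 2 * σ ^ 3 := by
          have := dvd_add d1 d2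
          ring_nf at this ⊢
          exact this
        have e4 : (p : ℤ) ∣ 2 * θ ^ 3 := by
          have := dvd_sub d2 d1
          ring_nf at this ⊢
          exact this
        exact hpi.not_isUnit (hc.isUnit_of_dvd'
          (hpi.dvd_of_dvd_pow ((hpi.dvd_or_dvd e3).resolve_left (hn2 p hp hp2)))
          (hpi.dvd_of_dvd_pow ((hpi.dvd_or_dvd e4).resolve_left (hn2 p hp hp2))))
      rw [padicValInt.eq_zero_of_not_dvd d2] at e1
      rw [padicValInt.eq_zero_of_not_dvd d2]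
      exact ⟨by simpa using e1, dvd_zero _⟩
    · rw [padicValInt.eq_zero_of_not_dvd d1] at e1
      rw [padicValInt.eq_zero_of_not_dvd d1]
      exact ⟨dvd_zero _, by simpa using e1⟩
  have key : ¬ (4 : ℤ) ∣ σ ^ 3 + θ ^ 3 ∨ ¬ (4 : ℤ) ∣ σ ^ 3 - θ ^ 3 := by
    by_contra hcon
    push Not at hcon
    obtain ⟨⟨x, hx⟩, ⟨y, hy⟩⟩ := hcon
    have e1 : (2 : ℤ) ∣ σ := Int.prime_two.dvd_of_dvd_pow (n := 3) ⟨x + y, by linarith⟩
    have e2 : (2 : ℤ) ∣ θ := Int.prime_two.dvd_of_dvd_pow (n := 3) ⟨x - y, by linarith⟩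
    exact Int.prime_two.not_isUnit (hc.isUnit_of_dvd' e1 e2)
  rcases key with h4 | h4
  · rcases pairB hc (fun p hp hp2 => (hv p hp hp2).2) h4 with h5 | h5 | h5 | h5
    · exact h1 (by rw [h5]; ring)
    · exact h2 (by rw [h5]; ring)
    · exact hσ h5
    · exact hθ h5
  · have e : ∀ x y : ℤ, x ^ 3 + (-y) ^ 3 = x ^ 3 - y ^ 3 := by intro x y; ring
    rcases pairB hc.neg_right (fun p hp hp2 => by rw [e]; exact (hv p hp hp2).1)
      (by rw [e]; exact h4) with h5 | h5 | h5 | h5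
    · exact h2 (by rw [h5]; ring)
    · exact h1 (by rw [h5]; ring)
    · exact hσ h5
    · exact hθ (by omega)

/-- **The core statement** for exponents divisible by `4` or `6`. -/
theorem core {d : ℕ} (hd : 4 ∣ d ∨ 6 ∣ d) (hd0 : d ≠ 0) {σ θ : ℤ} (hc : IsCoprime σ θ)
    (h : ∀ p : ℕ, p.Prime → p ≠ 2 → 3 ∣ padicValInt p (σ ^ d - θ ^ d)) :
    σ ^ d = θ ^ d ∨ σ = 0 ∨ θ = 0 := by
  rcases hd with ⟨e, rfl⟩ | ⟨e, rfl⟩
  · have he : e ≠ 0 := by rintro rfl; exact hd0 rfl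
    have e1 : ∀ x : ℤ, x ^ (4 * e) = (x ^ e) ^ 4 := fun x => by rw [← pow_mul, mul_comm]
    rw [e1, e1] at h ⊢
    rcases quart (hc.pow) h with h5 | h5 | h5
    · exact Or.inl h5
    · exact Or.inr (Or.inl (pow_eq_zero_iff he |>.1 h5))
    · exact Or.inr (Or.inr (pow_eq_zero_iff he |>.1 h5))
  · have he : e ≠ 0 := by rintro rfl; exact hd0 rfl
    have e1 : ∀ x : ℤ, x ^ (6 * e) = (x ^ e) ^ 6 := fun x => by rw [← pow_mul, mul_comm]
    rw [e1, e1] at h ⊢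
    rcases sext (hc.pow) h with h5 | h5 | h5
    · exact Or.inl h5
    · exact Or.inr (Or.inl (pow_eq_zero_iff he |>.1 h5))
    · exact Or.inr (Or.inr (pow_eq_zero_iff he |>.1 h5))

end Pool.Agent.W2helper83.UC
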