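import Pool.Agent.W2helper83.UC.Struct

/-!
# Exponents divisible by eight or twelve: two exceptional primes are allowed
-/

set_option autoImplicit false

namespace Pool.Agent.W2helper83.UC

open Finset Pool.Agent.T6.H62.UB

/-! ### the core statement for the relevant primes -/

/-- the valuation of a factor -/
theorem val_factor {p : ℕ} (hp : p.Prime) {T F K : ℤ} (hT : T ≠ 0) (hFK : T = F * K)
    (hK : ¬ (p : ℤ) ∣ K) : padicValInt p F = padicValInt p T := by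
  have := Fact.mk hp
  have hF0 : F ≠ 0 := by rintro rfl; rw [zero_mul] at hFK; exact hT hFK
  have hK0 : K ≠ 0 := by rintro rfl; exact hK (dvd_zero _)
  rw [hFK, padicValInt.mul hF0 hK0, padicValInt.eq_zero_of_not_dvd hK, add_zero]

theorem even_pp {x : ℤ} {a b : ℕ} (ha : a ≠ 0) (hb : b ≠ 0) : Even ((x ^ a) ^ b) ↔ (2 : ℤ) ∣ x := by
  rw [Int.even_pow' hb, Int.even_pow' ha, even_iff_two_dvd]

theorem core_strong {d m : ℕ} (hs : Str d m) {x y : ℤ} (hc : IsCoprime x y)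
    (h : ∀ p : ℕ, p.Prime → p ≠ 2 → Rel m p → 3 ∣ padicValInt p (x ^ d - y ^ d)) :
    x ^ d = y ^ d ∨ x = 0 ∨ y = 0 := by
  by_contra hcon
  push Not at hcon
  obtain ⟨hne, hx, hy⟩ := hcon
  have hT : x ^ d - y ^ d ≠ 0 := sub_ne_zero.2 hne
  have hd0 := hs.d0
  have hm0 := hs.m0
  obtain ⟨a, ha⟩ := hs.pow
  -- primes dividing the difference are prime to `x` and `y`
  have hxy : ∀ p : ℕ, p.Prime → (p : ℤ) ∣ x ^ d - y ^ d → ¬ (p : ℤ) ∣ x ∧ ¬ (p : ℤ) ∣ y := by
    intro p hp hpd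
    have hpi := Nat.prime_iff_prime_int.1 hp
    constructor
    · intro h1
      have h2 : (p : ℤ) ∣ y ^ d := by
        have := dvd_sub (dvd_pow h1 hd0) hpd
        rwa [sub_sub_cancel] at this
      exact cop_not hc hp h1 (hpi.dvd_of_dvd_pow h2)
    · intro h1
      have h2 : (p : ℤ) ∣ x ^ d := by
        have := dvd_add hpd (dvd_pow h1 hd0)
        rwa [sub_add_cancel] at this
      exact cop_not hc hp (hpi.dvd_of_dvd_pow h2) h1
  -- a factor `F` with cofactor prime to `p`, divisible by `x ^ m - y ^ m`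
  have key : ∀ (F K : ℤ), x ^ d - y ^ d = F * K →
      (∀ p : ℕ, p.Prime → p ≠ 2 → (p : ℤ) ∣ F → ¬ (p : ℤ) ∣ K ∧ ¬ (p : ℤ) ∣ x ^ m - y ^ m) →
      ∀ p : ℕ, p.Prime → p ≠ 2 → 3 ∣ padicValInt p F := by
    intro F K hFK hp' p hp hp2
    by_cases hpF : (p : ℤ) ∣ F
    · obtain ⟨h1, h2⟩ := hp' p hp hp2 hpF
      by_cases hr : Rel m p
      · rw [val_factor hp hT hFK h1]; exact h p hp hp2 hr
      · exfalso
        have h3 : (p : ℤ) ∣ x ^ d - y ^ d := by rw [hFK]; exact Dvd.dvd.mul_right hpF _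
        have h4 := (hxy p hp h3).2
        rw [ha] at h3
        exact h2 (irrelevant hp hm0 h3 h4 hr)
    · rw [padicValInt.eq_zero_of_not_dvd hpF]; exact dvd_zero _
  have par : ¬ ((2 : ℤ) ∣ x ∧ (2 : ℤ) ∣ y) := fun h2 =>
    Int.prime_two.not_isUnit (hc.isUnit_of_dvd' h2.1 h2.2)
  rcases hs with ⟨e, he, rfl, rfl⟩ | ⟨e, he, rfl, rfl⟩
  · -- `8 ∣ d`
    have hfac : x ^ (4 * (2 * e)) - y ^ (4 * (2 * e)) =
        (x ^ (2 * e) - y ^ (2 * e)) * ((x ^ (2 * e) + y ^ (2 * e)) *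
          ((x ^ (2 * e)) ^ 2 + (y ^ (2 * e)) ^ 2)) := by
      rw [mul_comm 4 (2 * e), pow_mul x (2 * e) 4, pow_mul y (2 * e) 4]
      ring
    have e1 : ∀ z : ℤ, (z ^ (2 * e)) ^ 2 = (z ^ e) ^ 4 := by
      intro z
      rw [← pow_mul, ← pow_mul]
      congr 1
      ring
    have hcs : IsCoprime (x ^ (2 * e)) (y ^ (2 * e)) := hc.pow
    have hunit : ∀ p : ℕ, p.Prime → (p : ℤ) ∣ x ^ (4 * (2 * e)) - y ^ (4 * (2 * e)) →
        ¬ (p : ℤ) ∣ x ^ (2 * e) := fun p hp h1 h2 =>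
      (hxy p hp h1).1 ((Nat.prime_iff_prime_int.1 hp).dvd_of_dvd_pow h2)
    have v3 : ∀ p : ℕ, p.Prime → p ≠ 2 → 3 ∣ padicValInt p ((x ^ (2 * e)) ^ 2 +
        (y ^ (2 * e)) ^ 2) := by
      apply key _ ((x ^ (2 * e) - y ^ (2 * e)) * (x ^ (2 * e) + y ^ (2 * e)))
        (by rw [hfac]; ring)
      intro p hp hp2 hpF
      have hpi := Nat.prime_iff_prime_int.1 hp
      have n1 : ¬ (p : ℤ) ∣ (x ^ (2 * e) - y ^ (2 * e)) * (x ^ (2 * e) + y ^ (2 * e)) := by
        intro h1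
        have h0 : (p : ℤ) ∣ x ^ (4 * (2 * e)) - y ^ (4 * (2 * e)) := by
          rw [hfac]
          exact Dvd.dvd.mul_left (Dvd.dvd.mul_left hpF _) _
        have e3 : (p : ℤ) ∣ 2 * (x ^ (2 * e)) ^ 2 := by
          have := dvd_add hpF h1
          ring_nf at this ⊢
          exact this
        exact hunit p hp h0 (hpi.dvd_of_dvd_pow
          ((hpi.dvd_or_dvd e3).resolve_left (not_dvd_two hp hp2)))
      exact ⟨n1, fun h2 => n1 (Dvd.dvd.mul_right h2 _)⟩
    have v2 : ∀ p : ℕ, p.Prime → p ≠ 2 → 3 ∣ padicValInt p (x ^ (2 * e) + y ^ (2 * e)) := by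
      apply key _ ((x ^ (2 * e) - y ^ (2 * e)) * ((x ^ (2 * e)) ^ 2 + (y ^ (2 * e)) ^ 2))
        (by rw [hfac]; ring)
      intro p hp hp2 hpF
      have hpi := Nat.prime_iff_prime_int.1 hp
      have h0 : (p : ℤ) ∣ x ^ (4 * (2 * e)) - y ^ (4 * (2 * e)) := by
        rw [hfac]
        exact Dvd.dvd.mul_left (Dvd.dvd.mul_right hpF _) _
      have n1 : ¬ (p : ℤ) ∣ x ^ (2 * e) - y ^ (2 * e) := by
        intro h1
        have e3 : (p : ℤ) ∣ 2 * x ^ (2 * e) := by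
          have := dvd_add hpF h1
          ring_nf at this ⊢
          exact this
        exact hunit p hp h0 ((hpi.dvd_or_dvd e3).resolve_left (not_dvd_two hp hp2))
      refine ⟨fun h1 => ?_, n1⟩
      rcases hpi.dvd_or_dvd h1 with h1 | h1
      · exact n1 h1
      · have e3 : (p : ℤ) ∣ 2 * (x ^ (2 * e)) ^ 2 := by
          have e4 : 2 * (x ^ (2 * e)) ^ 2 = ((x ^ (2 * e)) ^ 2 + (y ^ (2 * e)) ^ 2) +
            (x ^ (2 * e) + y ^ (2 * e)) * (x ^ (2 * e) - y ^ (2 * e)) := by ring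
          rw [e4]
          exact dvd_add h1 (Dvd.dvd.mul_right hpF _)
        exact hunit p hp h0 (hpi.dvd_of_dvd_pow
          ((hpi.dvd_or_dvd e3).resolve_left (not_dvd_two hp hp2)))
    by_cases o2 : (2 : ℤ) ∣ x ∨ (2 : ℤ) ∣ y
    · -- opposite parity
      rw [e1, e1] at v3
      have hodd : ¬ (2 : ℤ) ∣ (x ^ e) ^ 4 + (y ^ e) ^ 4 := by
        intro h5
        have h7 := even_iff_two_dvd.2 h5
        rw [Int.even_add, even_pp he.ne' (by norm_num), even_pp he.ne' (by norm_num)] at h7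
        rcases o2 with o2 | o2
        · exact par ⟨o2, h7.1 o2⟩
        · exact par ⟨h7.2 o2, o2⟩
      obtain ⟨z, hz⟩ := cube_of_val_odd hodd v3
      rcases lucas hc.pow hz with h4 | h4
      · exact hx (pow_eq_zero_iff he.ne' |>.1 h4)
      · exact hy (pow_eq_zero_iff he.ne' |>.1 h4)
    · -- both odd
      push Not at o2
      have h4 := four_dvd_of_odd o2.1 o2.2 e
      have h5 : ¬ (2 : ℤ) ∣ x ^ (2 * e) := fun h6 => o2.1 (Int.prime_two.dvd_of_dvd_pow h6)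
      have h6 := pairE hcs h4 h5 v2 v3
      apply hne
      rw [mul_comm 4 (2 * e), pow_mul, pow_mul y, h6]
  · -- `12 ∣ d`
    have e3 : ∀ z : ℤ, z ^ (3 * (2 * e)) = (z ^ (2 * e)) ^ 3 := by
      intro z
      rw [← pow_mul]
      congr 1
      ring
    have hfac : x ^ (6 * (2 * e)) - y ^ (6 * (2 * e)) =
        ((x ^ (2 * e)) ^ 3 + (y ^ (2 * e)) ^ 3) * (x ^ (3 * (2 * e)) - y ^ (3 * (2 * e))) := by
      rw [mul_comm 6 (2 * e), pow_mul x (2 * e) 6, pow_mul y (2 * e) 6, e3, e3]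
      ring
    have hval : ∀ p : ℕ, p.Prime → p ≠ 2 →
        3 ∣ padicValInt p ((x ^ (2 * e)) ^ 3 + (y ^ (2 * e)) ^ 3) := by
      apply key _ _ hfac
      intro p hp hp2 hpF
      have hpi := Nat.prime_iff_prime_int.1 hp
      have n1 : ¬ (p : ℤ) ∣ x ^ (3 * (2 * e)) - y ^ (3 * (2 * e)) := by
        intro h1
        have h0 : (p : ℤ) ∣ x ^ (6 * (2 * e)) - y ^ (6 * (2 * e)) := by
          rw [hfac]
          exact Dvd.dvd.mul_right hpF _
        rw [e3, e3] at h1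
        have e4 : (p : ℤ) ∣ 2 * (x ^ (2 * e)) ^ 3 := by
          have := dvd_add hpF h1
          ring_nf at this ⊢
          exact this
        exact (hxy p hp h0).1 (hpi.dvd_of_dvd_pow (hpi.dvd_of_dvd_pow
          ((hpi.dvd_or_dvd e4).resolve_left (not_dvd_two hp hp2))))
      exact ⟨n1, n1⟩
    have h4 : ¬ (4 : ℤ) ∣ (x ^ (2 * e)) ^ 3 + (y ^ (2 * e)) ^ 3 := by
      intro h4
      by_cases o2 : (2 : ℤ) ∣ x ∨ (2 : ℤ) ∣ y
      · have h7 := even_iff_two_dvd.2 ((by norm_num : (2 : ℤ) ∣ 4).trans h4)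
        have he2 : 2 * e ≠ 0 := by omega
        rw [Int.even_add, even_pp he2 (by norm_num), even_pp he2 (by norm_num)] at h7
        rcases o2 with o2 | o2
        · exact par ⟨o2, h7.1 o2⟩
        · exact par ⟨h7.2 o2, o2⟩
      · push Not at o2
        have h5 := four_dvd_of_odd o2.1 o2.2 (e * 3)
        have e5 : ∀ z : ℤ, z ^ (2 * (e * 3)) = (z ^ (2 * e)) ^ 3 := by
          intro z
          rw [← pow_mul]
          congr 1
          ring
        rw [e5, e5] at h5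
        have h6 : ¬ (2 : ℤ) ∣ (y ^ (2 * e)) ^ 3 := fun h7 =>
          o2.2 (Int.prime_two.dvd_of_dvd_pow (Int.prime_two.dvd_of_dvd_pow h7))
        omega
    rcases pairB (hc.pow (m := 2 * e) (n := 2 * e)) hval h4 with h5 | h5 | h5 | h5
    · apply hne
      rw [mul_comm 6 (2 * e), pow_mul, pow_mul y, h5]
    · apply hne
      rw [mul_comm 6 (2 * e), pow_mul, pow_mul y, h5]
      ring
    · exact hx (pow_eq_zero_iff (by omega) |>.1 h5)
    · exact hy (pow_eq_zero_iff (by omega) |>.1 h5)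

/-! ### the combinatorial argument -/

section

variable {φ : ℤ → ℤ}

/-- Two congruences cannot explain all the pairs. -/
theorem no_rising (P : ℤ → Prop) (hφ : ∀ x, P x → P (φ x)) (hpre : ∀ x, P x → ∃ y, P y ∧ φ y = x)
    (hinj : ∀ x y, P x → P y → φ x = φ y → x = y) (p q : ℤ)
    (h : ∀ x y, P x → P y → x ≠ y →
      (¬ p ∣ x - y ∧ p ∣ φ x - φ y) ∨ (¬ q ∣ x - y ∧ q ∣ φ x - φ y)) :
    ∀ x y, P x → P y → x = y := by
  intro x y hx hy
  by_contra hne
  have hne' : ∀ {a b : ℤ}, P a → P b → a ≠ b → φ a ≠ φ b := fun ha hb hab h1 =>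
    hab (hinj _ _ ha hb h1)
  -- alternation
  have alt : ∀ a b : ℤ, P a → P b → a ≠ b → (p ∣ φ a - φ b ↔ ¬ p ∣ a - b) := by
    intro a b ha hb hab
    constructor
    · intro h1 h2
      -- then `q` rises at time zero, so it does not rise at time one
      have h3 : ¬ q ∣ a - b ∧ q ∣ φ a - φ b := by
        rcases h a b ha hb hab with h4 | h4
        · exact absurd h2 h4.1
        · exact h4
      rcases h _ _ (hφ a ha) (hφ b hb) (hne' ha hb hab) with h4 | h4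
      · exact h4.1 h1
      · exact h4.1 h3.2
    · intro h2
      obtain ⟨a', ha', rfl⟩ := hpre a ha
      obtain ⟨b', hb', rfl⟩ := hpre b hb
      have hab' : a' ≠ b' := by rintro rfl; exact hab rfl
      have h3 : q ∣ φ a' - φ b' := by
        rcases h a' b' ha' hb' hab' with h4 | h4
        · exact absurd h4.2 h2
        · exact h4.2
      rcases h _ _ ha hb hab with h4 | h4
      · exact h4.2
      · exact absurd h3 h4.1
  -- sharing a point
  have share1 : ∀ a b c : ℤ, P a → P b → P c → a ≠ b → a ≠ c → p ∣ a - b → p ∣ a - c := by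
    intro a b c ha hb hc hab hac h1
    by_contra h2
    have hbc : b ≠ c := by rintro rfl; exact h2 h1
    have h3 : ¬ p ∣ b - c := by
      intro h4
      apply h2
      have := dvd_add h1 h4
      rwa [sub_add_sub_cancel] at this
    have h4 := (alt a c ha hc hac).2 h2
    have h5 := (alt b c hb hc hbc).2 h3
    have h6 : p ∣ φ a - φ b := by
      have := dvd_sub h4 h5
      rwa [sub_sub_sub_cancel_right] at this
    exact (alt a b ha hb hab).1 h6 h1
  have share : ∀ a b c : ℤ, P a → P b → P c → a ≠ b → a ≠ c → (p ∣ a - b ↔ p ∣ a - c) :=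
    fun a b c ha hb hc hab hac => ⟨share1 a b c ha hb hc hab hac, share1 a c b ha hc hb hac hab⟩
  have sym : ∀ a b : ℤ, p ∣ a - b ↔ p ∣ b - a := fun a b => by
    rw [← dvd_neg, neg_sub]
  have hx' := hφ x hx
  have hy' := hφ y hy
  have hxy' := hne' hx hy hne
  have hfin : p ∣ x - y ↔ p ∣ φ x - φ y := by
    by_cases h1 : x = φ x
    · have h2 : x ≠ φ y := by rw [h1] at hne ⊢; rw [← h1]; intro h3; apply hxy'; rw [← h1]; exact h3
      have h3 := share x y (φ y) hx hy hy' hne h2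
      rw [← h1]
      exact h3
    · have h2 := share x y (φ x) hx hy hx' hne h1
      have h3 := share (φ x) x (φ y) hx' hx hy' (Ne.symm h1) hxy'
      rw [h2, sym, h3]
  have := alt x y hx hy hne
  tauto

end

/-! ### systems -/

section

variable {d m : ℕ} {A B : ℤ} {V : ℕ} {O : Finset ℤ} {φ : ℤ → ℤ}

/-- The hypothesis on the relevant primes. -/
structure Hyp (d m V p1 p2 : ℕ) : Prop where
  one : ∀ p : ℕ, p.Prime → p ≠ 2 → p ∣ V → Rel m p →
    3 ∣ padicValNat p V ∧ padicValNat p d < padicValNat p V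
  two : ∀ p : ℕ, p.Prime → p ≠ 2 → p ∣ V → Rel m p → ¬ 3 ∣ padicValNat p d → p = p1 ∨ p = p2

theorem core_of_hyp (hs : Str d m) {p1 p2 : ℕ} (H : Hyp d m V p1 p2) (hV : 0 < V) : Core d V := by
  intro x y W hW hc h
  have hVz : (V : ℤ) ≠ 0 := by exact_mod_cast hV.ne'
  rcases core_strong hs hc (by
    intro p hp hp2 hr
    rw [h]
    have h1 : 3 ∣ padicValInt p (V : ℤ) := by
      rw [padicValInt.of_nat]
      by_cases hpV : p ∣ V
      · exact (H.one p hp hp2 hpV hr).1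
      · rw [padicValNat.eq_zero_of_not_dvd hpV]; exact dvd_zero _
    rcases hW with rfl | rfl | rfl | rfl
    · exact h1
    · rw [val_neg]; exact h1
    · rw [val_two_mul hp hp2 hVz]; exact h1
    · rw [val_neg, val_two_mul hp hp2 hVz]; exact h1) with h1 | h1
  · exfalso
    apply W_ne hV hW
    rw [← h, h1, sub_self]
  · exact h1

/-- every pair of periodic points is exceptional for `p1` or `p2` -/
theorem pair_rises (hs : Str d m) {p1 p2 : ℕ} (H : Hyp d m V p1 p2) (h : Sys d A B V O φ)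
    (hA : A ≠ 0) (hV : 0 < V) (hV1 : V ≠ 1) {u w : ℤ} (hu : u ∈ O) (hw : w ∈ O)
    (pu : Per φ u) (pw : Per φ w) (hne : u ≠ w) :
    (¬ (p1 : ℤ) ∣ u - w ∧ (p1 : ℤ) ∣ φ u - φ w) ∨
      (¬ (p2 : ℤ) ∣ u - w ∧ (p2 : ℤ) ∣ φ u - φ w) := by
  have hd0 := hs.d0
  have hm0 := hs.m0
  obtain ⟨a, ha⟩ := hs.pow
  by_contra hcon
  push Not at hcon
  obtain ⟨g1, g2⟩ := hcon
  have hn := per_NM pu pw hne
  have hex : ∀ p : ℕ, p.Prime → p ≠ 2 → p ∣ V → Rel m p → (¬ (p : ℤ) ∣ u - w →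
      ¬ (p : ℤ) ∣ φ u - φ w) → 3 ∣ padicValInt p (u ^ d - w ^ d) ∨ (p : ℤ) ∣ u ^ m - w ^ m := by
    intro p hp hp2 hpV hr hg
    by_cases h1 : (p : ℤ) ∣ u - w
    · exact Or.inr (h1.trans (sub_dvd_pow_sub_pow _ _ m))
    · left
      have h2 := val_step h hA hV hp hu hw hn.step.ne
      rw [padicValInt.eq_zero_of_not_dvd (h.not_dvd_A hp hpV), zero_add,
        padicValInt.eq_zero_of_not_dvd (hg h1), add_zero] at h2
      rw [h2]
      exact (H.one p hp hp2 hpV hr).1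
  have hz := strong_pair hs h hA hV hu hw pu pw hne (by
    intro p hp hp2 hpV
    by_cases hr : Rel m p
    · by_cases h3 : 3 ∣ padicValNat p d
      · left
        exact val_pow_sub_dvd h hA hd0 hV hp hp2 hpV
          ⟨(H.one p hp hp2 hpV hr).1, fun _ => ⟨h3, (H.one p hp hp2 hpV hr).2⟩⟩ hu hw hn
      · rcases H.two p hp hp2 hpV hr h3 with rfl | rfl
        · exact hex p hp hp2 hpV hr g1
        · exact hex p hp hp2 hpV hr g2
    · have h1 := dvd_pow_sub h hp hpV hu hw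
      rw [ha] at h1
      exact Or.inr (irrelevant hp hm0 h1 (h.not_dvd hd0 hp hpV hw) hr))
  apply hV1
  rcases hz with h0 | h0
  · exact V_one h hd0 hV (h0 ▸ hu)
  · exact V_one h hd0 hV (h0 ▸ hw)

theorem per_pred {x : ℤ} (hx : Per φ x) : ∃ n : ℕ, φ (φ^[n] x) = x := by
  obtain ⟨n, hn, h⟩ := hx
  refine ⟨n - 1, ?_⟩
  rw [← Function.iterate_succ_apply' φ, Nat.succ_eq_add_one, Nat.sub_add_cancel hn]
  exact h

/-- **At most one periodic point.** -/
theorem strong_one (hs : Str d m) {p1 p2 : ℕ} (H : Hyp d m V p1 p2) (h : Sys d A B V O φ)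
    (hA : A ≠ 0) (hV : 0 < V) (hV1 : V ≠ 1) {u w : ℤ} (hu : u ∈ O) (hw : w ∈ O)
    (pu : Per φ u) (pw : Per φ w) : u = w := by
  apply no_rising (φ := φ) (fun x => x ∈ O ∧ Per φ x) _ _ _ (p1 : ℤ) (p2 : ℤ) _ u w ⟨hu, pu⟩
    ⟨hw, pw⟩
  · rintro x ⟨h1, h2⟩
    exact ⟨h.maps x h1, h2.iter 1⟩
  · rintro x ⟨h1, h2⟩
    obtain ⟨n, hn⟩ := per_pred h2
    exact ⟨φ^[n] x, ⟨h.iter_mem h1 n, h2.iter n⟩, hn⟩
  · rintro x y ⟨-, h2⟩ ⟨-, h4⟩ hxy
    exact per_inj h2 h4 (k := 1) hxy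
  · rintro x y ⟨h1, h2⟩ ⟨h3, h4⟩ hne
    exact pair_rises hs H h hA hV hV1 h1 h3 h2 h4 hne

theorem strong_tail (hs : Str d m) {p1 p2 : ℕ} (H : Hyp d m V p1 p2) (h : Sys d A B V O φ)
    (hA : A ≠ 0) (hV : 0 < V) (hV1 : V ≠ 1) : TailP A B V O φ := by
  intro α y hα pα hnα hy hφy
  have hd4 : 4 ≤ d := by
    obtain ⟨k, hk⟩ := hs.four
    have := hs.d0
    omega
  have hde : Even d := by
    obtain ⟨k, hk⟩ := hs.four
    exact ⟨2 * k, by rw [hk]; ring⟩
  apply tail_at_fixed hde hd4 h hA hV (core_of_hyp hs H hV) hα _ _ hy hφy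
  · rintro rfl
    exact hnα (by simpa using pα)
  · exact strong_one hs H h hA hV hV1 (h.maps α hα) hα (pα.iter 1) pα

/-- **The strong case, `V ≠ 1`.** -/
theorem strong_main (hs : Str d m) {p1 p2 : ℕ} (H : Hyp d m V p1 p2) (h : Sys d A B V O φ)
    (hA : A ≠ 0) (hV : 0 < V) (hV1 : V ≠ 1)
    (hpre : ∀ z ∈ O, ∃ m n : ℕ, m < n ∧ φ^[m] z = φ^[n] z) : O.card ≤ 2 := by
  have hde : Even d := by
    obtain ⟨k, hk⟩ := hs.four
    exact ⟨2 * k, by rw [hk]; ring⟩
  obtain ⟨P, hPO, hPp, -, h3⟩ := pre_subset hde hs.d0 h hA hV (strong_tail hs H h hA hV hV1) hpre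
  have hP1 : P.card ≤ 1 := by
    rw [card_le_one]
    intro x hx y hy
    exact strong_one hs H h hA hV hV1 (hPO hx) (hPO hy) (hPp x hx) (hPp y hy)
  have h5 := card_sym P
  rcases h3 with h3 | ⟨⟨h3, -⟩, -, -⟩
  · have := card_le_card h3
    omega
  · exact absurd h3 hV1

end

end Pool.Agent.W2helper83.UC
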