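import Pool.Agent.W2helper83.UC.Tail

/-!
# The preperiodic points
-/

set_option autoImplicit false

namespace Pool.Agent.W2helper83.UC

open Finset Pool.Agent.T6.H62.UB

section

variable {d : ℕ} {A B : ℤ} {V : ℕ} {O : Finset ℤ} {φ : ℤ → ℤ}

/-- the exceptional system, conjugate to `2 x ^ d - 1` -/
def Cheb (A B : ℤ) (V : ℕ) : Prop := V = 1 ∧ ∃ α : ℤ, (α = 1 ∨ α = -1) ∧ A = 2 * α ∧ B = -α

/-- the description of the preimages of `-α` -/
def TailP (A B : ℤ) (V : ℕ) (O : Finset ℤ) (φ : ℤ → ℤ) : Prop :=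
  ∀ α y : ℤ, α ∈ O → Per φ α → ¬ Per φ (-α) → y ∈ O → φ y = -α →
    V = 1 ∧ y = 0 ∧ (α = 1 ∨ α = -1) ∧ A = 2 * α ∧ B = -α

theorem tailP_of_cond (hd : 4 ∣ d ∨ 6 ∣ d) (hd0 : d ≠ 0) (h : Sys d A B V O φ) (hA : A ≠ 0)
    (hV : 0 < V) (hC : ∀ p : ℕ, p.Prime → p ≠ 2 → p ∣ V → Cond d V p) : TailP A B V O φ :=
  fun _ _ hα pα hnα hy hφy => tail hd hd0 h hA hV hC hα pα hnα hy hφy

theorem struct (hde : Even d) (hd0 : d ≠ 0) (h : Sys d A B V O φ) (hA : A ≠ 0)
    (htail : TailP A B V O φ) {z : ℤ} (hz : z ∈ O)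
    (hpre : ∃ m n : ℕ, m < n ∧ φ^[m] z = φ^[n] z) :
    Per φ z ∨ (-z ∈ O ∧ Per φ (-z)) ∨ (z = 0 ∧ Cheb A B V) := by
  classical
  have hex : ∃ n : ℕ, Per φ (φ^[n] z) := by
    obtain ⟨m, n, hmn, he⟩ := hpre
    refine ⟨m, n - m, by omega, ?_⟩
    rw [← Function.iterate_add_apply, Nat.sub_add_cancel hmn.le, he]
  obtain ⟨N, hN, hmin⟩ : ∃ N : ℕ, Per φ (φ^[N] z) ∧ ∀ k < N, ¬ Per φ (φ^[k] z) :=
    ⟨Nat.find hex, Nat.find_spec hex, fun k hk => Nat.find_min hex hk⟩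
  rcases Nat.eq_zero_or_pos N with h0 | h0
  · subst h0; exact Or.inl hN
  obtain ⟨N', rfl⟩ : ∃ N', N = N' + 1 := ⟨N - 1, by omega⟩
  set x := φ^[N'] z with hx
  have hxO : x ∈ O := h.iter_mem hz N'
  have hxn : ¬ Per φ x := hmin N' (by omega)
  have hφx : Per φ (φ x) := by rw [hx, ← Function.iterate_succ_apply' φ]; exact hN
  obtain ⟨n, hn, he⟩ := hφx
  set γ := φ^[n - 1] (φ x) with hγ
  have hγO : γ ∈ O := h.iter_mem (h.maps x hxO) _
  have hφγ : φ γ = φ x := by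
    rw [hγ, ← Function.iterate_succ_apply' φ, Nat.succ_eq_add_one, Nat.sub_add_cancel hn, he]
  have pγ : Per φ γ := Per.iter ⟨n, hn, he⟩ (n - 1)
  have hpow : x ^ d = γ ^ d := by
    have h1 := eqn_sub h hxO hγO
    rw [hφγ, sub_self, mul_zero] at h1
    have := (mul_eq_zero.1 h1.symm).resolve_left hA
    linarith
  have hxγ : x = -γ := by
    have h1 : |x| ^ d = |γ| ^ d := by rw [hde.pow_abs, hde.pow_abs, hpow]
    have h2 : |x| = |γ| := (pow_left_inj₀ (abs_nonneg _) (abs_nonneg _) hd0).1 h1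
    rcases abs_eq_abs.1 h2 with h3 | h3
    · exact absurd (h3 ▸ pγ) hxn
    · exact h3
  rcases Nat.eq_zero_or_pos N' with h1 | h1
  · subst h1
    right; left
    have : -z = γ := by
      have : z = -γ := hxγ
      linarith
    rw [this]; exact ⟨hγO, pγ⟩
  obtain ⟨N'', rfl⟩ : ∃ N'', N' = N'' + 1 := ⟨N' - 1, by omega⟩
  set y := φ^[N''] z with hy
  have hyO : y ∈ O := h.iter_mem hz N''
  have hφy : φ y = -γ := by
    rw [← hxγ, hx, Function.iterate_succ_apply']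
  obtain ⟨t1, t2, t3, t4, t5⟩ := htail γ y hγO pγ (by rw [← hxγ]; exact hxn) hyO hφy
  have hcheb : Cheb A B V := ⟨t1, γ, t3, t4, t5⟩
  rcases Nat.eq_zero_or_pos N'' with h2 | h2
  · subst h2
    exact Or.inr (Or.inr ⟨t2, hcheb⟩)
  · exfalso
    obtain ⟨M, rfl⟩ : ∃ M, N'' = M + 1 := ⟨N'' - 1, by omega⟩
    have h3 := h.eqn _ (h.iter_mem hz M)
    rw [← Function.iterate_succ_apply' φ] at h3
    rw [hy] at t2
    rw [Nat.succ_eq_add_one, t2, mul_zero, t4, t5] at h3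
    rcases t3 with t3 | t3 <;> rw [t3] at h3 <;> omega

theorem cheb_card {P : Finset ℤ} (h : Sys d A B V O φ) (hA : A ≠ 0) (hV : 0 < V)
    (hc : Cheb A B V) (hP : P ⊆ O) (hPp : ∀ x ∈ P, Per φ x) : P.card ≤ 1 := by
  rw [card_le_one]
  intro x hx y hy
  by_contra hne
  obtain ⟨-, α, hα, h1, -⟩ := hc
  have := unit_A h hA hV (hP hx) (hP hy) (hPp x hx) (hPp y hy) hne
  rcases hα with rfl | rfl <;> omega

/-- all preperiodic points in terms of the periodic points -/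
theorem pre_subset (hde : Even d) (hd0 : d ≠ 0) (h : Sys d A B V O φ) (hA : A ≠ 0)
    (hV : 0 < V) (htail : TailP A B V O φ)
    (hpre : ∀ z ∈ O, ∃ m n : ℕ, m < n ∧ φ^[m] z = φ^[n] z) :
    ∃ P : Finset ℤ, P ⊆ O ∧ (∀ x ∈ P, Per φ x) ∧ (∀ x ∈ O, Per φ x → x ∈ P) ∧
      ((O ⊆ P ∪ P.image (fun z => -z)) ∨
        (Cheb A B V ∧ P.card ≤ 1 ∧ O ⊆ insert 0 (P ∪ P.image (fun z => -z)))) := by
  classical
  refine ⟨O.filter (fun z => Per φ z), filter_subset _ _, fun x hx => (mem_filter.1 hx).2,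
    fun x hx hp => mem_filter.2 ⟨hx, hp⟩, ?_⟩
  by_cases hc : Cheb A B V
  · right
    refine ⟨hc, cheb_card h hA hV hc (filter_subset _ _) fun x hx => (mem_filter.1 hx).2, ?_⟩
    intro z hz
    rw [mem_insert, mem_union, mem_image]
    rcases struct hde hd0 h hA htail hz (hpre z hz) with h1 | ⟨h1, h2⟩ | ⟨h1, -⟩
    · exact Or.inr (Or.inl (mem_filter.2 ⟨hz, h1⟩))
    · exact Or.inr (Or.inr ⟨-z, mem_filter.2 ⟨h1, h2⟩, neg_neg z⟩)
    · exact Or.inl h1
  · left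
    intro z hz
    rw [mem_union, mem_image]
    rcases struct hde hd0 h hA htail hz (hpre z hz) with h1 | ⟨h1, h2⟩ | ⟨-, h1⟩
    · exact Or.inl (mem_filter.2 ⟨hz, h1⟩)
    · exact Or.inr ⟨-z, mem_filter.2 ⟨h1, h2⟩, neg_neg z⟩
    · exact absurd h1 hc

theorem card_sym (P : Finset ℤ) : (P ∪ P.image (fun z => -z)).card ≤ 2 * P.card := by
  have h1 := card_union_le P (P.image (fun z => -z))
  have h2 : (P.image (fun z : ℤ => -z)).card ≤ P.card := card_image_le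
  omega

/-- the number of all preperiodic points -/
theorem card_pre (hd : 4 ∣ d ∨ 6 ∣ d) (hd0 : d ≠ 0) (h : Sys d A B V O φ) (hA : A ≠ 0)
    (hV : 0 < V) (hC : ∀ p : ℕ, p.Prime → p ≠ 2 → p ∣ V → Cond d V p)
    (hpre : ∀ z ∈ O, ∃ m n : ℕ, m < n ∧ φ^[m] z = φ^[n] z) : O.card ≤ 4 := by
  obtain ⟨P, hPO, hPp, -, h1⟩ := pre_subset (even_d hd) hd0 h hA hV
    (tailP_of_cond hd hd0 h hA hV hC) hpre
  have h2 := card_two hd hd0 h hA hV hC P hPO hPp
  have h3 := card_sym P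
  rcases h1 with h1 | ⟨-, h4, h1⟩
  · have := card_le_card h1
    omega
  · have h5 := card_le_card h1
    have h6 := card_insert_le 0 (P ∪ P.image (fun z => -z))
    omega

/-- The strong case: the number of all preperiodic points is at most three. -/
theorem card_pre_strong (hd : 8 ∣ d ∨ 12 ∣ d) (hd0 : d ≠ 0) (h : Sys d A B V O φ) (hA : A ≠ 0)
    (hV : 0 < V) (hC : ∀ p : ℕ, p.Prime → p ≠ 2 → p ∣ V → Cond d V p)
    (hpre : ∀ z ∈ O, ∃ m n : ℕ, m < n ∧ φ^[m] z = φ^[n] z) : O.card ≤ 3 := by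
  have hd' : 4 ∣ d ∨ 6 ∣ d := by
    rcases hd with ⟨k, rfl⟩ | ⟨k, rfl⟩
    · exact Or.inl ⟨2 * k, by ring⟩
    · exact Or.inl ⟨3 * k, by ring⟩
  obtain ⟨P, hPO, hPp, -, h1⟩ := pre_subset (even_d hd') hd0 h hA hV
    (tailP_of_cond hd' hd0 h hA hV hC) hpre
  have h2 := card_two hd' hd0 h hA hV hC P hPO hPp
  have h3 := card_sym P
  rcases h1 with h1 | ⟨-, h4, h1⟩
  · have h5 := card_le_card h1
    rcases Nat.lt_or_ge P.card 2 with h6 | h6
    · omega
    · -- two periodic points, one of them zero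
      obtain ⟨x, y, hxy, rfl⟩ := card_eq_two.1 (show P.card = 2 by omega)
      have hx : x ∈ ({x, y} : Finset ℤ) := by simp
      have hy : y ∈ ({x, y} : Finset ℤ) := by simp
      have h7 := strong_pair_cond hd hd0 h hA hV hC (hPO hx) (hPO hy) (hPp x hx) (hPp y hy) hxy
      have h8 : ∀ z : ℤ, O ⊆ {0, z, -z} → O.card ≤ 3 := fun z hz =>
        (card_le_card hz).trans card_le_three
      rcases h7 with rfl | rfl
      · apply h8 y
        intro z hz
        have := h1 hz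
        simp only [mem_union, mem_insert, mem_singleton, mem_image, exists_eq_or_imp,
          exists_eq_left] at this ⊢
        omega
      · apply h8 x
        intro z hz
        have := h1 hz
        simp only [mem_union, mem_insert, mem_singleton, mem_image, exists_eq_or_imp,
          exists_eq_left] at this ⊢
        omega
  · have h5 := card_le_card h1
    have h6 := card_insert_le 0 (P ∪ P.image (fun z => -z))
    omega

/-- The strong case: two periodic points. -/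
theorem strong_two (hd : 8 ∣ d ∨ 12 ∣ d) (hd0 : d ≠ 0) (h : Sys d A B V O φ) (hA : A ≠ 0)
    (hV : 0 < V) (hC : ∀ p : ℕ, p.Prime → p ≠ 2 → p ∣ V → Cond d V p)
    {P : Finset ℤ} (hPO : P ⊆ O) (hPp : ∀ x ∈ P, Per φ x) (h2 : 1 < P.card) :
    V = 1 ∧ (B = 0 ∨ A * B ^ (d - 1) = -1) := by
  have key : ∀ u : ℤ, u ∈ O → (0 : ℤ) ∈ O → Per φ u → Per φ 0 → u ≠ 0 →
      V = 1 ∧ (B = 0 ∨ A * B ^ (d - 1) = -1) := by
    intro u hu h0 pu p0 hne
    have hV1 := V_one h hd0 hV h0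
    refine ⟨hV1, ?_⟩
    have hAu := unit_A h hA hV hu h0 pu p0 hne
    have hd2 : 2 ≤ d := by
      rcases hd with ⟨k, rfl⟩ | ⟨k, rfl⟩ <;> omega
    have hde : Even d := by
      rcases hd with ⟨k, rfl⟩ | ⟨k, rfl⟩
      · exact ⟨4 * k, by ring⟩
      · exact ⟨6 * k, by ring⟩
    have hcop := cop_per h hA hV hd2 hu h0 pu p0 hne
    rw [isCoprime_zero_right, Int.isUnit_iff] at hcop
    have hall : ∀ z : ℤ, z ∈ O → Per φ z → z = 0 ∨ z = u := by
      intro z hz pz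
      by_contra hcon
      push Not at hcon
      rcases strong_pair_cond hd hd0 h hA hV hC hz hu pz pu hcon.2 with h1 | h1
      · exact hcon.1 h1
      · exact hne h1
    have e0 := h.eqn 0 h0
    rw [zero_pow hd0, hV1] at e0
    have e0' : φ 0 = B := by push_cast at e0; linarith
    have hB := hall B (e0' ▸ h.maps 0 h0) (e0' ▸ p0.iter 1)
    rcases hB with hB | hB
    · exact Or.inl hB
    · right
      have hud : u ^ d = 1 := by
        rcases hcop with rfl | rfl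
        · exact one_pow d
        · exact hde.neg_one_pow
      have e1 := h.eqn u hu
      rw [hud, hV1, hB] at e1
      have e1' : φ u = A + u := by push_cast at e1; linarith
      have h1 := hall (A + u) (e1' ▸ h.maps u hu) (e1' ▸ pu.iter 1)
      have hAu' : A = -u := by
        rcases h1 with h1 | h1
        · linarith
        · exact absurd (by linarith) hA
      rw [hAu', hB]
      have : -u * u ^ (d - 1) = -(u ^ (d - 1) * u) := by ring
      rw [this, pow_sub_one_mul hd0, hud]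
  obtain ⟨x, hx, y, hy, hxy⟩ := one_lt_card.1 h2
  rcases strong_pair_cond hd hd0 h hA hV hC (hPO hx) (hPO hy) (hPp x hx) (hPp y hy) hxy with h1 | h1
  · subst h1
    exact key y (hPO hy) (hPO hx) (hPp y hy) (hPp 0 hx) (Ne.symm hxy)
  · subst h1
    exact key x (hPO hx) (hPO hy) (hPp x hx) (hPp 0 hy) hxy

theorem cheb_t (hde : Even d) (hd0 : d ≠ 0) (hc : Cheb A B V) :
    V = 1 ∧ A * B ^ (d - 1) = -2 := by
  obtain ⟨hV, α, hα, rfl, rfl⟩ := hc
  refine ⟨hV, ?_⟩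
  have hn : Odd (d - 1) := by
    obtain ⟨k, hk⟩ := hde
    exact ⟨k - 1, by omega⟩
  rw [hn.neg_pow]
  have : 2 * α * -α ^ (d - 1) = -(2 * (α ^ (d - 1) * α)) := by ring
  rw [this, pow_sub_one_mul hd0]
  rcases hα with rfl | rfl
  · rw [one_pow]; norm_num
  · rw [hde.neg_one_pow]; norm_num

end

end Pool.Agent.W2helper83.UC
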