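import Pool.Agent.W2helper83.UC.Count

/-!
# Tails: preimages of the negative of a periodic point
-/

set_option autoImplicit false

namespace Pool.Agent.W2helper83.UC

open Finset Pool.Agent.T6.H62.UB

theorem split_pow {d : ℕ} (hde : Even d) (hd0 : d ≠ 0) {m n y : ℤ} (hm : m ≠ 0)
    (hc : IsCoprime m n) (h : m * n = y ^ d) :
    ∃ ε a b : ℤ, (ε = 1 ∨ ε = -1) ∧ m = ε * a ^ d ∧ n = ε * b ^ d := by
  obtain ⟨a, ha⟩ := exists_associated_pow_of_mul_eq_pow' hc h
  obtain ⟨b, hb⟩ := exists_associated_pow_of_mul_eq_pow' hc.symm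
    (by rw [mul_comm]; exact h)
  have key : m * n = -(a ^ d * b ^ d) → n = 0 := by
    intro h1
    have e1 : 0 ≤ y ^ d := hde.pow_nonneg y
    have e2 : 0 ≤ a ^ d * b ^ d := mul_nonneg (hde.pow_nonneg a) (hde.pow_nonneg b)
    have e3 : m * n = 0 := by linarith
    exact (mul_eq_zero.1 e3).resolve_left hm
  rcases Int.associated_iff.1 ha with h1 | h1 <;> rcases Int.associated_iff.1 hb with h2 | h2
  · exact ⟨1, a, b, Or.inl rfl, by rw [h1, one_mul], by rw [h2, one_mul]⟩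
  · refine ⟨1, a, 0, Or.inl rfl, by rw [h1, one_mul], ?_⟩
    rw [zero_pow hd0, mul_zero]
    exact key (by rw [h1, h2]; ring)
  · refine ⟨-1, a, 0, Or.inr rfl, by rw [h1]; ring, ?_⟩
    rw [zero_pow hd0, mul_zero]
    exact key (by rw [h1, h2]; ring)
  · exact ⟨-1, a, b, Or.inr rfl, by rw [h1]; ring, by rw [h2]; ring⟩

theorem gpow {ε a : ℤ} (hε : ε = 1 ∨ ε = -1) {n d : ℕ} (hn : Odd n) :
    (ε * a ^ d) ^ n = ε * (a ^ n) ^ d := by
  rw [mul_pow, ← pow_mul, mul_comm d n, pow_mul]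
  rcases hε with rfl | rfl
  · rw [one_pow]
  · rw [hn.neg_one_pow]

theorem val_neg {p : ℕ} {z : ℤ} : padicValInt p (-z) = padicValInt p z := by
  simp [padicValInt]

section

variable {d : ℕ} {A B : ℤ} {V : ℕ} {O : Finset ℤ} {φ : ℤ → ℤ}

theorem valW (hV : 0 < V) (hC : ∀ p : ℕ, p.Prime → p ≠ 2 → p ∣ V → Cond d V p) {W : ℤ}
    (hW : W = V ∨ W = -V ∨ W = 2 * V ∨ W = -(2 * V)) :
    ∀ p : ℕ, p.Prime → p ≠ 2 → 3 ∣ padicValInt p W := by
  intro p hp hp2
  have hVz : (V : ℤ) ≠ 0 := by exact_mod_cast hV.ne'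
  have h1 : 3 ∣ padicValInt p (V : ℤ) := by
    rw [padicValInt.of_nat]
    by_cases hpV : p ∣ V
    · exact (hC p hp hp2 hpV).1
    · rw [padicValNat.eq_zero_of_not_dvd hpV]; exact dvd_zero _
  rcases hW with rfl | rfl | rfl | rfl
  · exact h1
  · rw [val_neg]; exact h1
  · rw [val_two_mul hp hp2 hVz]; exact h1
  · rw [val_neg, val_two_mul hp hp2 hVz]; exact h1

/-- the equations which occur for tails have only trivial solutions -/
def Core (d V : ℕ) : Prop := ∀ Θ b W : ℤ, (W = V ∨ W = -V ∨ W = 2 * V ∨ W = -(2 * V)) →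
  IsCoprime Θ b → Θ ^ d - b ^ d = W → Θ = 0 ∨ b = 0

theorem W_ne {V : ℕ} (hV : 0 < V) {W : ℤ} (hW : W = V ∨ W = -V ∨ W = 2 * V ∨ W = -(2 * V)) :
    W ≠ 0 := by
  have hVz : (V : ℤ) ≠ 0 := by exact_mod_cast hV.ne'
  rcases hW with rfl | rfl | rfl | rfl
  · exact hVz
  · exact neg_ne_zero.2 hVz
  · exact mul_ne_zero two_ne_zero hVz
  · exact neg_ne_zero.2 (mul_ne_zero two_ne_zero hVz)

theorem core_of_cond (hd : 4 ∣ d ∨ 6 ∣ d) (hd0 : d ≠ 0) (hV : 0 < V)
    (hC : ∀ p : ℕ, p.Prime → p ≠ 2 → p ∣ V → Cond d V p) : Core d V := by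
  intro Θ b W hW hc h
  rcases core hd hd0 hc (by rw [h]; exact valW hV hC hW) with h1 | h1
  · exfalso
    apply W_ne hV hW
    rw [← h, h1, sub_self]
  · exact h1

theorem dvd_cases {p : ℕ} (hp : p.Prime) {V : ℕ} {W : ℤ}
    (hW : W = V ∨ W = -V ∨ W = 2 * V ∨ W = -(2 * V)) (h : (p : ℤ) ∣ W) :
    (p : ℤ) ∣ 2 ∨ (p : ℤ) ∣ V := by
  have hpi := Nat.prime_iff_prime_int.1 hp
  rcases hW with rfl | rfl | rfl | rfl
  · exact Or.inr h
  · exact Or.inr ((dvd_neg).1 h)
  · exact hpi.dvd_or_dvd h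
  · exact hpi.dvd_or_dvd ((dvd_neg).1 h)

/-- the common argument: `m n = y ^ d` with `n = c ^ d m ^ (d - 1) - W` -/
theorem tail_mid (hde : Even d) (hd0 : d ≠ 0) (hcore : Core d V) {c m y W : ℤ} (hm : m ≠ 0)
    (hc0 : c ≠ 0)
    (hW : W = V ∨ W = 2 * V) (hcm : IsCoprime m (V : ℤ)) (hcc : IsCoprime c (V : ℤ))
    (h2 : W = 2 * V → ¬ (2 : ℤ) ∣ c ∧ ¬ (2 : ℤ) ∣ m) (h2' : W = V → ¬ (2 : ℤ) ∣ V)
    (h : m * (c ^ d * m ^ (d - 1) - W) = y ^ d) : y = 0 := by
  have hn : Odd (d - 1) := by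
    obtain ⟨k, hk⟩ := hde
    exact ⟨k - 1, by omega⟩
  have hd1 : d - 1 ≠ 0 := by
    intro h0
    obtain ⟨k, rfl⟩ := hde
    omega
  have hWp : ∀ p : ℕ, p.Prime → (p : ℤ) ∣ W → (p : ℤ) ∣ m ∨ (p : ℤ) ∣ c → False := by
    intro p hp hpW hpm
    have hV' : (p : ℤ) ∣ V → False := by
      intro h3
      rcases hpm with h4 | h4
      · exact cop_not hcm hp h4 h3
      · exact cop_not hcc hp h4 h3
    rcases hW with h3 | h3
    · exact hV' (h3 ▸ hpW)
    · rw [h3] at hpW
      rcases (Nat.prime_iff_prime_int.1 hp).dvd_or_dvd hpW with h4 | h4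
      · have hp2 : p = 2 := (Nat.prime_dvd_prime_iff_eq hp Nat.prime_two).1 (by exact_mod_cast h4)
        subst hp2
        obtain ⟨h5, h6⟩ := h2 h3
        rcases hpm with h7 | h7
        · exact h6 h7
        · exact h5 h7
      · exact hV' h4
  have hcop : IsCoprime m (c ^ d * m ^ (d - 1) - W) := by
    apply cop_of_nat (fun h0 => hm h0.1)
    intro p hp h3 h4
    apply hWp p hp _ (Or.inl h3)
    have h5 : (p : ℤ) ∣ c ^ d * m ^ (d - 1) := Dvd.dvd.mul_left (dvd_pow h3 hd1) _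
    have := dvd_sub h5 h4
    rwa [sub_sub_cancel] at this
  obtain ⟨ε, a, b, hε, hma, hnb⟩ := split_pow hde hd0 hm hcop h
  have hε2 : ε * ε = 1 := by rcases hε with rfl | rfl <;> norm_num
  have ha0 : a ≠ 0 := by
    rintro rfl
    apply hm
    rw [hma, zero_pow hd0, mul_zero]
  have hma' : m ^ (d - 1) = ε * (a ^ (d - 1)) ^ d := by rw [hma, gpow hε hn]
  have heq : (c * a ^ (d - 1)) ^ d - b ^ d = ε * W := by
    have e1 : ε * (c * a ^ (d - 1)) ^ d - W = ε * b ^ d := by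
      rw [← hnb, hma', mul_pow]; ring
    linear_combination ε * e1 - ((c * a ^ (d - 1)) ^ d - b ^ d) * hε2
  have ham : ∀ p : ℕ, p.Prime → (p : ℤ) ∣ a → (p : ℤ) ∣ m := by
    intro p hp h3
    rw [hma]
    exact Dvd.dvd.mul_left (dvd_pow h3 hd0) _
  have hcop2 : IsCoprime (c * a ^ (d - 1)) b := by
    apply cop_of_nat (fun h0 => mul_ne_zero hc0 (pow_ne_zero _ ha0) h0.1)
    intro p hp h3 h4
    have hpi := Nat.prime_iff_prime_int.1 hp
    have h5 : (p : ℤ) ∣ ε * W := by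
      rw [← heq]
      exact dvd_sub (dvd_pow h3 hd0) (dvd_pow h4 hd0)
    have h6 : (p : ℤ) ∣ W := by
      rcases hε with rfl | rfl
      · simpa using h5
      · simpa using h5
    apply hWp p hp h6
    rcases hpi.dvd_or_dvd h3 with h7 | h7
    · exact Or.inr h7
    · exact Or.inl (ham p hp (hpi.dvd_of_dvd_pow h7))
  have hW' : ε * W = V ∨ ε * W = -V ∨ ε * W = 2 * V ∨ ε * W = -(2 * V) := by
    rcases hε with rfl | rfl <;> rcases hW with h3 | h3 <;> rw [h3]
    · left; ring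
    · right; right; left; ring
    · right; left; ring
    · right; right; right; ring
  rcases hcore _ _ _ hW' hcop2 heq with h3 | h3
  · exact absurd h3 (mul_ne_zero hc0 (pow_ne_zero _ ha0))
  · rw [h3, zero_pow hd0, mul_zero] at hnb
    rw [hnb, mul_zero] at h
    exact pow_eq_zero_iff hd0 |>.1 h.symm

/-- **Preimages of the negative of a fixed point.** -/
theorem tail_fixed (hde : Even d) (hd4 : 4 ≤ d) (h : Sys d A B V O φ) (hA : A ≠ 0)
    (hV : 0 < V) (hcore : Core d V) {α y : ℤ} (hα : α ∈ O)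
    (hα0 : α ≠ 0) (hfix : φ α = α) (hy : y ∈ O) (hφy : φ y = -α) : y = 0 := by
  have hd0 : d ≠ 0 := by omega
  have hVz : (V : ℤ) ≠ 0 := by exact_mod_cast hV.ne'
  have hE : A * (α ^ d - y ^ d) = 2 * (α * V) := by
    have h1 := eqn_sub h hα hy
    rw [hfix, hφy] at h1
    linear_combination -h1
  have hcV := cop_V h hd0 hV hα
  obtain ⟨n, rfl⟩ : ∃ n, d = n + 1 := ⟨d - 1, by omega⟩
  by_cases hA2 : (2 : ℤ) ∣ A
  · -- `A` even
    obtain ⟨A1, hA1⟩ := hA2
    have hV2 : ¬ (2 : ℤ) ∣ V := by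
      intro h2
      exact cop_not h.copA Nat.prime_two (by rw [hA1]; exact ⟨A1, by norm_num⟩)
        (by exact_mod_cast h2)
    have hA10 : A1 ≠ 0 := by rintro rfl; apply hA; rw [hA1]; ring
    have hcA1 : IsCoprime A1 (V : ℤ) := by
      have := h.copA
      rw [hA1] at this
      exact this.of_mul_left_right
    have hE1 : A1 * (α ^ (n + 1) - y ^ (n + 1)) = α * V := by
      rw [hA1] at hE
      linarith
    obtain ⟨γ, hγ⟩ : A1 ∣ α := hcA1.dvd_of_dvd_mul_right ⟨_, hE1.symm⟩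
    have hγ0 : γ ≠ 0 := by rintro rfl; apply hα0; rw [hγ]; ring
    have hE2 : α ^ (n + 1) - y ^ (n + 1) = γ * V := by
      apply mul_left_cancel₀ hA10
      rw [hE1, hγ]; ring
    apply tail_mid hde hd0 hcore (c := A1) (m := γ) (W := V) hγ0 hA10 (Or.inl rfl)
      (by rw [hγ] at hcV; exact hcV.of_mul_left_right) hcA1
      (fun h2 => by exfalso; apply hVz; linarith) (fun _ => hV2)
    rw [Nat.add_sub_cancel]
    have e1 : A1 ^ (n + 1) * γ ^ (n + 1) = α ^ (n + 1) := by rw [hγ, mul_pow]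
    have e2 : γ * (A1 ^ (n + 1) * γ ^ n - V) = A1 ^ (n + 1) * γ ^ (n + 1) - γ * V := by ring
    rw [e2, e1]
    linarith
  · -- `A` odd
    have hcA2 : IsCoprime A 2 := (Int.prime_two.coprime_iff_not_dvd.2 hA2).symm
    obtain ⟨γ, hγ⟩ : A ∣ α := by
      apply h.copA.dvd_of_dvd_mul_right
      apply hcA2.dvd_of_dvd_mul_left
      exact ⟨_, hE.symm⟩
    have hγ0 : γ ≠ 0 := by rintro rfl; apply hα0; rw [hγ]; ring
    have hγV : IsCoprime γ (V : ℤ) := by rw [hγ] at hcV; exact hcV.of_mul_left_right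
    have hE2 : α ^ (n + 1) - y ^ (n + 1) = 2 * (γ * V) := by
      apply mul_left_cancel₀ hA
      rw [hE, hγ]; ring
    have hE3 : A ^ (n + 1) * γ ^ (n + 1) - y ^ (n + 1) = 2 * (γ * V) := by
      rw [← mul_pow, ← hγ]; exact hE2
    by_cases hγ2 : (2 : ℤ) ∣ γ
    · -- `γ` even
      have hV2 : ¬ (2 : ℤ) ∣ V := by
        intro h2
        exact cop_not hγV Nat.prime_two (by exact_mod_cast hγ2) (by exact_mod_cast h2)
      obtain ⟨γ1, hγ1⟩ := hγ2
      obtain ⟨m, rfl⟩ : ∃ m, n = m + 2 := ⟨n - 2, by omega⟩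
      obtain ⟨y1, hy1⟩ : (2 : ℤ) ∣ y := by
        apply Int.prime_two.dvd_of_dvd_pow (n := m + 2 + 1)
        refine ⟨A ^ (m + 2 + 1) * (γ1 * γ ^ (m + 2)) - γ * V, ?_⟩
        have : γ ^ (m + 2 + 1) = γ * γ ^ (m + 2) := by ring
        rw [this] at hE3
        have h3 : y ^ (m + 2 + 1) = A ^ (m + 2 + 1) * (γ * γ ^ (m + 2)) - 2 * (γ * V) := by
          linarith
        rw [h3]
        nth_rewrite 1 [hγ1]
        ring
      -- `2 ^ (m+1) y1 ^ (m+3) = γ1 W`
      set W := 2 ^ (m + 1) * (A ^ (m + 3) * γ1 ^ (m + 2)) - V with hWdef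
      have hW2 : ¬ (2 : ℤ) ∣ W := by
        intro h2
        apply hV2
        have h3 : (2 : ℤ) ∣ 2 ^ (m + 1) * (A ^ (m + 3) * γ1 ^ (m + 2)) :=
          Dvd.dvd.mul_right (dvd_pow_self 2 (by omega)) _
        have := dvd_sub h3 h2
        rwa [hWdef, sub_sub_cancel] at this
      have hmain : 2 ^ (m + 1) * y1 ^ (m + 3) = γ1 * W := by
        have h3 : (4 : ℤ) * (2 ^ (m + 1) * y1 ^ (m + 3)) = 4 * (γ1 * W) := by
          have e1 : (4 : ℤ) * (2 ^ (m + 1) * y1 ^ (m + 3)) = y ^ (m + 2 + 1) := by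
            rw [hy1]; ring
          have e2 : (4 : ℤ) * (γ1 * W) =
              A ^ (m + 2 + 1) * γ ^ (m + 2 + 1) - 2 * (γ * V) := by
            rw [hWdef, hγ1]; ring
          rw [e1, e2]
          linarith
        linarith
      have hcop2 : IsCoprime ((2 : ℤ) ^ (m + 1)) W :=
        (Int.prime_two.coprime_iff_not_dvd.2 hW2).pow_left
      obtain ⟨γ2, hγ2⟩ : (2 : ℤ) ^ (m + 1) ∣ γ1 :=
        hcop2.dvd_of_dvd_mul_right ⟨_, hmain.symm⟩
      have hγ20 : γ2 ≠ 0 := by rintro rfl; apply hγ0; rw [hγ1, hγ2]; ring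
      have hmain2 : y1 ^ (m + 3) = γ2 * W := by
        have h20 : (2 : ℤ) ^ (m + 1) ≠ 0 := by positivity
        apply mul_left_cancel₀ h20
        rw [hmain, hγ2]; ring
      have hy10 : y1 = 0 := by
        apply tail_mid (d := m + 2 + 1) hde hd0 hcore (c := 2 ^ (m + 1) * A) (m := γ2) (W := V)
          hγ20 (mul_ne_zero (by positivity) hA) (Or.inl rfl) _ _
          (fun h2 => by exfalso; apply hVz; linarith) (fun _ => hV2)
        · have e1 : γ2 * ((2 ^ (m + 1) * A) ^ (m + 2 + 1) * γ2 ^ (m + 2 + 1 - 1) - V) =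
              γ2 * W := by
            have e2 : m + 2 + 1 - 1 = m + 2 := rfl
            rw [e2, hWdef, hγ2]
            ring
          rw [e1, ← hmain2]
        · have h4 := hγV
          rw [hγ1, hγ2] at h4
          exact h4.of_mul_left_right.of_mul_left_right
        · apply IsCoprime.mul_left _ h.copA
          apply IsCoprime.pow_left
          exact Int.prime_two.coprime_iff_not_dvd.2 hV2
      rw [hy1, hy10, mul_zero]
    · apply tail_mid hde hd0 hcore (c := A) (m := γ) (W := 2 * V) hγ0 hA (Or.inr rfl) hγV h.copA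
        (fun _ => ⟨hA2, hγ2⟩) (fun h2 => by exfalso; apply hVz; linarith)
      rw [Nat.add_sub_cancel]
      have e2 : γ * (A ^ (n + 1) * γ ^ n - 2 * V) =
        A ^ (n + 1) * γ ^ (n + 1) - 2 * (γ * V) := by ring
      rw [e2]
      linarith

theorem even_d (hd : 4 ∣ d ∨ 6 ∣ d) : Even d := by
  rcases hd with ⟨k, rfl⟩ | ⟨k, rfl⟩
  · exact ⟨2 * k, by ring⟩
  · exact ⟨3 * k, by ring⟩

/-- Tails at a fixed point. -/
theorem tail_at_fixed (hde : Even d) (hd4 : 4 ≤ d) (h : Sys d A B V O φ) (hA : A ≠ 0)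
    (hV : 0 < V) (hcore : Core d V) {α y : ℤ} (hα : α ∈ O)
    (hα0 : α ≠ 0) (hfix : φ α = α) (hy : y ∈ O) (hφy : φ y = -α) :
    V = 1 ∧ y = 0 ∧ (α = 1 ∨ α = -1) ∧ A = 2 * α ∧ B = -α := by
  have hd0 : d ≠ 0 := by omega
  have hy0 := tail_fixed hde hd4 h hA hV hcore hα hα0 hfix hy hφy
  have hV1 := V_one h hd0 hV (hy0 ▸ hy)
  have h1 := h.eqn y hy
  have h2 := h.eqn α hα
  rw [hφy, hy0, zero_pow hd0, hV1] at h1
  rw [hfix, hV1] at h2
  have hB : B = -α := by push_cast at h1; linarith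
  have h3 : A * α ^ d = 2 * α := by push_cast at h2; rw [hB] at h2; linarith
  obtain ⟨n, rfl⟩ : ∃ n, d = n + 1 := ⟨d - 1, by omega⟩
  have hnodd : Odd n := by
    obtain ⟨k, hk⟩ := hde
    exact ⟨k - 1, by omega⟩
  have h4 : A * α ^ n = 2 := by
    apply mul_right_cancel₀ hα0
    rw [mul_assoc, ← pow_succ, h3]
  have h5 : α = 1 ∨ α = -1 := by
    have h6 : α ^ n ∣ 2 := ⟨A, by rw [← h4]; ring⟩
    have h7 : α ^ 2 ∣ 2 := (pow_dvd_pow α (by omega)).trans h6
    have h8 : α ^ 2 ≤ 2 := Int.le_of_dvd (by norm_num) h7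
    have h9 : α < 2 := by nlinarith
    have h10 : -2 < α := by nlinarith
    omega
  refine ⟨hV1, hy0, h5, ?_, hB⟩
  rcases h5 with rfl | rfl
  · simpa using h4
  · rw [hnodd.neg_one_pow] at h4
    linarith

/-- **Tails.**  -/
theorem tail (hd : 4 ∣ d ∨ 6 ∣ d) (hd0 : d ≠ 0) (h : Sys d A B V O φ) (hA : A ≠ 0)
    (hV : 0 < V) (hC : ∀ p : ℕ, p.Prime → p ≠ 2 → p ∣ V → Cond d V p) {α y : ℤ} (hα : α ∈ O)
    (pα : Per φ α) (hnα : ¬ Per φ (-α)) (hy : y ∈ O) (hφy : φ y = -α) :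
    V = 1 ∧ y = 0 ∧ (α = 1 ∨ α = -1) ∧ A = 2 * α ∧ B = -α := by
  have hde := even_d hd
  have hd2 : 2 ≤ d := by
    rcases hd with ⟨k, rfl⟩ | ⟨k, rfl⟩ <;> omega
  have hVz : (V : ℤ) ≠ 0 := by exact_mod_cast hV.ne'
  have hα0 : α ≠ 0 := by
    rintro rfl
    exact hnα (by simpa using pα)
  have hd4 : 4 ≤ d := by
    rcases hd with ⟨k, rfl⟩ | ⟨k, rfl⟩ <;> omega
  by_cases hfix : φ α = α
  · exact tail_at_fixed hde hd4 h hA hV (core_of_cond hd hd0 hV hC) hα hα0 hfix hy hφy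
  · exfalso
    -- a cycle of length two
    have hβO : φ α ∈ O := h.maps α hα
    have pβ : Per φ (φ α) := pα.iter 1
    have hγO : φ (φ α) ∈ O := h.maps _ hβO
    have pγ : Per φ (φ (φ α)) := pα.iter 2
    have hββ : φ (φ α) ≠ φ α := fun h1 => hfix (per_inj pβ pα (k := 1) h1)
    have hcyc : φ (φ α) = α := by
      by_contra hne
      have h1 := card_two hd hd0 h hA hV hC {α, φ α, φ (φ α)}
        (by
          intro x hx
          simp only [mem_insert, mem_singleton] at hx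
          rcases hx with rfl | rfl | rfl
          · exact hα
          · exact hβO
          · exact hγO)
        (by
          intro x hx
          simp only [mem_insert, mem_singleton] at hx
          rcases hx with rfl | rfl | rfl
          · exact pα
          · exact pβ
          · exact pγ)
      rw [card_insert_of_notMem, card_insert_of_notMem, card_singleton] at h1
      · omega
      · simpa using hββ.symm
      · simp only [mem_insert, mem_singleton, not_or]
        exact ⟨fun h2 => hfix h2.symm, fun h2 => hne h2.symm⟩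
    set β := φ α with hβ
    have hne : α ≠ β := fun h1 => hfix h1.symm
    have hAu := unit_A h hA hV hα hβO pα pβ hne
    have hE : A * (α ^ d - y ^ d) = V * (α + β) := by
      have h1 := eqn_sub h hα hy
      rw [← hβ, hφy] at h1
      linear_combination -h1
    have hs0 : α + β ≠ 0 := by
      intro h0
      apply hnα
      have : -α = β := by linarith
      rw [this]; exact pβ
    have hgood : ∀ q : ℕ, q.Prime → ¬ q ∣ V → ¬ (q : ℤ) ∣ α + β := by
      intro q hq hqV h1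
      exact (good h hA hV hα hβO pα pβ hne hq hqV).2 (h1.trans (add_dvd_psi hde hne))
    have hvs : ∀ p : ℕ, p.Prime → p ≠ 2 → 3 ∣ padicValInt p (α + β) := by
      intro p hp hp2
      by_cases hpV : p ∣ V
      · by_cases hps : (p : ℤ) ∣ α + β
        · have hn := per_NM pα pβ hne
          have e1 : (-β) ^ d = β ^ d := hde.neg_pow β
          have h1 := lte_val hp hp2 hd0 (u := α) (w := -β) (by rwa [sub_neg_eq_add])
            (h.not_dvd hd0 hp hpV hα) (by rw [e1]; exact NM.pow_ne h hV hα hβO hn)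
          rw [e1, sub_neg_eq_add] at h1
          have h2 := val_pow_sub_dvd h hA hd0 hV hp hp2 hpV (hC p hp hp2 hpV) hα hβO hn
          rw [h1] at h2
          have h3 : 3 ∣ padicValNat p d := by
            by_cases hpd : p ∣ d
            · exact ((hC p hp hp2 hpV).2 hpd).1
            · rw [padicValNat.eq_zero_of_not_dvd hpd]; exact dvd_zero _
          omega
        · rw [padicValInt.eq_zero_of_not_dvd hps]; exact dvd_zero _
      · rw [padicValInt.eq_zero_of_not_dvd (hgood p hp hpV)]; exact dvd_zero _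
    have hvd : ∀ p : ℕ, p.Prime → p ≠ 2 → 3 ∣ padicValInt p (α ^ d - y ^ d) := by
      intro p hp hp2
      have := Fact.mk hp
      have h1 : padicValInt p (α ^ d - y ^ d) = padicValInt p (V * (α + β)) := by
        rw [← hE]
        rcases hAu with h1 | h1
        · rw [h1, one_mul]
        · rw [h1, neg_one_mul, val_neg]
      rw [h1, padicValInt.mul hVz hs0]
      exact dvd_add (valW hV hC (Or.inl rfl) p hp hp2) (hvs p hp hp2)
    have hcop : IsCoprime α y := by
      apply cop_of_nat (fun h0 => hα0 h0.1)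
      intro p hp h1 h2
      have hpV : ¬ p ∣ V := fun h3 => h.not_dvd hd0 hp h3 hα h1
      have h3 : (p : ℤ) ∣ V * (α + β) := by
        rw [← hE]
        exact Dvd.dvd.mul_left (dvd_sub (dvd_pow h1 hd0) (dvd_pow h2 hd0)) A
      rcases (Nat.prime_iff_prime_int.1 hp).dvd_or_dvd h3 with h4 | h4
      · exact hpV (Int.natCast_dvd_natCast.1 h4)
      · exact hgood p hp hpV h4
    rcases core hd hd0 hcop hvd with h1 | h1 | h1
    · rw [h1, sub_self, mul_zero] at hE
      exact (mul_ne_zero hVz hs0) hE.symm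
    · exact hα0 h1
    · -- `y = 0`
      have hV1 := V_one h hd0 hV (h1 ▸ hy)
      have h2 := h.eqn y hy
      rw [hφy, h1, zero_pow hd0, hV1] at h2
      have hB : B = -α := by push_cast at h2; linarith
      have h3 := h.eqn β hβO
      rw [hcyc, hV1, hB] at h3
      have h4 : A * β ^ d = 2 * α := by push_cast at h3; linarith
      rw [h1, isCoprime_zero_right, Int.isUnit_iff] at hcop
      have h5 : β ^ d = 2 ∨ β ^ d = -2 := by
        rcases hAu with h6 | h6 <;> rcases hcop with h7 | h7 <;> rw [h6, h7] at h4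
        · left; linarith
        · right; linarith
        · right; linarith
        · left; linarith
      have h6 : (2 : ℤ) ∣ β := by
        apply Int.prime_two.dvd_of_dvd_pow (n := d)
        rcases h5 with h5 | h5 <;> rw [h5] <;> norm_num
      have h7 : (2 : ℤ) ^ 2 ∣ β ^ d := (pow_dvd_pow_of_dvd h6 2).trans (pow_dvd_pow β hd2)
      rcases h5 with h5 | h5 <;> rw [h5] at h7 <;> norm_num at h7

end

end Pool.Agent.W2helper83.UC
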